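import Mathlib.RingTheory.AlgebraicIndependent.TranscendenceBasis
import Mathlib.RingTheory.Etale.Field
import Mathlib.Algebra.DualNumber
import Mathlib.FieldTheory.IsAlgClosed.AlgebraicClosure
import Mathlib.FieldTheory.Perfect
import Mathlib.Data.Rat.Lemmas
import Mathlib.Algebra.Algebra.Rat
import Mathlib.Tactic.LinearCombination
import Mathlib.Tactic.FieldSimp

/-!
A derivation of a field of characteristic zero that sends a given transcendental element `s` to `1`
and for which `4 / (1 - 2 s ^ 2)` is not a logarithmic derivative.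
-/

set_option autoImplicit false

namespace Pool.Agent.MP_841a27_al.G

open Polynomial

/-- An additive map that satisfies the Leibniz rule. -/
structure IsDer {F : Type} [Field F] (d : F →+ F) : Prop where
  mul : ∀ a b, d (a * b) = a * d b + d a * b

theorem IsDer.one {F : Type} [Field F] {d : F →+ F} (h : IsDer d) : d 1 = 0 := by
  have := h.mul 1 1
  rw [one_mul, one_mul, mul_one] at this
  exact left_eq_add.mp this

theorem IsDer.natCast {F : Type} [Field F] {d : F →+ F} (h : IsDer d) (n : ℕ) : d n = 0 := by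
  rw [← nsmul_one, map_nsmul, h.one, smul_zero]

theorem lift_sq {R F B : Type} [CommRing R] [CommRing F] [CommRing B] [Algebra R F] [Algebra R B]
    [Algebra.FormallySmooth R F] (g : B →+* F) (hg : ∀ r, g (algebraMap R B r) = algebraMap R F r)
    (hs : Function.Surjective g) (hn : IsNilpotent (RingHom.ker g)) :
    ∃ φ : F →+* B, (∀ r, φ (algebraMap R F r) = algebraMap R B r) ∧ ∀ x, g (φ x) = x := by
  let g' : B →ₐ[R] F := { g with commutes' := hg }
  let φ := Algebra.FormallySmooth.liftOfSurjective (AlgHom.id R F) g' hs hn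
  exact ⟨φ, φ.commutes, fun x =>
    Algebra.FormallySmooth.liftOfSurjective_apply (AlgHom.id R F) g' hs hn x⟩

theorem smooth_of_alg {R F : Type} [CommRing R] [IsDomain R] [Field F] [CharZero F] [Algebra R F]
    (hi : Function.Injective (algebraMap R F)) (ha : Algebra.IsAlgebraic R F) :
    Algebra.FormallySmooth R F := by
  have : FaithfulSMul R F := (faithfulSMul_iff_algebraMap_injective R F).mpr hi
  let _ := FractionRing.liftAlgebra R F
  have : IsScalarTower R (FractionRing R) F := FractionRing.isScalarTower_liftAlgebra R F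
  have : Algebra.IsAlgebraic (FractionRing R) F :=
    Algebra.IsAlgebraic.extendScalars (IsFractionRing.injective R (FractionRing R))
  have : CharZero (FractionRing R) := (algebraMap (FractionRing R) F).charZero
  have : Algebra.FormallyEtale (FractionRing R) F := Algebra.FormallyEtale.of_isSeparable _ _
  have : Algebra.FormallySmooth R (FractionRing R) :=
    Algebra.FormallySmooth.of_isLocalization (nonZeroDivisors R)
  exact Algebra.FormallySmooth.comp R (FractionRing R) F

section
variable {k F : Type} [CommRing k] [IsDomain k] [Field F] [CharZero F] [Algebra k F] {s : F}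

theorem exists_der_aux (hs : Function.Injective (aeval s : k[X] →ₐ[k] F))
    (ha : ∀ c : F, ∃ P : k[X][X], P ≠ 0 ∧ P.eval₂ (aeval s : k[X] →ₐ[k] F).toRingHom c = 0) :
    ∃ d : F →+ F, IsDer d ∧ ∀ p : k[X], d (aeval s p) = aeval s (derivative p) := by
  let i1 : Algebra k[X] F := (aeval s : k[X] →ₐ[k] F).toRingHom.toAlgebra
  have hsm : Algebra.FormallySmooth k[X] F := smooth_of_alg hs ⟨fun c => ha c⟩
  let e : DualNumber F := TrivSqZeroExt.inl s + TrivSqZeroExt.inr 1
  let ψ : k[X] →+* DualNumber F :=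
    eval₂RingHom ((TrivSqZeroExt.inlHom F F).comp (algebraMap k F)) e
  have hψ : ∀ p : k[X], (ψ p).fst = aeval s p ∧ (ψ p).snd = aeval s (derivative p) := by
    intro p
    induction p using Polynomial.induction_on with
    | C a => simp [ψ]
    | add p q hp hq => simp [hp.1, hp.2, hq.1, hq.2]
    | monomial n a h =>
      have hX : ψ X = e := by simp [ψ]
      rw [pow_succ, ← mul_assoc, map_mul ψ, hX, TrivSqZeroExt.fst_mul, DualNumber.snd_mul, h.1, h.2,
        derivative_mul (f := C a * X ^ n)]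
      simp [e]
      ring
  obtain ⟨φ, h1, h2⟩ := @lift_sq k[X] F (DualNumber F) _ _ _ i1 ψ.toAlgebra hsm
    (TrivSqZeroExt.fstHom F F F).toRingHom (fun r => (hψ r).1)
    (fun x => ⟨TrivSqZeroExt.inl x, rfl⟩) ⟨2, by
      rw [sq, Ideal.zero_eq_bot, eq_bot_iff, Ideal.mul_le]
      intro a ha b hb
      have ha' : a.fst = 0 := ha
      have hb' : b.fst = 0 := hb
      rw [Ideal.mem_bot]
      ext
      · simp [ha']
      · simp [ha', hb']⟩
  have h3 : ∀ x, (φ x).fst = x := h2
  refine ⟨AddMonoidHom.mk' (fun x => (φ x).snd) (fun a b => by simp), ⟨fun a b => ?_⟩, fun p => ?_⟩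
  · simp only [AddMonoidHom.mk'_apply, map_mul, DualNumber.snd_mul, h3]
  · exact (congrArg TrivSqZeroExt.snd (h1 p)).trans (hψ p).2

omit [IsDomain k] in
theorem norm_step (hs : Function.Injective (aeval s : k[X] →ₐ[k] F)) {d : F →+ F} (hd : IsDer d)
    (hk : ∀ p : k[X], d (aeval s p) = aeval s (derivative p)) (u v : k[X]) {c : F} (hc : c ≠ 0)
    (h : aeval s v * d c = aeval s u * c)
    (ha : ∃ P : k[X][X], P ≠ 0 ∧ P.eval₂ (aeval s : k[X] →ₐ[k] F).toRingHom c = 0) :
    ∃ (m : ℕ) (α β : k[X]), m ≠ 0 ∧ α ≠ 0 ∧ β ≠ 0 ∧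
      v * (β * derivative α - α * derivative β) = m * u * α * β := by
  classical
  set ev : k[X][X] →+* F := eval₂RingHom (aeval s : k[X] →ₐ[k] F).toRingHom c with hev
  have hex : ∃ n, ∃ P : k[X][X], P ≠ 0 ∧ ev P = 0 ∧ P.natDegree = n :=
    ha.elim fun P hP => ⟨_, P, hP.1, hP.2, rfl⟩
  obtain ⟨P, h0, hP, hm⟩ := Nat.find_spec hex
  have hmin : ∀ W : k[X][X], ev W = 0 → W.degree < P.natDegree → W = 0 := by
    intro W hW hlt
    by_contra hW0
    exact Nat.find_min hex (hm ▸ (natDegree_lt_iff_degree_lt hW0).mpr hlt) ⟨W, hW0, hW, rfl⟩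
  have evC : ∀ a : k[X], ev (C a) = aeval s a := fun a => by simp [hev]
  have evX : ev X = c := by simp [hev]
  have hm0 : P.natDegree ≠ 0 := by
    intro e
    rw [eq_C_of_natDegree_eq_zero e] at h0 hP
    rw [evC] at hP
    exact h0 (by rw [hs (hP.trans (map_zero _).symm), map_zero])
  have ha0 : P.coeff 0 ≠ 0 := by
    intro e
    have e1 : P.divX * X = P := by
      have := divX_mul_X_add P
      rwa [e, map_zero, add_zero] at this
    have e2 : ev P.divX = 0 := by
      rw [← e1, map_mul, evX] at hP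
      exact (mul_eq_zero.mp hP).resolve_right hc
    have := hmin _ e2 (by rw [← degree_eq_natDegree h0]; exact degree_divX_lt h0)
    exact h0 (by rw [← e1, this, zero_mul])
  have hpow : ∀ i : ℕ, aeval s v * d (c ^ i) = i * aeval s u * c ^ i := by
    intro i
    induction i with
    | zero => simp [hd.one]
    | succ i ih =>
      rw [pow_succ, hd.mul]
      push_cast
      linear_combination c ^ i * h + c * ih
  let q : ℕ → k[X] := fun i => v * derivative (P.coeff i) + i * u * P.coeff i
  let Q : k[X][X] := ∑ i ∈ Finset.range (P.natDegree + 1), monomial i (q i)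
  have hQc : ∀ j, Q.coeff j = q j := by
    intro j
    simp only [Q, finsetSum_coeff, coeff_monomial, Finset.sum_ite_eq', Finset.mem_range]
    split_ifs with hj
    · rfl
    · simp [q, coeff_eq_zero_of_natDegree_lt (p := P) (n := j) (by omega)]
  have hQ : ev Q = 0 := by
    have e1 : ev P = ∑ i ∈ Finset.range (P.natDegree + 1), aeval s (P.coeff i) * c ^ i := by
      rw [hev, coe_eval₂RingHom, eval₂_eq_sum_range]; rfl
    have e2 : aeval s v * d (ev P) = 0 := by rw [hP, map_zero, mul_zero]
    rw [← e2, e1, map_sum, map_sum, Finset.mul_sum]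
    refine Finset.sum_congr rfl fun i _ => ?_
    rw [← C_mul_X_pow_eq_monomial, map_mul, map_pow, evC, evX, hd.mul, hk]
    simp only [q, map_add, map_mul, map_natCast]
    linear_combination (-(aeval s (P.coeff i))) * hpow i
  have hW := hmin (C (P.coeff P.natDegree) * Q - C (q P.natDegree) * P)
    (by rw [map_sub, map_mul, map_mul, hQ, hP, mul_zero, mul_zero, sub_zero]) (by
      rw [degree_lt_iff_coeff_zero]
      intro j hj
      rw [coeff_sub, coeff_C_mul, coeff_C_mul, hQc]
      rcases hj.eq_or_lt with e | e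
      · rw [← e]; ring
      · simp [q, coeff_eq_zero_of_natDegree_lt e])
  have := congrArg (fun W => W.coeff 0) hW
  simp only [coeff_sub, coeff_C_mul, hQc, coeff_zero, q] at this
  refine ⟨P.natDegree, P.coeff 0, P.coeff P.natDegree, hm0, ha0, leadingCoeff_ne_zero.mpr h0, ?_⟩
  push_cast at this
  linear_combination this

end

theorem residue {L : Type} [Field L] [IsAlgClosed L] [CharZero L] {m : ℕ} {α β : L[X]}
    (hm : m ≠ 0) (hα : α ≠ 0) (hβ : β ≠ 0) :
    (1 - 2 * X ^ 2) * (β * derivative α - α * derivative β) ≠ (m : L[X]) * 4 * α * β := by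
  intro h
  obtain ⟨ρ, hρ⟩ := IsAlgClosed.exists_eq_mul_self (1 / 2 : L)
  have hρ2 : 2 * ρ ^ 2 = 1 := by rw [sq, ← hρ]; norm_num
  have hC : (2 * C ρ ^ 2 : L[X]) = 1 := by
    have := congrArg (C : L → L[X]) hρ2
    simpa [map_ofNat] using this
  obtain ⟨α1, e1, n1⟩ := exists_eq_pow_rootMultiplicity_mul_and_not_dvd α hα ρ
  obtain ⟨β1, e2, n2⟩ := exists_eq_pow_rootMultiplicity_mul_and_not_dvd β hβ ρ
  generalize rootMultiplicity ρ α = a at e1
  generalize rootMultiplicity ρ β = b at e2
  have dp : ∀ n : ℕ, (X - C ρ) * derivative ((X - C ρ) ^ n) = (n : L[X]) * (X - C ρ) ^ n := by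
    intro n
    induction n with
    | zero => simp
    | succ n ih =>
      rw [pow_succ, derivative_mul, derivative_X_sub_C]
      push_cast
      linear_combination (X - C ρ) * ih
  have hne : ((X - C ρ) ^ a * (X - C ρ) ^ b : L[X]) ≠ 0 :=
    mul_ne_zero (pow_ne_zero _ (X_sub_C_ne_zero ρ)) (pow_ne_zero _ (X_sub_C_ne_zero ρ))
  have key : -2 * (X + C ρ) * (((a : L[X]) - (b : L[X])) * α1 * β1 +
      (X - C ρ) * (β1 * derivative α1 - α1 * derivative β1)) = (m : L[X]) * 4 * α1 * β1 := by
    apply mul_left_cancel₀ hne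
    rw [e1, e2, derivative_mul, derivative_mul] at h
    linear_combination h + (2 * (X + C ρ) * (X - C ρ) ^ b * β1 * α1) * dp a
      - (2 * (X + C ρ) * (X - C ρ) ^ a * β1 * α1) * dp b
      + ((X - C ρ) ^ b * β1 * (derivative ((X - C ρ) ^ a) * α1 + (X - C ρ) ^ a * derivative α1) -
        (X - C ρ) ^ a * α1 * (derivative ((X - C ρ) ^ b) * β1 + (X - C ρ) ^ b * derivative β1)) * hC
  have k2 := congrArg (eval ρ) key
  simp only [eval_mul, eval_add, eval_sub, eval_neg, eval_X, eval_C, eval_natCast, eval_ofNat,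
    sub_self, zero_mul, add_zero] at k2
  have m1 : α1.eval ρ ≠ 0 := fun e => n1 (dvd_iff_isRoot.mpr e)
  have m2 : β1.eval ρ ≠ 0 := fun e => n2 (dvd_iff_isRoot.mpr e)
  have k3 : -ρ * ((a : L) - b) = m := by
    apply mul_left_cancel₀ (mul_ne_zero (mul_ne_zero m1 m2) (by norm_num : (4 : L) ≠ 0))
    linear_combination k2
  have k4 : (((a : ℚ) - b) ^ 2 : ℚ) = 2 * (m : ℚ) ^ 2 := by
    have : (((a : L) - b) ^ 2 : L) = 2 * (m : L) ^ 2 := by
      rw [← k3]; linear_combination (-((a : L) - b) ^ 2) * hρ2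
    exact_mod_cast this
  have hm' : (m : ℚ) ≠ 0 := by exact_mod_cast hm
  have : IsSquare ((2 : ℕ) : ℚ) := ⟨((a : ℚ) - b) / m, by
    push_cast
    field_simp
    linear_combination -k4⟩
  exact Nat.prime_two.not_isSquare (Rat.isSquare_natCast_iff.mp this)

theorem exists_der {F : Type} [Field F] [CharZero F] {s : F} (hs : Transcendental ℚ s) :
    ∃ d : F →+ F, IsDer d ∧ d s = 1 ∧ ∀ c, c ≠ 0 → (1 - 2 * s ^ 2) * d c ≠ 4 * c := by
  obtain ⟨t, hst, ht⟩ := exists_isTranscendenceBasis_superset (R := ℚ) (s := {s})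
    ((algebraicIndependent_singleton_iff (⟨s, rfl⟩ : ({s} : Set F))).mpr hs)
  let i : t := ⟨s, hst rfl⟩
  let k : Subalgebra ℚ F := Algebra.adjoin ℚ (Subtype.val '' ({i}ᶜ : Set t))
  have hk : Transcendental k s := ht.1.transcendental_adjoin (s := {i}ᶜ) (i := i) (by simp)
  have hinj : Function.Injective (aeval s : k[X] →ₐ[k] F) := transcendental_iff_injective.mp hk
  have ha : ∀ c : F, ∃ P : k[X][X], P ≠ 0 ∧
      P.eval₂ (aeval s : k[X] →ₐ[k] F).toRingHom c = 0 := by
    intro c
    let B : Subalgebra ℚ F := (aeval s : k[X] →ₐ[k] F).range.restrictScalars ℚ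
    have hle : Algebra.adjoin ℚ (Set.range (Subtype.val : t → F)) ≤ B := by
      rw [Algebra.adjoin_le_iff]
      rintro _ ⟨j, rfl⟩
      by_cases hj : j = i
      · exact ⟨X, by simp [hj, i]⟩
      · exact ⟨C ⟨j, Algebra.subset_adjoin ⟨j, hj, rfl⟩⟩, by simp⟩
    have h1 : IsAlgebraic B c := (ht.isAlgebraic.isAlgebraic c).tower_top_of_subalgebra_le hle
    let _ : Algebra k[X] F := (aeval s : k[X] →ₐ[k] F).toRingHom.toAlgebra
    let f : k[X] →+* B := (aeval s : k[X] →ₐ[k] F).toRingHom.codRestrict B fun p => ⟨p, rfl⟩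
    exact IsAlgebraic.of_ringHom_of_comp_eq f (RingHom.id F) h1
      (fun ⟨_, p, hp⟩ => ⟨p, Subtype.ext hp⟩) Function.injective_id rfl
  obtain ⟨d, hd, hk⟩ := exists_der_aux hinj ha
  refine ⟨d, hd, by simpa using hk X, fun c hc h => ?_⟩
  obtain ⟨m, α, β, hm, hα, hβ, e⟩ := norm_step hinj hd hk 4 (1 - 2 * X ^ 2) hc
    (by simpa [map_ofNat] using h) (ha c)
  let φ : k →+* AlgebraicClosure F := (algebraMap F (AlgebraicClosure F)).comp (algebraMap k F)
  have hφ : Function.Injective φ :=
    (algebraMap F (AlgebraicClosure F)).injective.comp Subtype.val_injective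
  refine residue (L := AlgebraicClosure F) hm ((Polynomial.map_ne_zero_iff hφ).mpr hα)
    ((Polynomial.map_ne_zero_iff hφ).mpr hβ) ?_
  have := congrArg (Polynomial.map φ) e
  simpa [derivative_map] using this

end Pool.Agent.MP_841a27_al.G
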