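import Mathlib.Algebra.Order.Field.Basic
import Mathlib.Algebra.Order.Archimedean.Basic
import Mathlib.RingTheory.Algebraic.Defs
import Mathlib.Algebra.BigOperators.Ring.Finset
import Mathlib.Algebra.Order.Hom.Ring
import Mathlib.Algebra.Order.Monoid.Units

/-!
The ground field: an ordered field that is algebraic over the rationals, and ordered fields
that contain it.
-/

set_option autoImplicit false

namespace Pool.Agent.MP_841a27_al.G

/-- A ground field. -/
class Gf where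
  F : Type
  [fld : Field F]
  [lo : LinearOrder F]
  [so : IsStrictOrderedRing F]
  arch : Archimedean F
  alg : ∀ x : F, IsAlgebraic ℤ x

/-- The carrier of the ground field. -/
abbrev 𝕜 [g : Gf] : Type := g.F

instance instFieldGf [g : Gf] : Field 𝕜 := g.fld
instance instOrderGf [g : Gf] : LinearOrder 𝕜 := g.lo
instance instStrictGf [g : Gf] : IsStrictOrderedRing 𝕜 := g.so
instance instArchGf [g : Gf] : Archimedean 𝕜 := g.arch

variable [Gf]

/-- An embedding of the ground field. -/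
class Emb (K : Type) [Field K] where
  φ : 𝕜 →+* K

/-- The embedding preserves the order. -/
class EmbO (K : Type) [Field K] [LinearOrder K] [Emb K] : Prop where
  mono : StrictMono (Emb.φ : 𝕜 →+* K)

/-- The image of an element of the ground field. -/
@[coe] def ca {K : Type} [Field K] [Emb K] (q : 𝕜) : K := (Emb.φ : 𝕜 →+* K) q

instance instCoeGf {K : Type} [Field K] [Emb K] : CoeHTCT 𝕜 K := ⟨ca⟩

instance instEmbSelf : Emb 𝕜 := ⟨RingHom.id _⟩

instance instEmbOSelf : EmbO 𝕜 := ⟨fun _ _ h => h⟩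

@[simp, norm_cast] theorem ca_id (q : 𝕜) : (ca q : 𝕜) = q := rfl

section
variable {K : Type} [Field K] [Emb K]

/-- The embedding as a ring homomorphism. -/
def caHom (K : Type) [Field K] [Emb K] : 𝕜 →+* K := Emb.φ

@[simp] theorem caHom_apply (q : 𝕜) : caHom K q = (q : K) := rfl

@[simp, norm_cast] theorem ca_zero : ((0 : 𝕜) : K) = 0 := map_zero (caHom K)
@[simp, norm_cast] theorem ca_one : ((1 : 𝕜) : K) = 1 := map_one (caHom K)
@[simp, norm_cast] theorem ca_add (a b : 𝕜) : ((a + b : 𝕜) : K) = a + b := map_add (caHom K) a b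
@[simp, norm_cast] theorem ca_sub (a b : 𝕜) : ((a - b : 𝕜) : K) = a - b := map_sub (caHom K) a b
@[simp, norm_cast] theorem ca_mul (a b : 𝕜) : ((a * b : 𝕜) : K) = a * b := map_mul (caHom K) a b
@[simp, norm_cast] theorem ca_neg (a : 𝕜) : ((-a : 𝕜) : K) = -a := map_neg (caHom K) a
@[simp, norm_cast] theorem ca_inv (a : 𝕜) : ((a⁻¹ : 𝕜) : K) = (a : K)⁻¹ := map_inv₀ (caHom K) a
@[simp, norm_cast] theorem ca_div (a b : 𝕜) : ((a / b : 𝕜) : K) = a / b := map_div₀ (caHom K) a b
@[simp, norm_cast] theorem ca_pow (a : 𝕜) (n : ℕ) : ((a ^ n : 𝕜) : K) = (a : K) ^ n :=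
  map_pow (caHom K) a n
@[simp, norm_cast] theorem ca_natCast (n : ℕ) : (((n : 𝕜)) : K) = n := map_natCast (caHom K) n
@[simp, norm_cast] theorem ca_intCast (n : ℤ) : (((n : 𝕜)) : K) = n := map_intCast (caHom K) n
@[simp, norm_cast] theorem ca_ofNat (n : ℕ) [n.AtLeastTwo] :
    ((ofNat(n) : 𝕜) : K) = (ofNat(n) : K) := map_ofNat (caHom K) n
@[simp, norm_cast] theorem ca_sum {ι : Type} (s : Finset ι) (f : ι → 𝕜) :
    ((∑ i ∈ s, f i : 𝕜) : K) = ∑ i ∈ s, (f i : K) := map_sum (caHom K) f s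
@[simp, norm_cast] theorem ca_inj {a b : 𝕜} : (a : K) = (b : K) ↔ a = b :=
  (caHom K).injective.eq_iff
@[simp, norm_cast] theorem ca_eq_zero {a : 𝕜} : (a : K) = 0 ↔ a = 0 := map_eq_zero (caHom K)
theorem ca_ne_zero {a : 𝕜} : (a : K) ≠ 0 ↔ a ≠ 0 := ca_eq_zero.not
@[norm_cast] theorem ca_ite (p : Prop) [Decidable p] (a b : 𝕜) :
    ((if p then a else b : 𝕜) : K) = if p then (a : K) else (b : K) := by
  split_ifs <;> rfl

variable [LinearOrder K] [EmbO K]

theorem ca_strictMono : StrictMono (ca : 𝕜 → K) := EmbO.mono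

@[simp, norm_cast] theorem ca_lt {a b : 𝕜} : (a : K) < (b : K) ↔ a < b := ca_strictMono.lt_iff_lt
@[simp, norm_cast] theorem ca_le {a b : 𝕜} : (a : K) ≤ (b : K) ↔ a ≤ b := ca_strictMono.le_iff_le
@[simp] theorem ca_pos {a : 𝕜} : (0 : K) < (a : K) ↔ 0 < a := by rw [← ca_zero, ca_lt]
@[simp] theorem ca_nonneg {a : 𝕜} : (0 : K) ≤ (a : K) ↔ 0 ≤ a := by rw [← ca_zero, ca_le]
@[simp, norm_cast] theorem ca_min (a b : 𝕜) : ((min a b : 𝕜) : K) = min (a : K) (b : K) :=
  ca_strictMono.monotone.map_min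
@[simp, norm_cast] theorem ca_max (a b : 𝕜) : ((max a b : 𝕜) : K) = max (a : K) (b : K) :=
  ca_strictMono.monotone.map_max
@[simp, norm_cast] theorem ca_abs (a : 𝕜) : ((|a| : 𝕜) : K) = |(a : K)| := by
  rw [abs, abs, ← ca_neg]; exact ca_max _ _

end

end Pool.Agent.MP_841a27_al.G
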