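import Mathlib.Algebra.Polynomial.Basic
import Mathlib.Data.Matrix.Mul
import Pool.Agent.MP_841a27_al.G.Gf

set_option linter.unusedSectionVars false

/-!
Definitions for the rational (word level) part of the proof that shift equivalence implies
strong shift equivalence over the nonnegative rationals.
-/

namespace Pool.Agent.MP_841a27_al.G

variable [Gf]

open Polynomial Matrix

/-- Axioms for a relation `Al x y m` (an entry from state `x` to state `y` in degree `m` is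
allowed); `P` is a period. -/
structure AlAx {V : Type} (Al : V → V → ℕ → Prop) (P : ℕ) : Prop where
  pos : 0 < P
  refl : ∀ x, Al x x 0
  trans : ∀ {x y w : V} {m m' : ℕ}, Al x y m → Al y w m' → Al x w (m + m')
  inv : ∀ {x y : V} {m₁ m₂ m m' : ℕ}, Al x y m₁ → Al y x m₂ → 0 < m₁ + m₂ → Al x y m →
    P ∣ m + m' → Al y x m'
  zero : ∀ {x y : V}, Al x y 0 → x ≠ y → ∃ m, 0 < m ∧ Al x y m

/-- Index set: a level and a state. -/
abbrev Ix (N : ℕ) (V : Type) : Type := Fin (N + 1) × V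

/-- Square polynomial matrices on `Ix N V`. -/
abbrev QM (N : ℕ) (V : Type) : Type := Matrix (Ix N V) (Ix N V) 𝕜[X]

section
variable {N : ℕ} {V : Type}

/-- All nonzero coefficients sit in allowed places. -/
def AlS (Al : V → V → ℕ → Prop) (M : QM N V) : Prop :=
  ∀ i j m, (M i j).coeff m ≠ 0 → Al i.2 j.2 m

/-- Constant coefficients only go from a lower level to a higher level. -/
def LevUp (M : QM N V) : Prop :=
  ∀ i j, (M i j).coeff 0 ≠ 0 → i.1 < j.1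

/-- Congruence of matrices modulo `X ^ L`. -/
def Cong (L : ℕ) (M M' : QM N V) : Prop :=
  ∀ i j, (X : 𝕜[X]) ^ L ∣ M i j - M' i j

/-- No constant terms, and nonnegative coefficients in degrees below `L`. -/
def LowNN (L : ℕ) (M : QM N V) : Prop :=
  ∀ i j, (M i j).coeff 0 = 0 ∧ ∀ m, m < L → 0 ≤ (M i j).coeff m

variable [Fintype V] [DecidableEq V]

/-- The matrix agrees with the identity outside level zero. -/
def Lev0 (M : QM N V) : Prop :=
  ∀ i j : Ix N V, (i.1 ≠ 0 ∨ j.1 ≠ 0) → M i j = (1 : QM N V) i j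

/-- The group of admissible invertible matrices. -/
def InG (Al : V → V → ℕ → Prop) (u : (QM N V)ˣ) : Prop :=
  AlS Al (u : QM N V) ∧ LevUp ((u : QM N V) - 1) ∧
    AlS Al ((u⁻¹ : (QM N V)ˣ) : QM N V) ∧ LevUp (((u⁻¹ : (QM N V)ˣ) : QM N V) - 1)

/-- Axioms for realizability: `Re P U W` says that the passage from the state `P` to the state
`U * P * W` can be realized. -/
structure ReAx (Al : V → V → ℕ → Prop) (L : ℕ)
    (Re : QM N V → (QM N V)ˣ → (QM N V)ˣ → Prop) : Prop where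
  comp : ∀ {P : QM N V} {U W U' W' : (QM N V)ˣ}, Re P U W →
    Re ((U : QM N V) * P * (W : QM N V)) U' W' → Re P (U' * U) (W * W')
  inv : ∀ {P : QM N V} {U W : (QM N V)ˣ}, Re P U W →
    Re ((U : QM N V) * P * (W : QM N V)) U⁻¹ W⁻¹
  congr : ∀ {P P' : QM N V} {U W : (QM N V)ˣ}, Cong L P P' → Re P U W → Re P' U W
  row : ∀ (P Ξ : QM N V) (p : Ix N V → Prop) (u : (QM N V)ˣ), (u : QM N V) = 1 + Ξ →
    (∀ i j, Ξ i j ≠ 0 → p i ∧ ¬ p j) → AlS Al Ξ → (∀ i j, (Ξ i j).coeff 0 = 0) →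
    LowNN L (1 - P) → LowNN L (1 - (u : QM N V) * P) → Re P u 1
  col : ∀ (P Θ : QM N V) (p : Ix N V → Prop) (u : (QM N V)ˣ), (u : QM N V) = 1 + Θ →
    (∀ i j, Θ i j ≠ 0 → ¬ p i ∧ p j) → AlS Al Θ → (∀ i j, (Θ i j).coeff 0 = 0) →
    LowNN L (1 - P) → LowNN L (1 - P * (u : QM N V)) → Re P 1 u
  conj : ∀ (P : QM N V) (g : Matrix (Ix N V) (Ix N V) 𝕜) (u : (QM N V)ˣ),
    (u : QM N V) = 1 - g.map C → (∀ i j, 0 ≤ g i j) → g * g = 0 →
    (∀ i j, g i j ≠ 0 → Al i.2 j.2 0 ∧ i.1 < j.1) →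
    LowNN L (1 - P) → LowNN L ((u : QM N V) * (1 - P)) → Re P u u⁻¹

end

/-- Relative transvections of level `m` whose vectors are supported in `S`. -/
def TV {ι : Type} [Fintype ι] [DecidableEq ι] (m : ℕ) (S : Finset ι) :
    Set (Matrix ι ι 𝕜[X])ˣ :=
  {u | ∃ x y : ι → 𝕜[X], (∀ i, i ∉ S → x i = 0) ∧ (∀ i, i ∉ S → y i = 0) ∧ y ⬝ᵥ x = 0 ∧
    (u : Matrix ι ι 𝕜[X]) = 1 + ((X : 𝕜[X]) ^ m) • vecMulVec x y}

/-- The statement that the relative special Whitehead group of `𝕜[X]` at `X ^ m` vanishes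
(stable form). -/
def SK1Stmt : Prop :=
  ∀ (ι : Type) [Fintype ι] [DecidableEq ι] (m : ℕ), 1 ≤ m → ∀ (S S' : Finset ι), S ⊆ S' →
    2 * m ≤ (S' \ S).card → ∀ κ : (Matrix ι ι 𝕜[X])ˣ,
    (∀ i j, (i ∉ S ∨ j ∉ S) → (κ : Matrix ι ι 𝕜[X]) i j = (1 : Matrix ι ι 𝕜[X]) i j) →
    (∀ i j, (X : 𝕜[X]) ^ m ∣ (κ : Matrix ι ι 𝕜[X]) i j - (1 : Matrix ι ι 𝕜[X]) i j) →
    κ ∈ Subgroup.closure (TV m S')

/-- The word level theorem. -/
def QTStmt : Prop :=
  ∀ (V : Type) [Fintype V] [DecidableEq V] (Al : V → V → ℕ → Prop) (P : ℕ), AlAx Al P →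
    ∀ L : ℕ, 1 ≤ L → ∃ N : ℕ, ∀ Re : QM N V → (QM N V)ˣ → (QM N V)ˣ → Prop, ReAx Al L Re →
      ∀ (P₀ : QM N V) (U W : (QM N V)ˣ), Lev0 P₀ → Lev0 (U : QM N V) → Lev0 (W : QM N V) →
        InG Al U → InG Al W → AlS Al P₀ → (∀ L', LowNN L' (1 - P₀)) →
        (∀ L', LowNN L' (1 - (U : QM N V) * P₀ * (W : QM N V))) → Re P₀ U W

end Pool.Agent.MP_841a27_al.G
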