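import Mathlib.LinearAlgebra.Matrix.Charpoly.Coeff
import Mathlib.LinearAlgebra.Matrix.ToLin
import Mathlib.LinearAlgebra.Basis.VectorSpace
import Mathlib.Algebra.Order.BigOperators.Ring.Finset
import Pool.Agent.MP_841a27_al.G.Der

/-!
An invariant of strong shift equivalence of nonnegative matrices of trace zero, with values in the
differentials of the field.
-/

set_option autoImplicit false
set_option linter.unusedSectionVars false

namespace Pool.Agent.MP_841a27_al.G

open Matrix

section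
variable {F : Type} [Field F] {d : F →+ F}
variable {I J L : Type} [Fintype I] [DecidableEq I] [Fintype J] [DecidableEq J]
  [Fintype L] [DecidableEq L]

/-- The connection `d + X` preserves the subspace `U`. -/
def Pres (d : F →+ F) (X : Matrix I I F) (U : Submodule F (I → F)) : Prop :=
  ∀ v ∈ U, d ∘ v + X *ᵥ v ∈ U

theorem der_mulVec (hd : IsDer d) (T : Matrix J I F) (v : I → F) :
    d ∘ (T *ᵥ v) = T.map d *ᵥ v + T *ᵥ (d ∘ v) := by
  funext j
  simp only [Function.comp_apply, Matrix.mulVec, dotProduct, map_sum, hd.mul, Pi.add_apply,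
    Matrix.map_apply, ← Finset.sum_add_distrib]
  exact Finset.sum_congr rfl fun i _ => add_comm _ _

theorem der_mul (hd : IsDer d) (T : Matrix J I F) (P : Matrix I L F) :
    (T * P).map d = T.map d * P + T * P.map d := by
  ext j l
  simp only [Matrix.map_apply, Matrix.mul_apply, map_sum, hd.mul, Matrix.add_apply,
    ← Finset.sum_add_distrib]
  exact Finset.sum_congr rfl fun i _ => add_comm _ _

theorem nil_trace (Z : Matrix I I F) (V : ℕ → Submodule F (I → F)) (h0 : V 0 = ⊤)
    (h : ∀ j, ∀ v ∈ V j, Z *ᵥ v ∈ V (j + 1)) (n : ℕ) (hn : ∀ v ∈ V n, Z *ᵥ v = 0) :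
    Z.trace = 0 := by
  have key : ∀ j v, (Z ^ j) *ᵥ v ∈ V j := by
    intro j v
    induction j with
    | zero => rw [h0]; trivial
    | succ j ih => rw [pow_succ', ← Matrix.mulVec_mulVec]; exact h j _ ih
  have hz : Z ^ (n + 1) = 0 := by
    refine Matrix.ext_iff_mulVec.mpr fun v => ?_
    rw [pow_succ', ← Matrix.mulVec_mulVec, hn _ (key n v), Matrix.zero_mulVec]
  exact (Matrix.isNilpotent_trace_of_isNilpotent ⟨n + 1, hz⟩).eq_zero

theorem conn_up (hd : IsDer d) {P : Matrix I L F} (hP : Function.Injective P.mulVecLin)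
    (W : ℕ → Submodule F (I → F)) (h0 : W 0 = LinearMap.range P.mulVecLin) (hW : Monotone W)
    (n : ℕ) : ∃ X : Matrix I I F, P.map d + X * P = 0 ∧ ∀ i ≤ n, Pres d X (W i) := by
  induction n with
  | zero =>
    obtain ⟨g, hg⟩ := P.mulVecLin.exists_leftInverse_of_injective (LinearMap.ker_eq_bot.mpr hP)
    have h1 : LinearMap.toMatrix' g * P = 1 := by
      apply Matrix.toLin'.injective
      rw [Matrix.toLin'_mul, Matrix.toLin'_toMatrix', Matrix.toLin'_one]
      exact hg
    have h2 : P.map d + -(P.map d * LinearMap.toMatrix' g) * P = 0 := by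
      rw [Matrix.neg_mul, Matrix.mul_assoc, h1, Matrix.mul_one, add_neg_cancel]
    refine ⟨_, h2, fun i hi => ?_⟩
    rw [Nat.le_zero.mp hi, h0]
    rintro _ ⟨w, rfl⟩
    refine ⟨d ∘ w, ?_⟩
    rw [Matrix.mulVecLin_apply, Matrix.mulVecLin_apply, der_mulVec hd, Matrix.mulVec_mulVec,
      add_right_comm, ← Matrix.add_mulVec, h2, Matrix.zero_mulVec, zero_add]
  | succ n ih =>
    obtain ⟨X, h1, h2⟩ := ih
    let U := W (n + 1)
    let δ : U →ₗ[F] (I → F) ⧸ U :=
      { toFun := fun v => U.mkQ (d ∘ v.1 + X *ᵥ v.1)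
        map_add' := fun v w => by
          rw [← map_add]
          congr 1
          funext i
          simp [Matrix.mulVec_add]
          ring
        map_smul' := fun a v => by
          have e : d ∘ (a • v).1 + X *ᵥ (a • v).1 = a • (d ∘ v.1 + X *ᵥ v.1) + d a • v.1 := by
            funext i
            simp [Matrix.mulVec_smul, hd.mul]
            ring
          rw [e, map_add, map_smul, (Submodule.Quotient.mk_eq_zero U).mpr (U.smul_mem _ v.2) |>
            fun k => (show U.mkQ (d a • v.1) = 0 from k), add_zero]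
          rfl }
    obtain ⟨δ', hδ⟩ := δ.exists_extend
    obtain ⟨σ, hσ⟩ := U.mkQ.exists_rightInverse_of_surjective U.range_mkQ
    let Y : Matrix I I F := LinearMap.toMatrix' (σ ∘ₗ δ')
    have hY : ∀ v, Y *ᵥ v = σ (δ' v) := fun v => by
      rw [← Matrix.toLin'_apply, Matrix.toLin'_toMatrix']; rfl
    have hδ' : ∀ v (hv : v ∈ U), δ' v = U.mkQ (d ∘ v + X *ᵥ v) := fun v hv =>
      LinearMap.congr_fun hδ ⟨v, hv⟩
    have hY0 : ∀ i ≤ n, ∀ v ∈ W i, Y *ᵥ v = 0 := fun i hi v hv => by
      have hle : W i ≤ U := hW (by omega)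
      rw [hY, hδ' v (hle hv), Submodule.mkQ_apply,
        (Submodule.Quotient.mk_eq_zero U).mpr (hle (h2 i hi v hv)), map_zero]
    refine ⟨X - Y, ?_, fun i hi v hv => ?_⟩
    · have : Y * P = 0 := by
        refine Matrix.ext_iff_mulVec.mpr fun w => ?_
        rw [← Matrix.mulVec_mulVec, Matrix.zero_mulVec]
        exact hY0 0 (Nat.zero_le _) _ (h0 ▸ ⟨w, rfl⟩)
      rw [Matrix.sub_mul, this, sub_zero, h1]
    · rcases hi.lt_or_eq with hi | rfl
      · rw [Matrix.sub_mulVec, hY0 i (by omega) v hv, sub_zero]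
        exact h2 i (by omega) v hv
      · rw [Matrix.sub_mulVec, ← add_sub_assoc, ← Submodule.Quotient.mk_eq_zero,
          ← Submodule.mkQ_apply, map_sub, hY, ← hδ' v hv]
        exact sub_eq_zero.mpr (LinearMap.congr_fun hσ (δ' v)).symm

theorem exists_conn (hd : IsDer d) {P : Matrix I L F} (hP : Function.Injective P.mulVecLin)
    (V : ℕ → Submodule F (I → F)) (hV : Antitone V) (n : ℕ)
    (hn : ∀ j, n ≤ j → V j = LinearMap.range P.mulVecLin) :
    ∃ X : Matrix I I F, P.map d + X * P = 0 ∧ ∀ j, Pres d X (V j) := by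
  obtain ⟨X, h1, h2⟩ := conn_up hd hP (fun i => V (n - i)) (hn _ le_rfl)
    (fun i j hij => hV (by omega)) n
  refine ⟨X, h1, fun j => ?_⟩
  by_cases hj : j ≤ n
  · have := h2 (n - j) (by omega)
    rwa [show n - (n - j) = j by omega] at this
  · rw [hn j (by omega), ← hn n le_rfl]
    exact h2 0 (Nat.zero_le _)

/-- The filtrations attached to a pair of matrices. -/
def fil (S : Matrix I J F) (T : Matrix J I F) : ℕ → Submodule F (I → F) × Submodule F (J → F)
  | 0 => (⊤, ⊤)
  | n + 1 => ((fil S T n).2.map S.mulVecLin, (fil S T n).1.map T.mulVecLin)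

theorem fil_anti (S : Matrix I J F) (T : Matrix J I F) (n : ℕ) :
    (fil S T (n + 1)).1 ≤ (fil S T n).1 ∧ (fil S T (n + 1)).2 ≤ (fil S T n).2 := by
  induction n with
  | zero => exact ⟨le_top, le_top⟩
  | succ n ih => exact ⟨Submodule.map_mono ih.2, Submodule.map_mono ih.1⟩

theorem fil_even (S : Matrix I J F) (T : Matrix J I F) (n : ℕ) :
    (fil S T (2 * n)).1 = LinearMap.range ((S * T) ^ n).mulVecLin ∧
      (fil S T (2 * n)).2 = LinearMap.range ((T * S) ^ n).mulVecLin := by
  induction n with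
  | zero => simp [fil]
  | succ n ih =>
    rw [show 2 * (n + 1) = 2 * n + 1 + 1 by ring]
    simp only [fil, ih.1, ih.2, pow_succ', Matrix.mulVecLin_mul, LinearMap.range_comp,
      Submodule.map_comp, and_self]

/-- The invariant. -/
def Inv (d : F →+ F) (Λ : Matrix L L F) (M : Matrix I I F) : Prop :=
  M.trace = 0 ∧ ∃ (P : Matrix I L F) (n : ℕ) (X : Matrix I I F),
    Function.Injective P.mulVecLin ∧ M * P = P * Λ ∧
    (∀ j, n ≤ j → LinearMap.range (M ^ j).mulVecLin = LinearMap.range P.mulVecLin) ∧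
    P.map d + X * P = 0 ∧ (∀ j, Pres d X (LinearMap.range (M ^ j).mulVecLin)) ∧
    (X * M).trace = 0

theorem Inv.step [LinearOrder F] [IsStrictOrderedRing F] (hd : IsDer d) {Λ : Matrix L L F}
    (hΛ : Function.Injective Λ.mulVecLin) {S : Matrix I J F} {T : Matrix J I F}
    (hS : ∀ i j, 0 ≤ S i j) (hT : ∀ j i, 0 ≤ T j i) (h : Inv d Λ (S * T)) : Inv d Λ (T * S) := by
  obtain ⟨h0, P, n, X, h1, h2, h3, h4, h5, h6⟩ := h
  have a1 : Antitone fun j => (fil S T j).1 := antitone_nat_of_succ_le fun j => (fil_anti S T j).1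
  have a2 : Antitone fun j => (fil S T j).2 := antitone_nat_of_succ_le fun j => (fil_anti S T j).2
  have s1 : ∀ j, 2 * n ≤ j → (fil S T j).1 = LinearMap.range P.mulVecLin := fun j hj => by
    apply le_antisymm
    · rw [← h3 n le_rfl, ← (fil_even S T n).1]; exact a1 hj
    · rw [← h3 (n + j) (by omega), ← (fil_even S T _).1]; exact a1 (by omega)
  have s2 : ∀ j, 2 * n + 1 ≤ j → (fil S T j).2 = LinearMap.range (T * P).mulVecLin := by
    intro j hj
    obtain ⟨j, rfl⟩ : ∃ i, j = i + 1 := ⟨j - 1, by omega⟩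
    rw [fil, s1 j (by omega), Matrix.mulVecLin_mul, LinearMap.range_comp]
  have i2 : Function.Injective (T * P).mulVecLin := by
    have : Function.Injective (S.mulVecLin ∘ (T * P).mulVecLin) := by
      rw [← LinearMap.coe_comp, ← Matrix.mulVecLin_mul, ← Matrix.mul_assoc, h2,
        Matrix.mulVecLin_mul, LinearMap.coe_comp]
      exact h1.comp hΛ
    exact this.of_comp
  obtain ⟨X1, x1, x2⟩ := exists_conn hd h1 _ a1 _ s1
  obtain ⟨Y, y1, y2⟩ := exists_conn hd i2 _ a2 _ s2
  have t1 : ((X1 - X) * (S * T)).trace = 0 := by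
    refine nil_trace _ (fun j => LinearMap.range ((S * T) ^ j).mulVecLin) (by simp) ?_ n ?_
    · rintro j _ ⟨w, rfl⟩
      have m : (S * T) *ᵥ (((S * T) ^ j).mulVecLin w) ∈
          LinearMap.range ((S * T) ^ (j + 1)).mulVecLin :=
        ⟨w, by simp only [Matrix.mulVecLin_apply, Matrix.mulVec_mulVec, pow_succ']⟩
      have k1 := x2 (2 * (j + 1))
      rw [(fil_even S T _).1] at k1
      have := Submodule.sub_mem _ (k1 _ m) (h5 _ _ m)
      rwa [add_sub_add_left_eq_sub, ← Matrix.sub_mulVec, Matrix.mulVec_mulVec] at this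
    · intro v hv
      rw [h3 n le_rfl] at hv
      obtain ⟨w, rfl⟩ := hv
      have : (X1 - X) * P = 0 := by
        rw [Matrix.sub_mul, sub_eq_zero]
        exact add_left_cancel (x1.trans h4.symm)
      rw [Matrix.mulVecLin_apply, Matrix.mulVec_mulVec, Matrix.mul_assoc, h2, ← Matrix.mul_assoc,
        this, Matrix.zero_mul, Matrix.zero_mulVec]
  have t2 : (S * (T.map d + Y * T - T * X1)).trace = 0 := by
    refine nil_trace _ (fun j => (fil S T j).1) rfl (fun j v hv => ?_) (2 * n) ?_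
    · have m1 : T *ᵥ v ∈ (fil S T (j + 1)).2 := ⟨v, hv, rfl⟩
      have m2 : T *ᵥ (d ∘ v + X1 *ᵥ v) ∈ (fil S T (j + 1)).2 := ⟨_, x2 j v hv, rfl⟩
      have m3 := Submodule.sub_mem _ (y2 _ _ m1) m2
      refine (fil_anti S T (j + 1)).1 ⟨_, m3, ?_⟩
      rw [Matrix.mulVecLin_apply, ← Matrix.mulVec_mulVec, der_mulVec hd]
      congr 1
      simp only [Matrix.sub_mulVec, Matrix.add_mulVec, Matrix.mulVec_add, Matrix.mulVec_mulVec]
      abel
    · intro v hv
      rw [s1 _ le_rfl] at hv
      obtain ⟨w, rfl⟩ := hv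
      have : (T.map d + Y * T - T * X1) * P = 0 := by
        rw [der_mul hd] at y1
        rw [Matrix.sub_mul, Matrix.add_mul, Matrix.mul_assoc, Matrix.mul_assoc,
          ← neg_eq_of_add_eq_zero_right x1, Matrix.mul_neg, sub_neg_eq_add, ← y1]
        abel
      rw [Matrix.mulVecLin_apply, Matrix.mulVec_mulVec, Matrix.mul_assoc, this, Matrix.mul_zero,
        Matrix.zero_mulVec]
  have t3 : (S * T.map d).trace = 0 := by
    simp only [Matrix.trace, Matrix.diag_apply, Matrix.mul_apply] at h0 ⊢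
    refine Finset.sum_eq_zero fun i hi => Finset.sum_eq_zero fun j hj => ?_
    have k1 := (Finset.sum_eq_zero_iff_of_nonneg fun i _ =>
      Finset.sum_nonneg fun j _ => mul_nonneg (hS i j) (hT j i)).mp h0 i hi
    have k2 := (Finset.sum_eq_zero_iff_of_nonneg fun j _ =>
      mul_nonneg (hS i j) (hT j i)).mp k1 j hj
    rcases mul_eq_zero.mp k2 with e | e
    · rw [e, zero_mul]
    · rw [Matrix.map_apply, e, map_zero, mul_zero]
  refine ⟨by rw [Matrix.trace_mul_comm, h0], T * P, n + 1, Y, i2, ?_, fun j hj => ?_, y1,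
    fun j => ?_, ?_⟩
  · rw [Matrix.mul_assoc, ← Matrix.mul_assoc S, h2, Matrix.mul_assoc]
  · rw [← (fil_even S T j).2, s2 _ (by omega)]
  · rw [← (fil_even S T j).2]; exact y2 _
  · rw [Matrix.sub_mul, Matrix.trace_sub, h6, sub_zero] at t1
    rw [Matrix.mul_sub, Matrix.mul_add, Matrix.trace_sub, Matrix.trace_add, t3, zero_add,
      ← Matrix.mul_assoc S T, Matrix.trace_mul_comm (S * T), t1, sub_zero,
      Matrix.trace_mul_comm, Matrix.mul_assoc] at t2
    exact t2

end

end Pool.Agent.MP_841a27_al.G
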