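import Mathlib.Algebra.Order.Nonneg.Basic
import Mathlib.LinearAlgebra.Matrix.Notation
import Mathlib.RingTheory.Algebraic.Integral
import Mathlib.Tactic.Positivity
import Mathlib.Tactic.Linarith
import Mathlib.Tactic.FinCases
import Pool.Agent.MP_841a27_al.G.Inv

/-!
Over an ordered field with a transcendental element there are primitive matrices that are shift
equivalent but not strong shift equivalent over the nonnegative elements.
-/

set_option autoImplicit false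
set_option linter.unusedSectionVars false

namespace Pool.Agent.MP_841a27_al.G

open Matrix

section
variable {F : Type} [Field F] [LinearOrder F] [IsStrictOrderedRing F]

/-- The eigenvalues. -/
def exL (F : Type) [Field F] : Matrix (Fin 3) (Fin 3) F := !![3, 0, 0; 0, -1, 0; 0, 0, -2]

/-- The family of matrices. -/
def exB (s : F) : Matrix (Fin 3) (Fin 3) F :=
  !![0, 1, 1 + 2 * s; 2, 0, 2 + 2 * s; (1 - 4 * s) / (1 - 2 * s ^ 2), (2 - s) / (1 - 2 * s ^ 2), 0]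

/-- Eigenvectors. -/
def exQ (s : F) : Matrix (Fin 3) (Fin 3) F :=
  !![5 + 8 * s, 1, s; 8 + 10 * s, 2 * s, 1; 7, -1, -1]

/-- The inverse of the matrix of eigenvectors. -/
def exR (s : F) : Matrix (Fin 3) (Fin 3) F := (20 * (1 - 2 * s ^ 2))⁻¹ •
  !![1 - 2 * s, 1 - s, 1 - 2 * s ^ 2; 15 + 10 * s, -5 - 15 * s, -5 * (1 - 2 * s ^ 2);
    -8 - 24 * s, 12 + 8 * s, -8 * (1 - 2 * s ^ 2)]

theorem exL_inj : Function.Injective (exL F).mulVecLin := by
  rw [injective_iff_map_eq_zero]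
  intro v hv
  have h0 := congrFun hv 0
  have h1 := congrFun hv 1
  have h2 := congrFun hv 2
  simp [exL, Matrix.mulVec, dotProduct, Fin.sum_univ_three] at h0 h1 h2
  funext i
  fin_cases i <;> simp [h0, h1, h2]

theorem exQR {s : F} (h : 1 - 2 * s ^ 2 ≠ 0) : exQ s * exR s = 1 := by
  have h' : 1 - s ^ 2 * 2 ≠ 0 := by rwa [mul_comm]
  ext i j
  fin_cases i <;> fin_cases j <;>
    simp [exQ, exR, Matrix.mul_apply, Fin.sum_univ_three] <;> field_simp <;> ring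

theorem exRQ {s : F} (h : 1 - 2 * s ^ 2 ≠ 0) : exR s * exQ s = 1 := mul_eq_one_comm.mp (exQR h)

theorem exBQ {s : F} (h : 1 - 2 * s ^ 2 ≠ 0) : exB s * exQ s = exQ s * exL F := by
  have h' : 1 - s ^ 2 * 2 ≠ 0 := by rwa [mul_comm]
  ext i j
  fin_cases i <;> fin_cases j <;>
    simp [exQ, exB, exL, Matrix.mul_apply, Fin.sum_univ_three] <;> field_simp <;> ring

theorem range_top {M N : Matrix (Fin 3) (Fin 3) F} (h : M * N = 1) (j : ℕ) :
    LinearMap.range (M ^ j).mulVecLin = ⊤ := by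
  rw [eq_top_iff]
  intro v _
  refine ⟨(N ^ j) *ᵥ v, ?_⟩
  have c : Commute M N := by
    change M * N = N * M
    rw [h, mul_eq_one_comm.mp h]
  rw [Matrix.mulVecLin_apply, Matrix.mulVec_mulVec, ← c.mul_pow, h, one_pow, Matrix.one_mulVec]

theorem exB_top {s : F} (h : 1 - 2 * s ^ 2 ≠ 0) (j : ℕ) :
    LinearMap.range (exB s ^ j).mulVecLin = ⊤ := by
  have e : exL F * !![1 / 3, 0, 0; 0, -1, 0; 0, 0, -1 / 2] = 1 := by
    ext i j
    fin_cases i <;> fin_cases j <;> simp [exL, Matrix.mul_apply, Fin.sum_univ_three]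
    norm_num
  refine range_top (N := exQ s * !![1 / 3, 0, 0; 0, -1, 0; 0, 0, -1 / 2] * exR s) ?_ j
  rw [← Matrix.mul_assoc, ← Matrix.mul_assoc, exBQ h, Matrix.mul_assoc (exQ s), e, Matrix.mul_one,
    exQR h]

theorem IsDer.ofNat {d : F →+ F} (hd : IsDer d) (n : ℕ) [n.AtLeastTwo] : d ofNat(n) = 0 :=
  hd.natCast n

theorem inv_start {d : F →+ F} (hd : IsDer d) : Inv d (exL F) (exB 0) := by
  have h0 : (1 : F) - 2 * 0 ^ 2 ≠ 0 := by norm_num
  refine ⟨by simp [exB, Matrix.trace, Fin.sum_univ_three], exQ 0, 0, 0, ?_, exBQ h0, fun j _ => ?_,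
    ?_, fun j v _ => ?_, by simp⟩
  · have : Function.Injective ((exR (0 : F)).mulVecLin ∘ (exQ 0).mulVecLin) := by
      rw [← LinearMap.coe_comp, ← Matrix.mulVecLin_mul, exRQ h0, Matrix.mulVecLin_one]
      exact Function.injective_id
    exact this.of_comp
  · rw [exB_top h0, ← range_top (exQR h0) 1, pow_one]
  · ext i j
    fin_cases i <;> fin_cases j <;> simp [exQ, hd.one, hd.ofNat]
  · rw [exB_top h0]; trivial

theorem inv_end {d : F →+ F} (hd : IsDer d) {s : F} (hs : d s = 1) (h : 1 - 2 * s ^ 2 ≠ 0)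
    (hI : Inv d (exL F) (exB s)) : ∃ c : F, c ≠ 0 ∧ (1 - 2 * s ^ 2) * d c = 4 * c := by
  obtain ⟨-, P, n, X, h1, h2, -, h4, -, h6⟩ := hI
  have h' : 1 - s ^ 2 * 2 ≠ 0 := by rwa [mul_comm]
  obtain ⟨C, rfl⟩ : ∃ C, P = exQ s * C :=
    ⟨exR s * P, by rw [← Matrix.mul_assoc, exQR h, Matrix.one_mul]⟩
  have hC : exL F * C = C * exL F := by
    have := congrArg (exR s * ·) h2
    simp only [← Matrix.mul_assoc] at this
    rwa [Matrix.mul_assoc (exR s), exBQ h, ← Matrix.mul_assoc, exRQ h, Matrix.one_mul,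
      Matrix.one_mul] at this
  obtain ⟨a, b, c, rfl⟩ : ∃ a b c, C = !![a, 0, 0; 0, b, 0; 0, 0, c] := by
    refine ⟨C 0 0, C 1 1, C 2 2, ?_⟩
    ext i j
    have := congrFun (congrFun hC i) j
    fin_cases i <;> fin_cases j <;>
      simp [exL, Matrix.mul_apply, Fin.sum_univ_three] at this ⊢ <;> linarith
  have nz : ∀ i : Fin 3, (!![a, 0, 0; 0, b, 0; 0, 0, c] : Matrix (Fin 3) (Fin 3) F) *ᵥ
      Pi.single i 1 ≠ 0 := fun i e => by
    have := h1 (a₁ := Pi.single i 1) (a₂ := 0) (by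
      rw [Matrix.mulVecLin_apply, ← Matrix.mulVec_mulVec, e, Matrix.mulVec_zero, map_zero])
    simpa using congrFun this i
  have ha : a ≠ 0 := fun e => nz 0 (by funext i; fin_cases i <;> simp [e])
  have hb : b ≠ 0 := fun e => nz 1 (by funext i; fin_cases i <;> simp [e])
  have hc : c ≠ 0 := fun e => nz 2 (by funext i; fin_cases i <;> simp [e])
  have e1 : exB s = exQ s * !![a, 0, 0; 0, b, 0; 0, 0, c] *
      (!![3 / a, 0, 0; 0, -1 / b, 0; 0, 0, -2 / c] * exR s) := by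
    have e : (!![a, 0, 0; 0, b, 0; 0, 0, c] : Matrix (Fin 3) (Fin 3) F) *
        !![3 / a, 0, 0; 0, -1 / b, 0; 0, 0, -2 / c] = exL F := by
      ext i j
      fin_cases i <;> fin_cases j <;> simp [exL, Matrix.mul_apply, Fin.sum_univ_three] <;>
        field_simp
    rw [← Matrix.mul_assoc, Matrix.mul_assoc (exQ s), e, ← exBQ h, Matrix.mul_assoc, exQR h,
      Matrix.mul_one]
  rw [e1, ← Matrix.mul_assoc, ← neg_eq_of_add_eq_zero_right h4, der_mul hd] at h6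
  have e2 : (exQ s).map d = !![8, 0, 1; 10, 2, 0; 0, 0, 0] := by
    ext i j
    fin_cases i <;> fin_cases j <;> simp [exQ, hd.one, hd.ofNat, hd.mul, hs]
  have e3 : (!![a, 0, 0; 0, b, 0; 0, 0, c] : Matrix (Fin 3) (Fin 3) F).map d =
      !![d a, 0, 0; 0, d b, 0; 0, 0, d c] := by
    ext i j
    fin_cases i <;> fin_cases j <;> simp
  rw [e2, e3] at h6
  have k : 4 / (1 - 2 * s ^ 2) + 3 * d a / a - d b / b - 2 * d c / c = 0 := by
    rw [← neg_eq_zero, ← h6]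
    simp [exQ, exR, Matrix.trace, Fin.sum_univ_three]
    field_simp
    ring
  refine ⟨b * c * c / (a * a * a), by positivity, ?_⟩
  have l := hd.mul (b * c * c / (a * a * a)) (a * a * a)
  rw [div_mul_cancel₀ _ (by positivity), hd.mul, hd.mul, hd.mul, hd.mul] at l
  have l2 : d (b * c * c / (a * a * a)) =
      b * c * c / (a * a * a) * (d b / b + 2 * d c / c - 3 * d a / a) := by
    apply mul_right_cancel₀ (show a * a * a ≠ 0 by positivity)
    rw [eq_sub_of_add_eq' l.symm]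
    field_simp
    ring
  rw [l2, show d b / b + 2 * d c / c - 3 * d a / a = 4 / (1 - 2 * s ^ 2) by linear_combination -k]
  field_simp

/-- The conjugating matrix. -/
def exU (s : F) : Matrix (Fin 3) (Fin 3) F := !![1, s, 0; 2 * s, 1, 0; 0, 0, 1]

/-- The square of the first matrix times the inverse of the conjugating matrix. -/
def exS (s : F) : Matrix (Fin 3) (Fin 3) F :=
  !![(3 - 4 * s) / (1 - 2 * s ^ 2), (2 - 3 * s) / (1 - 2 * s ^ 2), 2;
    (2 - 12 * s) / (1 - 2 * s ^ 2), (6 - 2 * s) / (1 - 2 * s ^ 2), 2;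
    (4 - 2 * s) / (1 - 2 * s ^ 2), (1 - 4 * s) / (1 - 2 * s ^ 2), 5]

theorem ex_se {s : F} (h : 1 - 2 * s ^ 2 ≠ 0) :
    exB 0 ^ 2 = exS s * exU s ∧ exB s ^ 2 = exU s * exS s ∧ exB 0 * exS s = exS s * exB s ∧
      exU s * exB 0 = exB s * exU s := by
  have h' : 1 - s ^ 2 * 2 ≠ 0 := by rwa [mul_comm]
  rw [sq (exB 0), sq (exB s)]
  refine ⟨?_, ?_, ?_, ?_⟩ <;> ext i j <;> fin_cases i <;> fin_cases j <;>
    simp [exS, exB, exU, Matrix.mul_apply, Fin.sum_univ_three] <;> field_simp <;> ring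

theorem small_tr (h : ¬ Algebra.IsAlgebraic ℚ F) :
    ∃ s : F, Transcendental ℚ s ∧ 0 < s ∧ s ≤ 1 / 7 := by
  obtain ⟨x, hx⟩ := (Algebra.transcendental_iff_not_isAlgebraic.mpr h).transcendental
  refine ⟨(7 + x ^ 2)⁻¹, fun k => hx ?_, by positivity, ?_⟩
  · have k1 := (IsAlgebraic.inv_iff.mp k).sub (isAlgebraic_algebraMap (R := ℚ) (A := F) 7)
    rw [map_ofNat, add_sub_cancel_left] at k1
    exact k1.of_pow (by norm_num)
  · rw [one_div]
    exact inv_anti₀ (by norm_num) (by nlinarith [sq_nonneg x])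

theorem no (h : ¬ Algebra.IsAlgebraic ℚ F) :
    ∃ A B : Matrix (Fin (2 + 1)) (Fin (2 + 1)) {x : F // 0 ≤ x},
      (∃ k : ℕ, 1 ≤ k ∧ ∀ i j, 0 < (A ^ k) i j) ∧ (∃ k : ℕ, 1 ≤ k ∧ ∀ i j, 0 < (B ^ k) i j) ∧
      (∃ ℓ : ℕ, 1 ≤ ℓ ∧
        ∃ S : Matrix (Fin (2 + 1)) (Fin (2 + 1)) {x : F // 0 ≤ x},
        ∃ T : Matrix (Fin (2 + 1)) (Fin (2 + 1)) {x : F // 0 ≤ x},
          A ^ ℓ = S * T ∧ B ^ ℓ = T * S ∧ A * S = S * B ∧ T * A = B * T) ∧
      ¬ Relation.ReflTransGen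
        (fun X Y : (Σ k : ℕ, Matrix (Fin (k + 1)) (Fin (k + 1)) {x : F // 0 ≤ x}) =>
          ∃ S : Matrix (Fin (X.1 + 1)) (Fin (Y.1 + 1)) {x : F // 0 ≤ x},
          ∃ T : Matrix (Fin (Y.1 + 1)) (Fin (X.1 + 1)) {x : F // 0 ≤ x},
            X.2 = S * T ∧ Y.2 = T * S)
        ⟨2, A⟩ ⟨2, B⟩ := by
  obtain ⟨s, hs, s0, s1⟩ := small_tr h
  obtain ⟨d, hd, ds, hno⟩ := exists_der hs
  have w0 : 0 < 1 - 2 * s ^ 2 := by nlinarith
  let φ : {x : F // 0 ≤ x} →+* F := Nonneg.coeRingHom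
  have inj : ∀ {M N : Matrix (Fin 3) (Fin 3) {x : F // 0 ≤ x}}, M.map φ = N.map φ → M = N :=
    fun e => Matrix.map_injective Subtype.val_injective e
  have up : ∀ M : Matrix (Fin 3) (Fin 3) F, (∀ i j, 0 ≤ M i j) →
      ∃ N : Matrix (Fin 3) (Fin 3) {x : F // 0 ≤ x}, N.map φ = M :=
    fun M hM => ⟨Matrix.of fun i j => ⟨M i j, hM i j⟩, rfl⟩
  have pw : ∀ M : Matrix (Fin 3) (Fin 3) {x : F // 0 ≤ x}, (M ^ 2).map φ = (M.map φ) ^ 2 :=
    fun M => map_pow φ.mapMatrix M 2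
  have p1 : 0 < 1 - 4 * s := by linarith
  have p2 : 0 < 2 - s := by linarith
  have p3 : 0 < 3 - 4 * s := by linarith
  have p4 : 0 < 2 - 3 * s := by linarith
  have p5 : 0 < 2 - 12 * s := by linarith
  have p6 : 0 < 6 - 2 * s := by linarith
  have p7 : 0 < 4 - 2 * s := by linarith
  have hS : ∀ i j, 0 < exS s i j := fun i j => by
    fin_cases i <;> fin_cases j <;> simp only [exS] <;> simp <;> positivity
  have hU : ∀ i j, 0 ≤ exU s i j := fun i j => by
    fin_cases i <;> fin_cases j <;> simp [exU, s0.le]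
  obtain ⟨A, hA⟩ := up (exB 0) fun i j => by fin_cases i <;> fin_cases j <;> simp [exB]
  obtain ⟨B, hB⟩ := up (exB s) fun i j => by
    fin_cases i <;> fin_cases j <;> simp [exB] <;> positivity
  obtain ⟨S, hS'⟩ := up (exS s) fun i j => (hS i j).le
  obtain ⟨T, hT'⟩ := up (exU s) hU
  obtain ⟨q1, q2, q3, q4⟩ := ex_se w0.ne'
  refine ⟨A, B, ⟨2, by norm_num, fun i j => ?_⟩, ⟨2, by norm_num, fun i j => ?_⟩,
    ⟨2, by norm_num, S, T, inj ?_, inj ?_, inj ?_, inj ?_⟩, fun hc => ?_⟩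
  · change 0 < (A ^ 2).map φ i j
    rw [pw, hA]
    fin_cases i <;> fin_cases j <;> simp [sq, exB, Matrix.mul_apply, Fin.sum_univ_three] <;>
      norm_num
  · change 0 < (B ^ 2).map φ i j
    rw [pw, hB, q2, Matrix.mul_apply]
    refine Finset.sum_pos' (fun l _ => mul_nonneg (hU _ _) (hS _ _).le) ⟨i, Finset.mem_univ _, ?_⟩
    refine mul_pos ?_ (hS _ _)
    fin_cases i <;> simp [exU]
  · rw [pw, Matrix.map_mul, hA, hS', hT', q1]
  · rw [pw, Matrix.map_mul, hB, hS', hT', q2]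
  · rw [Matrix.map_mul, Matrix.map_mul, hA, hB, hS', q3]
  · rw [Matrix.map_mul, Matrix.map_mul, hA, hB, hT', q4]
  · have key : ∀ Y : (Σ k : ℕ, Matrix (Fin (k + 1)) (Fin (k + 1)) {x : F // 0 ≤ x}),
        Relation.ReflTransGen
          (fun X Y : (Σ k : ℕ, Matrix (Fin (k + 1)) (Fin (k + 1)) {x : F // 0 ≤ x}) =>
            ∃ S : Matrix (Fin (X.1 + 1)) (Fin (Y.1 + 1)) {x : F // 0 ≤ x},
            ∃ T : Matrix (Fin (Y.1 + 1)) (Fin (X.1 + 1)) {x : F // 0 ≤ x},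
              X.2 = S * T ∧ Y.2 = T * S) ⟨2, A⟩ Y → Inv d (exL F) (Y.2.map φ) := by
      intro Y hY
      induction hY with
      | refl => exact hA ▸ inv_start hd
      | tail _ hs ih =>
        obtain ⟨S, T, k1, k2⟩ := hs
        rw [k1, Matrix.map_mul] at ih
        rw [k2, Matrix.map_mul]
        exact ih.step hd exL_inj (fun i j => (S i j).2) fun i j => (T i j).2
    obtain ⟨c, hc0, hc1⟩ := inv_end hd ds w0.ne' (hB ▸ key _ hc)
    exact hno c hc0 hc1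

end

end Pool.Agent.MP_841a27_al.G
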