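import Pool.Agent.MP_841a27_al.G.QTStab

set_option linter.unusedSectionVars false

/-!
The word level theorem follows from the vanishing of the relative Whitehead group.
-/

namespace Pool.Agent.MP_841a27_al.G

variable [Gf]

open Polynomial Matrix QT

theorem qt_of_sk1 (h : SK1Stmt) : QTStmt := by
  intro V _ _ Al P hA L hL
  refine ⟨(L + 2 * P) * (2 * Fintype.card V) + 5 + 2 * L + 2 + 1, ?_⟩
  intro Re hR P₀ U W h0 hU0 hW0 hU hW hal hn hn'
  have hl : L ≤ L + 2 * P := by omega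
  rw [lev0_iff] at h0 hU0 hW0
  have hM : Good Al ((U : QM _ V) * P₀ * (W : QM _ V)) :=
    ⟨(hU0.mul h0).mul hW0, alS_mul hA (alS_mul hA hU.1 hal) hW.1, hn'⟩
  obtain ⟨U1, W1, h1⟩ := thmN1 (hA := hA) hR hL hl (by omega) h0 hal (hn _) hM.sp hM.al (hn' _)
    ⟨U, W, mem_GS_top hU, mem_GS_top hW, trivial, cong_refl _⟩
  have hUG : U ∈ GS hA _ ((L + 2 * P) * (2 * Fintype.card V)) :=
    GS_mono (Nat.zero_le _) ⟨hU, hU0⟩
  have hWG : W ∈ GS hA _ ((L + 2 * P) * (2 * Fintype.card V)) :=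
    GS_mono (Nat.zero_le _) ⟨hW, hW0⟩
  have h2 := thmN2 h hA hR hL hM le_rfl (U := U * U1⁻¹) (W := W1⁻¹ * W)
    (Subgroup.mul_mem _ hUG (Subgroup.inv_mem _ h1.hU))
    (Subgroup.mul_mem _ (Subgroup.inv_mem _ h1.hW) hWG) (by
      have := cong_mul_right (cong_mul_left ((U * U1⁻¹ : (QM _ V)ˣ) : QM _ V) (cong_symm h1.cg))
        ((W1⁻¹ * W : (QM _ V)ˣ) : QM _ V)
      refine cong_trans this (cong_of_eq ?_)
      simp only [Units.val_mul, Matrix.mul_assoc, Units.inv_mul_cancel_left,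
        Units.mul_inv_cancel_left])
  have h3 := hR.comp h1.re (hR.congr (cong_of_le hl (cong_symm h1.cg)) h2)
  simpa using h3

end Pool.Agent.MP_841a27_al.G
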