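import Mathlib.Tactic.NoncommRing
import Mathlib.Algebra.Polynomial.Expand
import Mathlib.LinearAlgebra.Matrix.NonsingularInverse
import Mathlib.Tactic.Monotonicity.Lemmas
import Mathlib.Algebra.Order.Ring.Star
import Mathlib.Analysis.Normed.Field.Lemmas
import Mathlib.Data.Rat.Star
import Mathlib.Tactic.Polynomial.Basic
import Pool.Agent.MP_841a27_al.G.QDefs

set_option linter.unusedSectionVars false

-- ======== part 0: formerly Pool.Agent.MP_841a27_al.QTBasic
section MrgPart0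

/-!
Basic lemmas: allowed polynomials, low nonnegativity, congruences, supports, units.
-/

namespace Pool.Agent.MP_841a27_al.G.QT

variable [Gf]

open Polynomial Matrix

section Poly
variable {V : Type} {Al : V → V → ℕ → Prop} {P : ℕ}

/-- All monomials of `q` are allowed from `x` to `y`. -/
def AlP (Al : V → V → ℕ → Prop) (x y : V) (q : 𝕜[X]) : Prop :=
  ∀ m, q.coeff m ≠ 0 → Al x y m

lemma AlP.zero (x y : V) : AlP Al x y 0 := by
  intro m hm; simp at hm

lemma AlP.add {x y : V} {p q : 𝕜[X]} (hp : AlP Al x y p) (hq : AlP Al x y q) :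
    AlP Al x y (p + q) := by
  intro m hm
  by_cases h : p.coeff m = 0
  · apply hq m; intro h'; apply hm; simp [h, h']
  · exact hp m h

lemma AlP.neg {x y : V} {p : 𝕜[X]} (hp : AlP Al x y p) : AlP Al x y (-p) := by
  intro m hm; apply hp m; simpa using hm

lemma AlP.sub {x y : V} {p q : 𝕜[X]} (hp : AlP Al x y p) (hq : AlP Al x y q) :
    AlP Al x y (p - q) := by
  rw [sub_eq_add_neg]; exact hp.add hq.neg

lemma AlP.sum {x y : V} {ι : Type} (s : Finset ι) (f : ι → 𝕜[X])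
    (h : ∀ i ∈ s, AlP Al x y (f i)) : AlP Al x y (∑ i ∈ s, f i) :=
  Finset.sum_induction f _ (fun _ _ => AlP.add) (AlP.zero x y) h

lemma AlP.mul (hA : AlAx Al P) {x y w : V} {p q : 𝕜[X]} (hp : AlP Al x y p)
    (hq : AlP Al y w q) : AlP Al x w (p * q) := by
  intro m hm
  rw [coeff_mul] at hm
  obtain ⟨c, hc, h⟩ := Finset.exists_ne_zero_of_sum_ne_zero hm
  rw [Finset.HasAntidiagonal.mem_antidiagonal] at hc
  rw [← hc]
  exact hA.trans (hp _ (left_ne_zero_of_mul h)) (hq _ (right_ne_zero_of_mul h))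

lemma AlP.mono {x y : V} {d : ℕ} (h : Al x y d) (c : 𝕜) : AlP Al x y (C c * X ^ d) := by
  intro m hm
  rw [coeff_C_mul_X_pow] at hm
  by_cases h' : m = d
  · rw [h']; exact h
  · simp [h'] at hm

lemma AlP.mono' {x y : V} {d : ℕ} {c : 𝕜} (h : c ≠ 0 → Al x y d) :
    AlP Al x y (C c * X ^ d) := by
  by_cases hc : c = 0
  · simp [hc, AlP.zero]
  · exact AlP.mono (h hc) c

lemma AlP.xpow {x y : V} {d : ℕ} (h : Al x y d) : AlP Al x y (X ^ d) := by
  simpa using AlP.mono h 1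

lemma AlP.const {x y : V} {c : 𝕜} (h : c ≠ 0 → Al x y 0) : AlP Al x y (C c) := by
  simpa using AlP.mono' (d := 0) h

lemma AlP.one (hA : AlAx Al P) (x : V) : AlP Al x x 1 := by
  simpa using AlP.xpow (hA.refl x)

lemma AlP.pow (hA : AlAx Al P) {x : V} {q : 𝕜[X]} (h : AlP Al x x q) (n : ℕ) :
    AlP Al x x (q ^ n) := by
  induction n with
  | zero => simpa using AlP.one hA x
  | succ n ih => rw [pow_succ]; exact ih.mul hA h

lemma AlP.exists {x y : V} {q : 𝕜[X]} (h : AlP Al x y q) (hq : q ≠ 0) : ∃ m, Al x y m := by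
  obtain ⟨m, hm⟩ : ∃ m, q.coeff m ≠ 0 := by
    by_contra h'
    push Not at h'
    exact hq (Polynomial.ext (by simpa using h'))
  exact ⟨m, h m hm⟩

/-- Nonnegative coefficients in degrees below `L`. -/
def Pos (L : ℕ) (q : 𝕜[X]) : Prop := ∀ m, m < L → 0 ≤ q.coeff m

/-- No constant term and nonnegative coefficients in degrees below `L`. -/
def NN (L : ℕ) (q : 𝕜[X]) : Prop := q.coeff 0 = 0 ∧ Pos L q

variable {L : ℕ} {p q : 𝕜[X]}

lemma Pos.zero : Pos L 0 := by intro m _; simp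

lemma Pos.add (hp : Pos L p) (hq : Pos L q) : Pos L (p + q) := by
  intro m hm; rw [coeff_add]; exact add_nonneg (hp m hm) (hq m hm)

lemma Pos.sum {ι : Type} (s : Finset ι) (f : ι → 𝕜[X])
    (h : ∀ i ∈ s, Pos L (f i)) : Pos L (∑ i ∈ s, f i) :=
  Finset.sum_induction f _ (fun _ _ => Pos.add) Pos.zero h

lemma Pos.mul (hp : Pos L p) (hq : Pos L q) : Pos L (p * q) := by
  intro m hm
  rw [coeff_mul]
  refine Finset.sum_nonneg fun c hc => ?_
  rw [Finset.HasAntidiagonal.mem_antidiagonal] at hc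
  exact mul_nonneg (hp _ (by omega)) (hq _ (by omega))

lemma Pos.mono {c : 𝕜} (hc : 0 ≤ c) (d : ℕ) : Pos L (C c * X ^ d) := by
  intro m _
  rw [coeff_C_mul_X_pow]
  split_ifs
  · exact hc
  · exact le_rfl

lemma Pos.xpow (d : ℕ) : Pos L (X ^ d) := by simpa using Pos.mono (L := L) zero_le_one d

lemma Pos.const {c : 𝕜} (hc : 0 ≤ c) : Pos L (C c) := by simpa using Pos.mono (L := L) hc 0

lemma Pos.one : Pos L 1 := by simpa using Pos.xpow (L := L) 0

lemma Pos.pow (hq : Pos L q) (n : ℕ) : Pos L (q ^ n) := by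
  induction n with
  | zero => simpa using Pos.one
  | succ n ih => rw [pow_succ]; exact ih.mul hq

lemma Pos.of_le {L' : ℕ} (h : L ≤ L') (hq : Pos L' q) : Pos L q :=
  fun m hm => hq m (by omega)

lemma coeff_eq_of_dvd {l m : ℕ} (h : (X : 𝕜[X]) ^ l ∣ p - q) (hm : m < l) :
    p.coeff m = q.coeff m := by
  have := (X_pow_dvd_iff.mp h) m hm
  rw [coeff_sub] at this
  exact sub_eq_zero.mp this

lemma Pos.congr {l : ℕ} (hl : L ≤ l) (h : (X : 𝕜[X]) ^ l ∣ p - q) (hp : Pos L p) : Pos L q := by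
  intro m hm
  rw [← coeff_eq_of_dvd h (by omega)]
  exact hp m hm

lemma Pos.of_dvd (h : (X : 𝕜[X]) ^ L ∣ q) : Pos L q := by
  intro m hm
  rw [(X_pow_dvd_iff.mp h) m hm]

lemma NN.zero : NN L 0 := ⟨by simp, Pos.zero⟩

lemma NN.add (hp : NN L p) (hq : NN L q) : NN L (p + q) :=
  ⟨by rw [coeff_add, hp.1, hq.1, add_zero], hp.2.add hq.2⟩

lemma NN.sum {ι : Type} (s : Finset ι) (f : ι → 𝕜[X])
    (h : ∀ i ∈ s, NN L (f i)) : NN L (∑ i ∈ s, f i) :=
  Finset.sum_induction f _ (fun _ _ => NN.add) NN.zero h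

lemma NN.mul_right (hp : NN L p) (hq : Pos L q) : NN L (p * q) :=
  ⟨by rw [mul_coeff_zero, hp.1, zero_mul], hp.2.mul hq⟩

lemma NN.mul_left (hp : Pos L p) (hq : NN L q) : NN L (p * q) := by
  rw [mul_comm]; exact hq.mul_right hp

lemma NN.mono {c : 𝕜} (hc : 0 ≤ c) {d : ℕ} (hd : 1 ≤ d) : NN L (C c * X ^ d) :=
  ⟨by rw [coeff_C_mul_X_pow, if_neg (by omega)], Pos.mono hc d⟩

lemma NN.xpow {d : ℕ} (hd : 1 ≤ d) : NN L (X ^ d) := by
  simpa using NN.mono (L := L) zero_le_one hd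

lemma NN.of_le {L' : ℕ} (h : L ≤ L') (hq : NN L' q) : NN L q := ⟨hq.1, hq.2.of_le h⟩

lemma NN.congr {l : ℕ} (hl : L ≤ l) (h1 : 1 ≤ l) (h : (X : 𝕜[X]) ^ l ∣ p - q) (hp : NN L p) :
    NN L q :=
  ⟨by rw [← coeff_eq_of_dvd h (by omega)]; exact hp.1, hp.2.congr hl h⟩

lemma NN.of_dvd (hL : 1 ≤ L) (h : (X : 𝕜[X]) ^ L ∣ q) : NN L q :=
  ⟨(X_pow_dvd_iff.mp h) 0 (by omega), Pos.of_dvd h⟩

lemma coeff_zero_of_dvd {k : ℕ} (hk : 1 ≤ k) (h : (X : 𝕜[X]) ^ k ∣ q) : q.coeff 0 = 0 :=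
  (X_pow_dvd_iff.mp h) 0 (by omega)

lemma dvd_one_of_coeff (h : q.coeff 0 = 0) : (X : 𝕜[X]) ^ 1 ∣ q := by
  rw [pow_one]; exact X_dvd_iff.mpr h

end Poly

section Mat
variable {ι : Type} [Fintype ι] [DecidableEq ι]

/-- All entries are divisible by `X ^ L`. -/
def Dv (L : ℕ) (M : Matrix ι ι 𝕜[X]) : Prop := ∀ i j, (X : 𝕜[X]) ^ L ∣ M i j

variable {L : ℕ} {M M' A : Matrix ι ι 𝕜[X]}

omit [Fintype ι] [DecidableEq ι] in
lemma Dv.zero : Dv L (0 : Matrix ι ι 𝕜[X]) := fun _ _ => dvd_zero _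

omit [Fintype ι] [DecidableEq ι] in
lemma Dv.add (h : Dv L M) (h' : Dv L M') : Dv L (M + M') := fun i j => dvd_add (h i j) (h' i j)

omit [Fintype ι] [DecidableEq ι] in
lemma Dv.neg (h : Dv L M) : Dv L (-M) := fun i j => (dvd_neg).mpr (h i j)

omit [Fintype ι] [DecidableEq ι] in
lemma Dv.sub (h : Dv L M) (h' : Dv L M') : Dv L (M - M') := fun i j => dvd_sub (h i j) (h' i j)

omit [Fintype ι] [DecidableEq ι] in
lemma Dv.of_le {L' : ℕ} (hl : L ≤ L') (h : Dv L' M) : Dv L M :=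
  fun i j => (pow_dvd_pow _ hl).trans (h i j)

omit [DecidableEq ι] in
lemma Dv.mul_left (A : Matrix ι ι 𝕜[X]) (h : Dv L M) : Dv L (A * M) := by
  intro i j
  rw [Matrix.mul_apply]
  exact Finset.dvd_sum fun k _ => (h k j).mul_left _

omit [DecidableEq ι] in
lemma Dv.mul_right (h : Dv L M) (A : Matrix ι ι 𝕜[X]) : Dv L (M * A) := by
  intro i j
  rw [Matrix.mul_apply]
  exact Finset.dvd_sum fun k _ => (h i k).mul_right _

omit [DecidableEq ι] in
lemma Dv.mul {L' : ℕ} (h : Dv L M) (h' : Dv L' M') : Dv (L + L') (M * M') := by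
  intro i j
  rw [Matrix.mul_apply, pow_add]
  exact Finset.dvd_sum fun k _ => mul_dvd_mul (h i k) (h' k j)

lemma Dv.pow (h : Dv 1 M) (n : ℕ) : Dv n (M ^ n) := by
  induction n with
  | zero => intro i j; simp
  | succ n ih => rw [pow_succ]; exact ih.mul h

lemma Dv.mul_sub_one (h : Dv L (M - 1)) (h' : Dv L (M' - 1)) : Dv L (M * M' - 1) := by
  have : M * M' - 1 = M * (M' - 1) + (M - 1) := by noncomm_ring
  rw [this]; exact (h'.mul_left M).add h

lemma Dv.inv_sub_one {u : (Matrix ι ι 𝕜[X])ˣ} (h : Dv L ((u : Matrix ι ι 𝕜[X]) - 1)) :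
    Dv L (((u⁻¹ : (Matrix ι ι 𝕜[X])ˣ) : Matrix ι ι 𝕜[X]) - 1) := by
  have : ((u⁻¹ : (Matrix ι ι 𝕜[X])ˣ) : Matrix ι ι 𝕜[X]) - 1 =
      -(((u⁻¹ : (Matrix ι ι 𝕜[X])ˣ) : Matrix ι ι 𝕜[X]) * ((u : Matrix ι ι 𝕜[X]) - 1)) := by
    rw [mul_sub, Units.inv_mul]; noncomm_ring
  rw [this]; exact (h.mul_left _).neg

/-- The matrix is the identity outside `p × p`. -/
def Sp (p : ι → Prop) (M : Matrix ι ι 𝕜[X]) : Prop :=
  ∀ i j, (¬ p i ∨ ¬ p j) → M i j = (1 : Matrix ι ι 𝕜[X]) i j

variable {p : ι → Prop}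

omit [Fintype ι] in
lemma Sp.one : Sp p (1 : Matrix ι ι 𝕜[X]) := fun _ _ _ => rfl

omit [Fintype ι] in
lemma Sp.of_imp {q : ι → Prop} (hpq : ∀ i, p i → q i) (h : Sp p M) : Sp q M := by
  intro i j hij
  apply h
  rcases hij with h1 | h1
  · exact Or.inl fun h2 => h1 (hpq _ h2)
  · exact Or.inr fun h2 => h1 (hpq _ h2)

lemma Sp.mul_row (h : Sp p M) (A : Matrix ι ι 𝕜[X]) {i : ι} (hi : ¬ p i) (j : ι) :
    (M * A) i j = A i j := by
  rw [Matrix.mul_apply, Finset.sum_congr rfl fun k _ => by rw [h i k (Or.inl hi)],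
    ← Matrix.mul_apply, Matrix.one_mul]

lemma Sp.mul_col (h : Sp p M) (A : Matrix ι ι 𝕜[X]) (i : ι) {j : ι} (hj : ¬ p j) :
    (A * M) i j = A i j := by
  rw [Matrix.mul_apply, Finset.sum_congr rfl fun k _ => by rw [h k j (Or.inr hj)],
    ← Matrix.mul_apply, Matrix.mul_one]

lemma Sp.mul (h : Sp p M) (h' : Sp p M') : Sp p (M * M') := by
  intro i j hij
  rcases hij with h1 | h1
  · rw [h.mul_row _ h1, h' i j (Or.inl h1)]
  · rw [h'.mul_col _ _ h1, h i j (Or.inr h1)]

lemma Sp.inv {u : (Matrix ι ι 𝕜[X])ˣ} (h : Sp p (u : Matrix ι ι 𝕜[X])) :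
    Sp p ((u⁻¹ : (Matrix ι ι 𝕜[X])ˣ) : Matrix ι ι 𝕜[X]) := by
  intro i j hij
  rcases hij with h1 | h1
  · rw [← h.mul_row ((u⁻¹ : (Matrix ι ι 𝕜[X])ˣ) : Matrix ι ι 𝕜[X]) h1 j, Units.mul_inv]
  · rw [← h.mul_col ((u⁻¹ : (Matrix ι ι 𝕜[X])ˣ) : Matrix ι ι 𝕜[X]) i h1, Units.inv_mul]

omit [Fintype ι] in
lemma Sp.one_add (h : ∀ i j, M i j ≠ 0 → p i ∧ p j) : Sp p (1 + M) := by
  intro i j hij
  have : M i j = 0 := by
    by_contra h'
    have := h i j h'
    tauto
  rw [Matrix.add_apply, this, add_zero]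

omit [Fintype ι] in
lemma Sp.sub_one (h : Sp p M) {i j : ι} (hij : (M - 1) i j ≠ 0) : p i ∧ p j := by
  by_contra h'
  apply hij
  rw [Matrix.sub_apply, h i j (by tauto), sub_self]

/-- The unit `1 + M` for a square zero matrix `M`. -/
noncomputable def sz (M : Matrix ι ι 𝕜[X]) (h : M * M = 0) : (Matrix ι ι 𝕜[X])ˣ where
  val := 1 + M
  inv := 1 - M
  val_inv := by rw [add_mul, mul_sub, mul_sub, h]; simp
  inv_val := by rw [sub_mul, mul_add, mul_add, h]; simp

@[simp] lemma sz_val (M : Matrix ι ι 𝕜[X]) (h : M * M = 0) :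
    (sz M h : Matrix ι ι 𝕜[X]) = 1 + M := rfl

@[simp] lemma sz_inv (M : Matrix ι ι 𝕜[X]) (h : M * M = 0) :
    (((sz M h)⁻¹ : (Matrix ι ι 𝕜[X])ˣ) : Matrix ι ι 𝕜[X]) = 1 - M := rfl

lemma inv_val_of {u : (Matrix ι ι 𝕜[X])ˣ} (hu : (u : Matrix ι ι 𝕜[X]) = 1 + M) (h : M * M = 0) :
    ((u⁻¹ : (Matrix ι ι 𝕜[X])ˣ) : Matrix ι ι 𝕜[X]) = 1 - M := by
  have : u = sz M h := Units.ext hu
  rw [this, sz_inv]

lemma single_sq {i j : ι} (h : i ≠ j) (a : 𝕜[X]) :
    (single i j a : Matrix ι ι 𝕜[X]) * single i j a = 0 :=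
  single_mul_single_of_ne _ _ _ _ h.symm _

omit [DecidableEq ι] in
lemma vv_sq {x y : ι → 𝕜[X]} (h : y ⬝ᵥ x = 0) : vecMulVec x y * vecMulVec x y = 0 := by
  rw [vecMulVec_mul_vecMulVec, h]; simp

/-- Unipotent lemma. -/
lemma uni (H : Subgroup (Matrix ι ι 𝕜[X])ˣ) (r : ι → ℕ) (M : Matrix ι ι 𝕜[X])
    (hr : ∀ i j, M i j ≠ 0 → r j < r i)
    (hH : ∀ i j, M i j ≠ 0 → ∀ t : (Matrix ι ι 𝕜[X])ˣ,
      (t : Matrix ι ι 𝕜[X]) = 1 + single i j (M i j) → t ∈ H)
    (u : (Matrix ι ι 𝕜[X])ˣ) (hu : (u : Matrix ι ι 𝕜[X]) = 1 + M) : u ∈ H := by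
  classical
  generalize hn : (Finset.univ.filter fun c : ι × ι => M c.1 c.2 ≠ 0).card = n
  induction n generalizing M u with
  | zero =>
    have h0 : M = 0 := by
      ext1 i j
      by_contra h
      have : (i, j) ∈ (Finset.univ.filter fun c : ι × ι => M c.1 c.2 ≠ 0) := by
        simpa using h
      rw [Finset.card_eq_zero.mp hn] at this
      simp at this
    have : u = 1 := Units.ext (by rw [hu, h0]; simp)
    rw [this]; exact H.one_mem
  | succ n ih =>
    obtain ⟨c, hc, hmin⟩ := Finset.exists_min_image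
      (Finset.univ.filter fun c : ι × ι => M c.1 c.2 ≠ 0) (fun c => r c.1)
      (Finset.card_pos.mp (by omega))
    obtain ⟨i, j⟩ := c
    have hij : M i j ≠ 0 := by simpa using hc
    have hlt := hr i j hij
    have hne : i ≠ j := by rintro rfl; omega
    have hrow : ∀ k, M j k = 0 := by
      intro k
      by_contra h
      have := hmin (j, k) (by simpa using h)
      simp at this; omega
    set M' : Matrix ι ι 𝕜[X] := M - single i j (M i j) with hM'
    have hM'e : ∀ a b, M' a b = if a = i ∧ b = j then 0 else M a b := by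
      intro a b
      rw [hM', Matrix.sub_apply]
      by_cases hab : a = i ∧ b = j
      · obtain ⟨rfl, rfl⟩ := hab; simp
      · rw [if_neg hab, single_apply_of_ne _ _ _ _ _ (by tauto), sub_zero]
    have hne' : ∀ a b, M' a b ≠ 0 → M' a b = M a b ∧ M a b ≠ 0 := by
      intro a b hab
      rw [hM'e] at hab ⊢
      split_ifs at hab ⊢ with h
      · exact absurd rfl hab
      · exact ⟨rfl, hab⟩
    set t := sz (single i j (M i j)) (single_sq hne _) with ht
    have htH : t ∈ H := hH i j hij t rfl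
    have hz : (single i j (M i j) : Matrix ι ι 𝕜[X]) * M = 0 := by
      ext1 a b
      by_cases ha : a = i
      · subst ha; simp [hrow]
      · simp [ha]
    have hu' : ((t⁻¹ * u : (Matrix ι ι 𝕜[X])ˣ) : Matrix ι ι 𝕜[X]) = 1 + M' := by
      rw [Units.val_mul, ht, sz_inv, hu, hM', sub_mul, mul_add, mul_add, hz]
      simp only [Matrix.one_mul, Matrix.mul_one]; abel
    have := ih M' (fun a b hab => hr a b (hne' a b hab).2)
      (fun a b hab t' ht' => hH a b (hne' a b hab).2 t' (by rw [ht', (hne' a b hab).1]))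
      (t⁻¹ * u) hu' (by
        have : (Finset.univ.filter fun c : ι × ι => M' c.1 c.2 ≠ 0) =
            (Finset.univ.filter fun c : ι × ι => M c.1 c.2 ≠ 0).erase (i, j) := by
          ext ⟨a, b⟩
          simp only [Finset.mem_filter, Finset.mem_univ, true_and, Finset.mem_erase, hM'e,
            Prod.mk.injEq, ne_eq]
          split_ifs with h <;> simp [h]
        rw [this, Finset.card_erase_of_mem hc]; omega)
    have h2 : u = t * (t⁻¹ * u) := by simp
    rw [h2]; exact H.mul_mem htH this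

/-- Commutator formula for a transvection. -/
lemma comm_formula {x y : ι → 𝕜[X]} {e : ι} (hx : x e = 0) (hy : y e = 0) (h : y ⬝ᵥ x = 0) :
    (1 + vecMulVec x (Pi.single e 1)) * (1 + vecMulVec (Pi.single e 1) y) *
      (1 - vecMulVec x (Pi.single e 1)) * (1 - vecMulVec (Pi.single e 1) y) =
      1 + vecMulVec x y := by
  have h1 : vecMulVec x (Pi.single e 1) * vecMulVec (Pi.single e 1) y = vecMulVec x y := by
    rw [vecMulVec_mul_vecMulVec]; simp
  have h2 : vecMulVec x (Pi.single e 1) * vecMulVec x (Pi.single e (1 : 𝕜[X])) = 0 := by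
    rw [vecMulVec_mul_vecMulVec]; simp [hx]
  have h3 : vecMulVec (Pi.single e 1) y * vecMulVec x (Pi.single e (1 : 𝕜[X])) = 0 := by
    rw [vecMulVec_mul_vecMulVec]; simp [h]
  have h4 : vecMulVec (Pi.single e 1) y * vecMulVec (Pi.single e (1 : 𝕜[X])) y = 0 := by
    rw [vecMulVec_mul_vecMulVec]; simp [hy]
  have h5 : vecMulVec x y * vecMulVec x (Pi.single e (1 : 𝕜[X])) = 0 := by
    rw [vecMulVec_mul_vecMulVec]; simp [h]
  have h6 : vecMulVec x y * vecMulVec (Pi.single e (1 : 𝕜[X])) y = 0 := by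
    rw [vecMulVec_mul_vecMulVec]; simp [hy]
  generalize vecMulVec x (Pi.single e (1 : 𝕜[X])) = a at *
  generalize vecMulVec (Pi.single e (1 : 𝕜[X])) y = b at *
  generalize vecMulVec x y = c at *
  have e1 : (1 + a) * (1 + b) = 1 + a + b + c := by rw [← h1]; noncomm_ring
  have e2 : (1 + a + b + c) * (1 - a) = 1 + b + c := by
    have : (1 + a + b + c) * (1 - a) = 1 + b + c - a * a - b * a - c * a := by noncomm_ring
    rw [this, h2, h3, h5]; simp
  have e3 : (1 + b + c) * (1 - b) = 1 + c := by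
    have : (1 + b + c) * (1 - b) = 1 + c - b * b - c * b := by noncomm_ring
    rw [this, h4, h6]; simp
  rw [e1, e2, e3]

end Mat

section QMs
variable {N : ℕ} {V : Type} {Al : V → V → ℕ → Prop} {P : ℕ} {M M' : QM N V}

lemma alS_iff : AlS Al M ↔ ∀ i j, AlP Al i.2 j.2 (M i j) := Iff.rfl

lemma lowNN_iff {L : ℕ} : LowNN L M ↔ ∀ i j, NN L (M i j) := Iff.rfl

lemma cong_iff {L : ℕ} : Cong L M M' ↔ Dv L (M - M') := Iff.rfl

lemma alS_add (h : AlS Al M) (h' : AlS Al M') : AlS Al (M + M') :=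
  fun i j => AlP.add (h i j) (h' i j)

lemma alS_neg (h : AlS Al M) : AlS Al (-M) := fun i j => AlP.neg (h i j)

lemma alS_sub (h : AlS Al M) (h' : AlS Al M') : AlS Al (M - M') :=
  fun i j => AlP.sub (h i j) (h' i j)

lemma cong_refl {L : ℕ} (M : QM N V) : Cong L M M := fun i j => by simp

lemma cong_symm {L : ℕ} (h : Cong L M M') : Cong L M' M := fun i j => dvd_sub_comm.mp (h i j)

lemma cong_trans {L : ℕ} {M'' : QM N V} (h : Cong L M M') (h' : Cong L M' M'') :
    Cong L M M'' := fun i j => by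
  have := dvd_add (h i j) (h' i j)
  rwa [sub_add_sub_cancel] at this

lemma cong_of_le {L L' : ℕ} (hl : L ≤ L') (h : Cong L' M M') : Cong L M M' :=
  fun i j => (pow_dvd_pow _ hl).trans (h i j)

lemma cong_of_eq {L : ℕ} (h : M = M') : Cong L M M' := h ▸ cong_refl M

lemma lowNN_of_le {L L' : ℕ} (hl : L ≤ L') (h : LowNN L' M) : LowNN L M :=
  fun i j => NN.of_le hl (h i j)

lemma lowNN_congr {L l : ℕ} (hl : L ≤ l) (h1 : 1 ≤ l) (h : Cong l M M') (hM : LowNN L M) :
    LowNN L M' := fun i j => NN.congr hl h1 (h i j) (hM i j)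

lemma lowNN_add {L : ℕ} (h : LowNN L M) (h' : LowNN L M') : LowNN L (M + M') :=
  fun i j => NN.add (h i j) (h' i j)

lemma levUp_of_dv (h : Dv 1 M) : LevUp M := by
  intro i j hij
  exact absurd (coeff_zero_of_dvd le_rfl (h i j)) hij

lemma levUp_neg (h : LevUp M) : LevUp (-M) := by
  intro i j hij; apply h; simpa using hij

lemma levUp_add (h : LevUp M) (h' : LevUp M') : LevUp (M + M') := by
  intro i j hij
  by_cases h1 : (M i j).coeff 0 = 0
  · apply h'; intro h2; apply hij; simp [h1, h2]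
  · exact h i j h1

variable [Fintype V] [DecidableEq V]

omit [Fintype V] in
lemma cong_one_sub {L : ℕ} (h : Cong L M M') : Cong L (1 - M) (1 - M') := by
  rw [cong_iff] at h ⊢
  have : 1 - M - (1 - M') = -(M - M') := by abel
  rw [this]; exact h.neg

omit [DecidableEq V] in
lemma cong_mul_left {L : ℕ} (A : QM N V) (h : Cong L M M') : Cong L (A * M) (A * M') := by
  rw [cong_iff] at h ⊢
  rw [← Matrix.mul_sub]; exact h.mul_left A

omit [DecidableEq V] in
lemma cong_mul_right {L : ℕ} (h : Cong L M M') (A : QM N V) : Cong L (M * A) (M' * A) := by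
  rw [cong_iff] at h ⊢
  rw [← Matrix.sub_mul]; exact h.mul_right A

omit [Fintype V] in
lemma alS_one (hA : AlAx Al P) : AlS Al (1 : QM N V) := by
  intro i j
  by_cases h : i = j
  · subst h; rw [Matrix.one_apply_eq]; exact AlP.one hA _
  · rw [Matrix.one_apply_ne h]; exact AlP.zero _ _

omit [DecidableEq V] in
lemma alS_mul (hA : AlAx Al P) (h : AlS Al M) (h' : AlS Al M') : AlS Al (M * M') := by
  intro i j
  rw [Matrix.mul_apply]
  exact AlP.sum _ _ fun k _ => AlP.mul hA (h i k) (h' k j)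

lemma alS_pow (hA : AlAx Al P) (h : AlS Al M) (n : ℕ) : AlS Al (M ^ n) := by
  induction n with
  | zero => simpa using alS_one hA
  | succ n ih => rw [pow_succ]; exact alS_mul hA ih h

omit [Fintype V] [DecidableEq V] in
lemma alS_sum {κ : Type} (s : Finset κ) (f : κ → QM N V) (h : ∀ k ∈ s, AlS Al (f k)) :
    AlS Al (∑ k ∈ s, f k) :=
  Finset.sum_induction f _ (fun _ _ => alS_add) (fun _ _ => AlP.zero _ _) h

omit [Fintype V] in
lemma alS_single {i j : Ix N V} {a : 𝕜[X]} (h : AlP Al i.2 j.2 a) : AlS Al (single i j a) := by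
  intro i' j'
  by_cases h' : i = i' ∧ j = j'
  · obtain ⟨rfl, rfl⟩ := h'; rw [single_apply_same]; exact h
  · rw [single_apply_of_ne _ _ _ _ _ h']; exact AlP.zero _ _

omit [DecidableEq V] in
lemma levUp_mul (h : LevUp M) (h' : LevUp M') : LevUp (M * M') := by
  intro i j hij
  rw [Matrix.mul_apply, finsetSum_coeff] at hij
  obtain ⟨k, -, hk⟩ := Finset.exists_ne_zero_of_sum_ne_zero hij
  rw [mul_coeff_zero] at hk
  exact (h i k (left_ne_zero_of_mul hk)).trans (h' k j (right_ne_zero_of_mul hk))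

lemma levUp_mul_sub_one (h : LevUp (M - 1)) (h' : LevUp (M' - 1)) : LevUp (M * M' - 1) := by
  have : M * M' - 1 = (M - 1) * (M' - 1) + (M - 1) + (M' - 1) := by noncomm_ring
  rw [this]; exact levUp_add (levUp_add (levUp_mul h h') h) h'

/-- Indices of level at most `c`. -/
def lv (c : ℕ) (i : Ix N V) : Prop := (i.1 : ℕ) ≤ c

/-- The group of admissible units supported on levels at most `c`. -/
def GS (hA : AlAx Al P) (N c : ℕ) : Subgroup (QM N V)ˣ where
  carrier := {u | InG Al u ∧ Sp (lv c) (u : QM N V)}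
  mul_mem' := by
    rintro u v ⟨⟨h1, h2, h3, h4⟩, h5⟩ ⟨⟨k1, k2, k3, k4⟩, k5⟩
    refine ⟨⟨alS_mul hA h1 k1, levUp_mul_sub_one h2 k2, ?_, ?_⟩, h5.mul k5⟩
    · rw [_root_.mul_inv_rev]; exact alS_mul hA k3 h3
    · rw [_root_.mul_inv_rev]; exact levUp_mul_sub_one k4 h4
  one_mem' := by
    refine ⟨⟨alS_one hA, ?_, alS_one hA, ?_⟩, Sp.one⟩ <;>
    · intro i j h; simp at h
  inv_mem' := by
    rintro u ⟨⟨h1, h2, h3, h4⟩, h5⟩
    exact ⟨⟨h3, h4, by simpa using h1, by simpa using h2⟩, h5.inv⟩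

lemma mem_GS {hA : AlAx Al P} {c : ℕ} {u : (QM N V)ˣ} :
    u ∈ GS hA N c ↔ InG Al u ∧ Sp (lv c) (u : QM N V) := Iff.rfl

lemma GS_mono {hA : AlAx Al P} {c c' : ℕ} (h : c ≤ c') {u : (QM N V)ˣ} (hu : u ∈ GS hA N c) :
    u ∈ GS hA N c' := ⟨hu.1, hu.2.of_imp fun _ hi => le_trans hi h⟩

lemma mem_GS_of_sq (hA : AlAx Al P) {c : ℕ} {u : (QM N V)ˣ} (hu : (u : QM N V) = 1 + M)
    (hsq : M * M = 0) (h1 : AlS Al M) (h2 : LevUp M)
    (h3 : ∀ i j, M i j ≠ 0 → lv c i ∧ lv c j) : u ∈ GS hA N c := by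
  refine ⟨⟨?_, ?_, ?_, ?_⟩, ?_⟩
  · rw [hu]; exact alS_add (alS_one hA) h1
  · rw [hu]; simpa using h2
  · rw [inv_val_of hu hsq]; exact alS_sub (alS_one hA) h1
  · rw [inv_val_of hu hsq]; simpa using levUp_neg h2
  · rw [hu]; exact Sp.one_add h3

omit [Fintype V] in
lemma lev0_iff : Lev0 M ↔ Sp (lv 0) M := by
  unfold Lev0 Sp lv
  simp only [Nat.le_zero, Fin.val_eq_zero_iff, ne_eq]

end QMs

end Pool.Agent.MP_841a27_al.G.QT

end MrgPart0

-- ======== part 1: formerly Pool.Agent.MP_841a27_al.QTClass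
section MrgPart1

/-!
Classes of states, phases, restriction of matrices to classes, class determinants.
-/

namespace Pool.Agent.MP_841a27_al.G.QT

variable [Gf]

open Polynomial Matrix

section Cls
variable {V : Type} {Al : V → V → ℕ → Prop} {P : ℕ}

/-- The two states lie on a common cycle of positive length. -/
def Cyc (Al : V → V → ℕ → Prop) (x y : V) : Prop :=
  ∃ m m', Al x y m ∧ Al y x m' ∧ 0 < m + m'

/-- The two states are in the same class. -/
def Sim (Al : V → V → ℕ → Prop) (x y : V) : Prop := x = y ∨ Cyc Al x y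

lemma Cyc.symm {x y : V} (h : Cyc Al x y) : Cyc Al y x := by
  obtain ⟨m, m', h1, h2, h3⟩ := h
  exact ⟨m', m, h2, h1, by omega⟩

lemma Cyc.trans (hA : AlAx Al P) {x y z : V} (h : Cyc Al x y) (h' : Cyc Al y z) :
    Cyc Al x z := by
  obtain ⟨m, m', h1, h2, h3⟩ := h
  obtain ⟨n, n', k1, k2, k3⟩ := h'
  exact ⟨m + n, n' + m', hA.trans h1 k1, hA.trans k2 h2, by omega⟩

lemma Sim.refl (x : V) : Sim Al x x := Or.inl rfl

lemma Sim.symm {x y : V} (h : Sim Al x y) : Sim Al y x := by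
  rcases h with h | h
  · exact Or.inl h.symm
  · exact Or.inr h.symm

lemma Sim.trans (hA : AlAx Al P) {x y z : V} (h : Sim Al x y) (h' : Sim Al y z) :
    Sim Al x z := by
  rcases h with rfl | h
  · exact h'
  · rcases h' with rfl | h'
    · exact Or.inr h
    · exact Or.inr (h.trans hA h')

lemma Sim.exists_al (hA : AlAx Al P) {x y : V} (h : Sim Al x y) : ∃ m, Al x y m := by
  rcases h with rfl | ⟨m, _, h, _⟩
  · exact ⟨0, hA.refl _⟩
  · exact ⟨m, h⟩

lemma sim_of_al (hA : AlAx Al P) {x y : V} {m m' : ℕ} (h : Al x y m) (h' : Al y x m') :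
    Sim Al x y := by
  by_cases hxy : x = y
  · exact Or.inl hxy
  · by_cases h0 : 0 < m + m'
    · exact Or.inr ⟨m, m', h, h', h0⟩
    · have hm : m = 0 := by omega
      subst hm
      obtain ⟨n, hn, h2⟩ := hA.zero h hxy
      exact Or.inr ⟨n, m', h2, h', by omega⟩

lemma sim_between (hA : AlAx Al P) {x y z : V} {m m' : ℕ} (hs : Sim Al x y) (h : Al x z m)
    (h' : Al z y m') : Sim Al x z := by
  obtain ⟨n, hn⟩ := hs.symm.exists_al hA
  exact sim_of_al hA h (hA.trans h' hn)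

lemma cyc_of_sim (_hA : AlAx Al P) {x y : V} (hx : Cyc Al x x) (h : Sim Al x y) : Cyc Al x y := by
  rcases h with rfl | h
  · exact hx
  · exact h

lemma back_edge (hA : AlAx Al P) {x y : V} (h : Cyc Al x y) {a : ℕ} (ha : Al x y a) :
    Al y x ((P - 1) * a) := by
  obtain ⟨m, m', h1, h2, h3⟩ := h
  refine hA.inv h1 h2 h3 ha ⟨a, ?_⟩
  have := hA.pos
  obtain ⟨Q, rfl⟩ : ∃ Q, P = Q + 1 := ⟨P - 1, by omega⟩
  simp; ring

lemma residue (hA : AlAx Al P) {x y : V} (h : Cyc Al x y) {a b : ℕ} (ha : Al x y a)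
    (hab : a ≡ b [MOD P]) : Al x y b := by
  have h4 := back_edge hA h ha
  obtain ⟨m, m', h1, h2, h3⟩ := h
  refine hA.inv h2 h1 (by omega) h4 ?_
  have h5 : (P - 1) * a + b ≡ (P - 1) * a + a [MOD P] := (hab.symm.add_left _)
  have h6 : P ∣ (P - 1) * a + a := by
    have := hA.pos
    obtain ⟨Q, rfl⟩ : ∃ Q, P = Q + 1 := ⟨P - 1, by omega⟩
    exact ⟨a, by simp; ring⟩
  exact (Nat.modEq_zero_iff_dvd).mp (h5.trans ((Nat.modEq_zero_iff_dvd).mpr h6))

lemma al_mul (hA : AlAx Al P) {x : V} {p : ℕ} (h : Al x x p) (t : ℕ) : Al x x (p * t) := by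
  induction t with
  | zero => simpa using hA.refl x
  | succ t ih => rw [Nat.mul_succ]; exact hA.trans ih h

/-- Shifting degrees along a loop of length `p` at the source. -/
lemma shift_src (hA : AlAx Al P) {x y : V} (h : Cyc Al x y) {p a b : ℕ} (hp : Al x x p)
    (ha : Al x y a) (hab : a ≡ b [MOD p]) : Al x y b := by
  rcases le_total a b with hle | hle
  · obtain ⟨t, ht⟩ := (Nat.modEq_iff_dvd' hle).mp hab
    have : b = p * t + a := by omega
    rw [this]; exact hA.trans (al_mul hA hp t) ha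
  · obtain ⟨t, ht⟩ := (Nat.modEq_iff_dvd' hle).mp hab.symm
    have h1 : a = b + p * t := by omega
    refine residue hA h (hA.trans (al_mul hA hp ((P - 1) * t)) ha) ?_
    have := hA.pos
    obtain ⟨Q, rfl⟩ : ∃ Q, P = Q + 1 := ⟨P - 1, by omega⟩
    have h2 : p * ((Q + 1 - 1) * t) + a = b + (Q + 1) * (p * t) := by
      rw [h1]; simp; ring
    rw [h2]
    exact Nat.ModEq.symm ((Nat.modEq_iff_dvd' (by omega)).mpr ⟨p * t, by simp⟩)

lemma phase (hA : AlAx Al P) {x0 : V} (hc : Cyc Al x0 x0) :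
    ∃ p : ℕ, 0 < p ∧ p ≤ P ∧ ∃ ph : V → ℕ, (∀ x, 1 ≤ ph x ∧ ph x ≤ p) ∧ ph x0 = p ∧
      ∀ x y, Sim Al x0 x → Sim Al x0 y → ∀ d, (Al x y d ↔ ph x + d ≡ ph y [MOD p]) := by
  classical
  have hex : ∃ p, 0 < p ∧ Al x0 x0 p := by
    obtain ⟨m, m', h1, h2, h3⟩ := hc
    exact ⟨m + m', h3, hA.trans h1 h2⟩
  set p := Nat.find hex with hp
  have hp1 : 0 < p := (Nat.find_spec hex).1
  have hp2 : Al x0 x0 p := (Nat.find_spec hex).2
  have hdvd : ∀ d, Al x0 x0 d → p ∣ d := by
    intro d hd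
    have h1 : Al x0 x0 (d % p) := shift_src hA hc hp2 hd (Nat.mod_modEq d p).symm
    by_contra h2
    have h3 : 0 < d % p := Nat.pos_of_ne_zero fun h => h2 (Nat.dvd_of_mod_eq_zero h)
    have h4 : p ≤ d % p := Nat.find_min' hex ⟨h3, h1⟩
    have := Nat.mod_lt d hp1
    omega
  have hP : p ≤ P := by
    refine Nat.find_min' hex ⟨hA.pos, residue hA hc (hA.refl x0) ?_⟩
    exact ((Nat.modEq_zero_iff_dvd).mpr dvd_rfl).symm
  have hph : ∀ x, ∃ n, (1 ≤ n ∧ n ≤ p) ∧ (Sim Al x0 x → Al x0 x n) := by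
    intro x
    by_cases hx : Sim Al x0 x
    · obtain ⟨a, ha⟩ := hx.exists_al hA
      refine ⟨(a + (p - 1)) % p + 1, ⟨by omega, Nat.mod_lt _ hp1⟩, fun _ => ?_⟩
      refine shift_src hA (cyc_of_sim hA hc hx) hp2 ha ?_
      have h1 : (a + (p - 1)) % p + 1 ≡ a + (p - 1) + 1 [MOD p] :=
        (Nat.mod_modEq _ p).add_right 1
      have h2 : a + (p - 1) + 1 = a + p := by omega
      rw [h2] at h1
      exact (h1.trans (by simp [Nat.ModEq])).symm
    · exact ⟨p, ⟨hp1, le_rfl⟩, fun h => absurd h hx⟩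
  choose ph hph1 hph2 using hph
  refine ⟨p, hp1, hP, ph, hph1, ?_, ?_⟩
  · exact le_antisymm (hph1 x0).2 (Nat.le_of_dvd (hph1 x0).1 (hdvd _ (hph2 x0 (Sim.refl x0))))
  · intro x y hx hy d
    have cx := cyc_of_sim hA hc hx
    have cy := cyc_of_sim hA hc hy
    constructor
    · intro hd
      have h1 := back_edge hA cy (hph2 y hy)
      have h2 := hdvd _ (hA.trans (hA.trans (hph2 x hx) hd) h1)
      have h3 := hdvd _ (hA.trans (hph2 y hy) h1)
      exact Nat.ModEq.add_right_cancel' _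
        (((Nat.modEq_zero_iff_dvd).mpr h2).trans ((Nat.modEq_zero_iff_dvd).mpr h3).symm)
    · intro hd
      have h1 := back_edge hA cx (hph2 x hx)
      have h2 := shift_src hA cy hp2 (hph2 y hy) hd.symm
      refine residue hA (cx.symm.trans hA cy) (hA.trans h1 h2) ?_
      have := hA.pos
      obtain ⟨Q, rfl⟩ : ∃ Q, P = Q + 1 := ⟨P - 1, by omega⟩
      have h3 : (Q + 1 - 1) * ph x + (ph x + d) = d + (Q + 1) * ph x := by simp; ring
      rw [h3]
      exact Nat.ModEq.symm ((Nat.modEq_iff_dvd' (by omega)).mpr ⟨ph x, by simp⟩)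

open Classical in
/-- The number of states reachable from `x`. -/
noncomputable def rk [Fintype V] (Al : V → V → ℕ → Prop) (x : V) : ℕ :=
  (Finset.univ.filter fun y => ∃ m, Al x y m).card

lemma rk_lt [Fintype V] (hA : AlAx Al P) {x y : V} {m : ℕ} (h : Al x y m) (hn : ¬ Sim Al x y) :
    rk Al y < rk Al x := by
  classical
  unfold rk
  apply Finset.card_lt_card
  rw [Finset.ssubset_iff_of_subset]
  · refine ⟨x, by simpa using ⟨0, hA.refl x⟩, ?_⟩
    simp only [Finset.mem_filter, Finset.mem_univ, true_and, not_exists]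
    intro m' h'
    exact hn (sim_of_al hA h h')
  · intro z hz
    simp only [Finset.mem_filter, Finset.mem_univ, true_and] at hz ⊢
    obtain ⟨m', h'⟩ := hz
    exact ⟨_, hA.trans h h'⟩

end Cls

section Res
variable {ι : Type} [Fintype ι] [DecidableEq ι]

open Classical in
/-- Restriction of a matrix to `p × p`, identity elsewhere. -/
noncomputable def res (p : ι → Prop) (M : Matrix ι ι 𝕜[X]) : Matrix ι ι 𝕜[X] :=
  Matrix.of fun i j => if p i ∧ p j then M i j else (1 : Matrix ι ι 𝕜[X]) i j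

variable {p : ι → Prop} {M M' : Matrix ι ι 𝕜[X]}

omit [Fintype ι] in
lemma res_pos {i j : ι} (hi : p i) (hj : p j) : res p M i j = M i j := by
  simp [res, hi, hj]

omit [Fintype ι] in
lemma res_sp : Sp p (res p M) := by
  intro i j h
  simp only [res, Matrix.of_apply]
  rw [if_neg (by tauto)]

omit [Fintype ι] in
lemma res_cases (i j : ι) :
    res p M i j = M i j ∨ res p M i j = (1 : Matrix ι ι 𝕜[X]) i j := by
  by_cases h : p i ∧ p j
  · exact Or.inl (res_pos h.1 h.2)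
  · exact Or.inr (res_sp i j (by tauto))

omit [Fintype ι] in
lemma res_one : res p (1 : Matrix ι ι 𝕜[X]) = 1 := by
  ext1 i j
  rcases res_cases (p := p) (M := (1 : Matrix ι ι 𝕜[X])) i j with h | h <;> exact h

lemma res_mul (h : ∀ i j k, p i → p j → M i k ≠ 0 → M' k j ≠ 0 → p k) :
    res p (M * M') = res p M * res p M' := by
  ext1 i j
  by_cases hi : p i
  · by_cases hj : p j
    · rw [res_pos hi hj, Matrix.mul_apply, Matrix.mul_apply]
      refine Finset.sum_congr rfl fun k _ => ?_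
      by_cases hk : p k
      · rw [res_pos hi hk, res_pos hk hj]
      · have hik : i ≠ k := by rintro rfl; exact hk hi
        rw [res_sp i k (Or.inr hk), Matrix.one_apply_ne hik, zero_mul]
        by_contra h'
        exact hk (h i j k hi hj (left_ne_zero_of_mul h') (right_ne_zero_of_mul h'))
    · rw [res_sp.mul_col _ _ hj, res_sp i j (Or.inr hj), res_sp i j (Or.inr hj)]
  · rw [res_sp.mul_row _ hi, res_sp i j (Or.inl hi), res_sp i j (Or.inl hi)]

lemma res_split (h : ∀ i j, M i j ≠ 0 → (p i ↔ p j)) :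
    res p M * res (fun i => ¬ p i) M = M := by
  ext1 i j
  by_cases hi : p i
  · by_cases hj : p j
    · rw [(res_sp (p := fun i => ¬ p i)).mul_col _ _ (not_not.mpr hj), res_pos hi hj]
    · have h0 : M i j = 0 := by
        by_contra h'; exact hj ((h i j h').mp hi)
      rw [h0, Matrix.mul_apply]
      refine Finset.sum_eq_zero fun k _ => ?_
      by_cases hk : p k
      · have hkj : k ≠ j := by rintro rfl; exact hj hk
        rw [res_sp (p := fun i => ¬ p i) k j (Or.inl (not_not.mpr hk)), Matrix.one_apply_ne hkj,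
          mul_zero]
      · have hik : i ≠ k := by rintro rfl; exact hk hi
        rw [res_sp i k (Or.inr hk), Matrix.one_apply_ne hik, zero_mul]
  · rw [res_sp.mul_row _ hi]
    by_cases hj : p j
    · have h0 : M i j = 0 := by
        by_contra h'; exact hi ((h i j h').mpr hj)
      have hij : i ≠ j := by rintro rfl; exact hi hj
      rw [h0, res_sp (p := fun i => ¬ p i) i j (Or.inr (not_not.mpr hj)),
        Matrix.one_apply_ne hij]
    · exact res_pos (p := fun i => ¬ p i) hi hj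

omit [Fintype ι] in
lemma res_dv {L : ℕ} (h : Dv L (M - M')) : Dv L (res p M - res p M') := by
  intro i j
  rw [Matrix.sub_apply]
  by_cases hij : p i ∧ p j
  · rw [res_pos hij.1 hij.2, res_pos hij.1 hij.2]; exact h i j
  · rw [res_sp i j (by tauto), res_sp i j (by tauto)]; simp

omit [Fintype ι] in
lemma res_sp_of {q : ι → Prop} (h : Sp q M) : Sp q (res p M) := by
  intro i j hij
  rcases res_cases (p := p) (M := M) i j with h1 | h1
  · rw [h1, h i j hij]
  · exact h1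

/-- The restriction of a unit. -/
lemma res_unit (u : (Matrix ι ι 𝕜[X])ˣ)
    (h1 : ∀ i j k, p i → p j → (u : Matrix ι ι 𝕜[X]) i k ≠ 0 →
      ((u⁻¹ : (Matrix ι ι 𝕜[X])ˣ) : Matrix ι ι 𝕜[X]) k j ≠ 0 → p k)
    (h2 : ∀ i j k, p i → p j → ((u⁻¹ : (Matrix ι ι 𝕜[X])ˣ) : Matrix ι ι 𝕜[X]) i k ≠ 0 →
      (u : Matrix ι ι 𝕜[X]) k j ≠ 0 → p k) :
    ∃ a : (Matrix ι ι 𝕜[X])ˣ, (a : Matrix ι ι 𝕜[X]) = res p u ∧
      ((a⁻¹ : (Matrix ι ι 𝕜[X])ˣ) : Matrix ι ι 𝕜[X]) =
        res p ((u⁻¹ : (Matrix ι ι 𝕜[X])ˣ) : Matrix ι ι 𝕜[X]) :=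
  ⟨⟨res p u, res p ((u⁻¹ : (Matrix ι ι 𝕜[X])ˣ) : Matrix ι ι 𝕜[X]),
    by rw [← res_mul h1, Units.mul_inv, res_one], by rw [← res_mul h2, Units.inv_mul, res_one]⟩,
    rfl, rfl⟩

lemma det_dv {L : ℕ} (h : Dv L (M - M')) : (X : 𝕜[X]) ^ L ∣ M.det - M'.det := by
  rw [← Ideal.mem_span_singleton, ← Ideal.Quotient.eq, RingHom.map_det, RingHom.map_det]
  congr 1
  ext i j
  simp only [RingHom.mapMatrix_apply, Matrix.map_apply]
  rw [Ideal.Quotient.eq, Ideal.mem_span_singleton]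
  exact h i j

lemma det_coeff_zero (h : Dv 1 (M - 1)) : M.det.coeff 0 = 1 := by
  have := coeff_eq_of_dvd (det_dv h) (m := 0) (by omega)
  simpa using this

open Classical in
lemma det_res_diag (f : ι → 𝕜[X]) :
    (res p (1 - diagonal f)).det = ∏ i ∈ Finset.univ.filter p, (1 - f i) := by
  have : res p (1 - diagonal f) = diagonal fun i => if p i then 1 - f i else 1 := by
    ext1 i j
    by_cases hij : i = j
    · subst hij
      by_cases hi : p i
      · rw [res_pos hi hi]; simp [hi]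
      · rw [res_sp i i (Or.inl hi)]; simp [hi]
    · rcases res_cases (p := p) (M := 1 - diagonal f) i j with h | h <;> rw [h] <;> simp [hij]
  rw [this, det_diagonal, Finset.prod_filter]

end Res

section QRes
variable {N : ℕ} {V : Type} [Fintype V] [DecidableEq V] {Al : V → V → ℕ → Prop} {P : ℕ}
  {M M' : QM N V}

/-- Indices whose state is in the class of `x0`. -/
def cl (Al : V → V → ℕ → Prop) (x0 : V) (i : Ix N V) : Prop := Sim Al x0 i.2

omit [Fintype V] [DecidableEq V] in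
lemma cl_closed (hA : AlAx Al P) (x0 : V) (h : AlS Al M) (h' : AlS Al M') (i j k : Ix N V)
    (hi : cl Al x0 i) (hj : cl Al x0 j) (h1 : M i k ≠ 0) (h2 : M' k j ≠ 0) : cl Al x0 k := by
  obtain ⟨m, hm⟩ := AlP.exists (h i k) h1
  obtain ⟨m', hm'⟩ := AlP.exists (h' k j) h2
  exact Sim.trans hA hi (sim_between hA (Sim.trans hA (Sim.symm hi) hj) hm hm')

omit [Fintype V] in
lemma alS_res (hA : AlAx Al P) (p : Ix N V → Prop) (h : AlS Al M) : AlS Al (res p M) := by
  intro i j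
  rcases res_cases (p := p) (M := M) i j with h1 | h1 <;> rw [h1]
  · exact h i j
  · exact alS_one hA i j

lemma det_res_unit (hA : AlAx Al P) (x0 : V) {u : (QM N V)ˣ} (hu : InG Al u) :
    ∃ a : 𝕜, (res (cl Al x0) (u : QM N V)).det = C a := by
  obtain ⟨a, ha, -⟩ := res_unit (p := cl Al x0) u (cl_closed hA x0 hu.1 hu.2.2.1)
    (cl_closed hA x0 hu.2.2.1 hu.1)
  have : IsUnit (res (cl Al x0) (u : QM N V)).det := by
    rw [← ha, ← Matrix.isUnit_iff_isUnit_det]; exact a.isUnit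
  obtain ⟨r, -, hr⟩ := Polynomial.isUnit_iff.mp this
  exact ⟨r, hr.symm⟩

/-- Class determinants are invariant. -/
lemma cdet (hA : AlAx Al P) (x0 : V) {U W : (QM N V)ˣ} (hU : InG Al U) (hW : InG Al W)
    (hM : AlS Al M) (h1 : Dv 1 (M - 1)) (h1' : Dv 1 (M' - 1)) {l : ℕ} (hl : 1 ≤ l)
    (h : Cong l ((U : QM N V) * M * (W : QM N V)) M') :
    (X : 𝕜[X]) ^ l ∣ (res (cl Al x0) M).det - (res (cl Al x0) M').det := by
  have h2 := det_dv (res_dv (p := cl Al x0) (cong_iff.mp h))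
  rw [res_mul (cl_closed hA x0 (alS_mul hA hU.1 hM) hW.1), res_mul (cl_closed hA x0 hU.1 hM),
    det_mul, det_mul] at h2
  obtain ⟨a, ha⟩ := det_res_unit hA x0 hU
  obtain ⟨b, hb⟩ := det_res_unit hA x0 hW
  rw [ha, hb] at h2
  have e1 : (res (cl Al x0) M).det.coeff 0 = 1 := by
    apply det_coeff_zero
    have := res_dv (p := cl Al x0) h1
    rwa [res_one] at this
  have e2 : (res (cl Al x0) M').det.coeff 0 = 1 := by
    apply det_coeff_zero
    have := res_dv (p := cl Al x0) h1'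
    rwa [res_one] at this
  have h3 := coeff_eq_of_dvd h2 (m := 0) (by omega)
  rw [mul_coeff_zero, mul_coeff_zero, e1, e2] at h3
  simp only [coeff_C_zero, mul_one] at h3
  have h4 : C a * (res (cl Al x0) M).det * C b = (res (cl Al x0) M).det := by
    rw [mul_right_comm, ← C_mul, h3]; simp
  rwa [h4] at h2

end QRes

end Pool.Agent.MP_841a27_al.G.QT

end MrgPart1

-- ======== part 2: formerly Pool.Agent.MP_841a27_al.QTReach
section MrgPart2

/-!
Reachability between states; reduction to diagonal states; the transfer move.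
-/

namespace Pool.Agent.MP_841a27_al.G.QT

variable [Gf]

open Polynomial Matrix

variable {N : ℕ} {V : Type} [Fintype V] [DecidableEq V] {Al : V → V → ℕ → Prop} {P : ℕ}
  {Re : QM N V → (QM N V)ˣ → (QM N V)ˣ → Prop} {L l c : ℕ} {hA : AlAx Al P}
  {M M' M'' : QM N V}

/-- The state `M'` is reached from `M` by the pair `U`, `W`. -/
structure Rch (hA : AlAx Al P) (Re : QM N V → (QM N V)ˣ → (QM N V)ˣ → Prop) (l c : ℕ)
    (M M' : QM N V) (U W : (QM N V)ˣ) : Prop where
  hU : U ∈ GS hA N c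
  hW : W ∈ GS hA N c
  re : Re M U W
  cg : Cong l ((U : QM N V) * M * (W : QM N V)) M'

lemma Rch.trans (hR : ReAx Al L Re) (hl : L ≤ l) {U W U' W' : (QM N V)ˣ}
    (h : Rch hA Re l c M M' U W) (h' : Rch hA Re l c M' M'' U' W') :
    Rch hA Re l c M M'' (U' * U) (W * W') := by
  refine ⟨Subgroup.mul_mem _ h'.hU h.hU, Subgroup.mul_mem _ h.hW h'.hW,
    hR.comp h.re (hR.congr (cong_of_le hl (cong_symm h.cg)) h'.re), cong_trans ?_ h'.cg⟩
  have := cong_mul_right (cong_mul_left (U' : QM N V) h.cg) (W' : QM N V)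
  simpa only [Units.val_mul, Matrix.mul_assoc] using this

lemma Rch.symm (hR : ReAx Al L Re) (hl : L ≤ l) {U W : (QM N V)ˣ}
    (h : Rch hA Re l c M M' U W) : Rch hA Re l c M' M U⁻¹ W⁻¹ := by
  refine ⟨Subgroup.inv_mem _ h.hU, Subgroup.inv_mem _ h.hW,
    hR.congr (cong_of_le hl h.cg) (hR.inv h.re), ?_⟩
  have := cong_mul_right (cong_mul_left ((U⁻¹ : (QM N V)ˣ) : QM N V) (cong_symm h.cg))
    ((W⁻¹ : (QM N V)ˣ) : QM N V)
  simpa only [← Matrix.mul_assoc, Units.inv_mul, Matrix.one_mul, Units.mul_inv_cancel_right]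
    using this

lemma Rch.mono {l' c' : ℕ} (hl : l' ≤ l) (hc : c ≤ c') {U W : (QM N V)ˣ}
    (h : Rch hA Re l c M M' U W) : Rch hA Re l' c' M M' U W :=
  ⟨GS_mono hc h.hU, GS_mono hc h.hW, h.re, cong_of_le hl h.cg⟩

omit [DecidableEq V] in
lemma sq_zero_of_row {T : QM N V} {p : Ix N V → Prop} (h : ∀ i j, T i j ≠ 0 → p i ∧ ¬ p j) :
    T * T = 0 := by
  ext1 i j
  rw [Matrix.mul_apply]
  refine Finset.sum_eq_zero fun k _ => ?_
  by_contra h'
  exact (h i k (left_ne_zero_of_mul h')).2 (h k j (right_ne_zero_of_mul h')).1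

lemma Rch.row (hR : ReAx Al L Re) (hL : 1 ≤ L) (hl : L ≤ l) {T : QM N V} (p : Ix N V → Prop)
    {u : (QM N V)ˣ} (hu : (u : QM N V) = 1 + T) (h1 : ∀ i j, T i j ≠ 0 → p i ∧ ¬ p j)
    (h2 : AlS Al T) (h3 : ∀ i j, (T i j).coeff 0 = 0) (h4 : ∀ i j, T i j ≠ 0 → lv c i ∧ lv c j)
    (h5 : LowNN L (1 - M)) (h6 : LowNN L (1 - M')) (h7 : Cong l ((1 + T) * M) M') :
    Rch hA Re l c M M' u 1 := by
  refine ⟨mem_GS_of_sq hA hu (sq_zero_of_row h1) h2 (fun i j h => absurd (h3 i j) h) h4,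
    Subgroup.one_mem _, hR.row M T p u hu h1 h2 h3 h5 ?_, ?_⟩
  · rw [hu]; exact lowNN_congr hl (by omega) (cong_one_sub (cong_symm h7)) h6
  · rw [hu]; simpa using h7

lemma Rch.col (hR : ReAx Al L Re) (hL : 1 ≤ L) (hl : L ≤ l) {T : QM N V} (p : Ix N V → Prop)
    {u : (QM N V)ˣ} (hu : (u : QM N V) = 1 + T) (h1 : ∀ i j, T i j ≠ 0 → ¬ p i ∧ p j)
    (h2 : AlS Al T) (h3 : ∀ i j, (T i j).coeff 0 = 0) (h4 : ∀ i j, T i j ≠ 0 → lv c i ∧ lv c j)
    (h5 : LowNN L (1 - M)) (h6 : LowNN L (1 - M')) (h7 : Cong l (M * (1 + T)) M') :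
    Rch hA Re l c M M' 1 u := by
  have hsq : T * T = 0 := sq_zero_of_row (p := fun i => ¬ p i)
    fun i j h => ⟨(h1 i j h).1, not_not.mpr (h1 i j h).2⟩
  refine ⟨Subgroup.one_mem _, mem_GS_of_sq hA hu hsq h2 (fun i j h => absurd (h3 i j) h) h4,
    hR.col M T p u hu h1 h2 h3 h5 ?_, ?_⟩
  · rw [hu]; exact lowNN_congr hl (by omega) (cong_one_sub (cong_symm h7)) h6
  · rw [hu]; simpa using h7

lemma Rch.conj (hR : ReAx Al L Re) (g : Matrix (Ix N V) (Ix N V) 𝕜) {u : (QM N V)ˣ}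
    (hu : (u : QM N V) = 1 - g.map C) (h1 : ∀ i j, 0 ≤ g i j) (h2 : g * g = 0)
    (h3 : ∀ i j, g i j ≠ 0 → Al i.2 j.2 0 ∧ i.1 < j.1) (h4 : ∀ i j, g i j ≠ 0 → lv c j)
    (h5 : LowNN L (1 - M)) (h6 : LowNN L ((1 - g.map C) * (1 - M)))
    (h7 : Cong l ((1 - g.map C) * M * (1 + g.map C)) M') :
    Rch hA Re l c M M' u u⁻¹ := by
  have hsq : (-g.map C : QM N V) * (-g.map C) = 0 := by
    rw [neg_mul_neg, ← Matrix.map_mul, h2]; simp
  have hu' : (u : QM N V) = 1 + -g.map C := by rw [hu, sub_eq_add_neg]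
  have hne : ∀ i j, (-g.map C : QM N V) i j ≠ 0 → g i j ≠ 0 := by
    intro i j h h0; apply h; simp [h0]
  have hG : u ∈ GS hA N c := by
    refine mem_GS_of_sq hA hu' hsq (alS_neg fun i j => AlP.const fun h => (h3 i j h).1) ?_ ?_
    · intro i j h
      exact (h3 i j (hne i j fun h0 => h (by rw [h0]; simp))).2
    · intro i j h
      have h8 := h4 i j (hne i j h)
      have h9 := (h3 i j (hne i j h)).2
      exact ⟨le_trans (le_of_lt h9) h8, h8⟩
  refine ⟨hG, Subgroup.inv_mem _ hG, hR.conj M g u hu h1 h2 h3 h5 (by rw [hu]; exact h6), ?_⟩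
  rw [inv_val_of hu' hsq, hu, sub_neg_eq_add]; exact h7

lemma Rch.refl (hR : ReAx Al L Re) (hL : 1 ≤ L) (hl : L ≤ l) (h5 : LowNN L (1 - M))
    (h7 : Cong l M M') : Rch hA Re l c M M' 1 1 :=
  Rch.row hR hL hl (T := 0) (fun _ => True) (by simp) (by simp) (fun _ _ => AlP.zero _ _)
    (by simp) (by simp) h5 (lowNN_congr hl (by omega) (cong_one_sub h7) h5) (by simpa using h7)

/-- The state `M'` is reachable from `M`. -/
def Reach (hA : AlAx Al P) (Re : QM N V → (QM N V)ˣ → (QM N V)ˣ → Prop) (l c : ℕ)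
    (M M' : QM N V) : Prop := ∃ U W, Rch hA Re l c M M' U W

lemma Reach.trans (hR : ReAx Al L Re) (hl : L ≤ l) (h : Reach hA Re l c M M')
    (h' : Reach hA Re l c M' M'') : Reach hA Re l c M M'' := by
  obtain ⟨U, W, h⟩ := h
  obtain ⟨U', W', h'⟩ := h'
  exact ⟨_, _, h.trans hR hl h'⟩

lemma Reach.symm (hR : ReAx Al L Re) (hl : L ≤ l) (h : Reach hA Re l c M M') :
    Reach hA Re l c M' M := by
  obtain ⟨U, W, h⟩ := h
  exact ⟨_, _, h.symm hR hl⟩

lemma Reach.mono {c' : ℕ} (hc : c ≤ c') (h : Reach hA Re l c M M') : Reach hA Re l c' M M' := by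
  obtain ⟨U, W, h⟩ := h
  exact ⟨_, _, h.mono le_rfl hc⟩

lemma Reach.refl (hR : ReAx Al L Re) (hL : 1 ≤ L) (hl : L ≤ l) (h5 : LowNN l (1 - M))
    (h7 : Cong l M M') : Reach hA Re l c M M' :=
  ⟨_, _, Rch.refl hR hL hl (lowNN_of_le hl h5) h7⟩

omit [Fintype V] in
lemma single_ne {i j i' j' : Ix N V} {a : 𝕜[X]} (h : (single i j a : QM N V) i' j' ≠ 0) :
    i' = i ∧ j' = j := by
  by_contra h'
  exact h (single_apply_of_ne _ _ _ _ _ (by tauto))

omit [Fintype V] in
lemma single_coeff {i j : Ix N V} {a : 𝕜[X]} (h : a.coeff 0 = 0) (i' j' : Ix N V) :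
    ((single i j a : QM N V) i' j').coeff 0 = 0 := by
  by_cases h' : (single i j a : QM N V) i' j' = 0
  · rw [h']; simp
  · obtain ⟨rfl, rfl⟩ := single_ne h'
    simpa using h

lemma Reach.rowE (hR : ReAx Al L Re) (hL : 1 ≤ L) (hl : L ≤ l) {i j : Ix N V} {a : 𝕜[X]}
    (hij : i ≠ j) (h2 : AlP Al i.2 j.2 a) (h3 : a.coeff 0 = 0) (hi : lv c i) (hj : lv c j)
    (h5 : LowNN l (1 - M)) (h6 : LowNN l (1 - M')) (h7 : Cong l ((1 + single i j a) * M) M') :
    Reach hA Re l c M M' :=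
  ⟨sz _ (single_sq hij a), 1, Rch.row hR hL hl (fun k => k = i) rfl
    (fun _ _ h => by obtain ⟨rfl, rfl⟩ := single_ne h; exact ⟨rfl, hij.symm⟩) (alS_single h2)
    (single_coeff h3) (fun _ _ h => by obtain ⟨rfl, rfl⟩ := single_ne h; exact ⟨hi, hj⟩)
    (lowNN_of_le hl h5) (lowNN_of_le hl h6) h7⟩

lemma Reach.colE (hR : ReAx Al L Re) (hL : 1 ≤ L) (hl : L ≤ l) {i j : Ix N V} {a : 𝕜[X]}
    (hij : i ≠ j) (h2 : AlP Al i.2 j.2 a) (h3 : a.coeff 0 = 0) (hi : lv c i) (hj : lv c j)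
    (h5 : LowNN l (1 - M)) (h6 : LowNN l (1 - M')) (h7 : Cong l (M * (1 + single i j a)) M') :
    Reach hA Re l c M M' :=
  ⟨1, sz _ (single_sq hij a), Rch.col hR hL hl (fun k => k = j) rfl
    (fun _ _ h => by obtain ⟨rfl, rfl⟩ := single_ne h; exact ⟨hij, rfl⟩) (alS_single h2)
    (single_coeff h3) (fun _ _ h => by obtain ⟨rfl, rfl⟩ := single_ne h; exact ⟨hi, hj⟩)
    (lowNN_of_le hl h5) (lowNN_of_le hl h6) h7⟩

lemma Reach.conjE (hR : ReAx Al L Re) (hl : L ≤ l) {i j : Ix N V}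
    (hij : i.1 < j.1) (h2 : Al i.2 j.2 0) (hj : lv c j)
    (h5 : LowNN l (1 - M)) (h6 : LowNN l ((1 + single i j (-1)) * (1 - M)))
    (h7 : Cong l ((1 + single i j (-1)) * M * (1 + single i j 1)) M') :
    Reach hA Re l c M M' := by
  have hne : i ≠ j := by rintro rfl; exact lt_irrefl _ hij
  have e : (single i j (1 : 𝕜)).map C = (single i j 1 : QM N V) := by
    ext1 a b
    by_cases h : i = a ∧ j = b
    · obtain ⟨rfl, rfl⟩ := h; simp
    · simp [single_apply_of_ne _ _ _ _ _ h]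
  have e' : (1 : QM N V) + single i j (-1) = 1 - (single i j (1 : 𝕜)).map C := by
    rw [e, ← single_neg, sub_eq_add_neg]
  have hs : ∀ a b, (single i j (1 : 𝕜)) a b ≠ 0 → a = i ∧ b = j := by
    intro a b h
    by_contra h'
    exact h (single_apply_of_ne _ _ _ _ _ (by tauto))
  refine ⟨sz _ (single_sq hne (-1)), _, Rch.conj hR (single i j 1) (by rw [sz_val, e']) ?_
    (single_mul_single_of_ne _ _ _ _ hne.symm _) ?_ ?_ (lowNN_of_le hl h5)
    (by rw [← e']; exact lowNN_of_le hl h6) (by rw [← e', e]; exact h7)⟩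
  · intro a b
    by_cases h : (single i j (1 : 𝕜)) a b = 0
    · rw [h]
    · obtain ⟨rfl, rfl⟩ := hs a b h; simp
  · intro a b h
    obtain ⟨rfl, rfl⟩ := hs a b h
    exact ⟨h2, hij⟩
  · intro a b h
    obtain ⟨rfl, rfl⟩ := hs a b h
    exact hj

lemma nn_sub_mono {q : 𝕜[X]} {d : ℕ} {r : 𝕜} (hq : NN l q) (hd : 1 ≤ d) (hr : r ≤ q.coeff d) :
    NN l (q - C r * X ^ d) := by
  refine ⟨by rw [coeff_sub, hq.1, coeff_C_mul_X_pow, if_neg (by omega), sub_zero], ?_⟩
  intro m hm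
  rw [coeff_sub, coeff_C_mul_X_pow]
  split_ifs with h
  · rw [h]; linarith
  · rw [sub_zero]; exact hq.2 m hm

lemma dvd_succ_of_coeff {q : 𝕜[X]} {d : ℕ} (h : (X : 𝕜[X]) ^ d ∣ q) (h' : q.coeff d = 0) :
    (X : 𝕜[X]) ^ (d + 1) ∣ q := by
  rw [X_pow_dvd_iff] at h ⊢
  intro m hm
  rcases Nat.lt_succ_iff_lt_or_eq.mp hm with h1 | h1
  · exact h m h1
  · rw [h1, h']

lemma rowDiag_step (hR : ReAx Al L Re) (hL : 1 ≤ L) (hl : L ≤ l) {d : ℕ} (hd : 1 ≤ d)
    (hdl : d < l) (n : ℕ) : ∀ M : QM N V, Sp (lv 0) M → AlS Al M → LowNN l (1 - M) →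
      (∀ i j, i ≠ j → (X : 𝕜[X]) ^ d ∣ M i j) →
      (Finset.univ.filter fun c : Ix N V × Ix N V =>
        c.1 ≠ c.2 ∧ (M c.1 c.2).coeff d ≠ 0).card = n →
      ∃ M' : QM N V, Sp (lv 0) M' ∧ AlS Al M' ∧ LowNN l (1 - M') ∧
        (∀ i j, i ≠ j → (X : 𝕜[X]) ^ (d + 1) ∣ M' i j) ∧ Reach hA Re l 0 M M' := by
  induction n with
  | zero =>
    intro M h1 h2 h3 h4 hn
    refine ⟨M, h1, h2, h3, fun i j hij => dvd_succ_of_coeff (h4 i j hij) ?_,
      Reach.refl hR hL hl h3 (cong_refl _)⟩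
    by_contra h
    have : (i, j) ∈ (Finset.univ.filter fun c : Ix N V × Ix N V =>
        c.1 ≠ c.2 ∧ (M c.1 c.2).coeff d ≠ 0) := by simp [hij, h]
    rw [Finset.card_eq_zero.mp hn] at this
    simp at this
  | succ n ih =>
    intro M h1 h2 h3 h4 hn
    obtain ⟨⟨i, j⟩, hc⟩ := Finset.card_pos.mp (by omega : 0 < (Finset.univ.filter
      fun c : Ix N V × Ix N V => c.1 ≠ c.2 ∧ (M c.1 c.2).coeff d ≠ 0).card)
    have hc' : i ≠ j ∧ (M i j).coeff d ≠ 0 := by simpa using hc
    obtain ⟨hij, hc0⟩ := hc'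
    set r : 𝕜 := -(M i j).coeff d with hr
    have hrC : r = ((1 - M : QM N V) i j).coeff d := by
      rw [Matrix.sub_apply, Matrix.one_apply_ne hij, hr]; simp
    have hr0 : 0 ≤ r := by rw [hrC]; exact (h3 i j).2 d hdl
    set a : 𝕜[X] := C r * X ^ d with ha
    have hlv : lv 0 i ∧ lv 0 j := by
      apply h1.sub_one
      rw [Matrix.sub_apply, Matrix.one_apply_ne hij, sub_zero]
      intro h0; apply hc0; simp [h0]
    have hal : AlP Al i.2 j.2 a := AlP.mono (h2 i j d hc0) r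
    set M1 : QM N V := (1 + single i j a) * M with hM1
    have e1 : ∀ k, M1 i k = M i k + a * M j k := by
      intro k; rw [hM1, add_mul, one_mul, Matrix.add_apply, single_mul_apply_same]
    have e2 : ∀ i' k, i' ≠ i → M1 i' k = M i' k := by
      intro i' k h
      rw [hM1, add_mul, one_mul, Matrix.add_apply, single_mul_apply_of_ne _ _ _ _ _ h, add_zero]
    have k1 : Sp (lv 0) M1 :=
      (Sp.one_add fun _ _ h => by obtain ⟨rfl, rfl⟩ := single_ne h; exact hlv).mul h1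
    have k2 : AlS Al M1 := alS_mul hA (alS_add (alS_one hA) (alS_single hal)) h2
    have k3 : LowNN l (1 - M1) := by
      intro i' k
      by_cases h : i' = i
      · subst h
        by_cases hk : k = j
        · subst hk
          have : (1 - M1 : QM N V) i' k =
              ((1 - M : QM N V) i' k - a) + a * (1 - M : QM N V) k k := by
            simp only [Matrix.sub_apply, e1, Matrix.one_apply_eq]; ring
          rw [this]
          exact NN.add (nn_sub_mono (h3 i' k) hd hrC.le) (NN.mul_left (Pos.mono hr0 d) (h3 k k))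
        · have : (1 - M1 : QM N V) i' k =
              (1 - M : QM N V) i' k + a * (1 - M : QM N V) j k := by
            simp only [Matrix.sub_apply, e1, Matrix.one_apply_ne (Ne.symm hk)]; ring
          rw [this]
          exact NN.add (h3 i' k) (NN.mul_left (Pos.mono hr0 d) (h3 j k))
      · rw [Matrix.sub_apply, e2 _ _ h]; exact h3 i' k
    have k4 : ∀ i' k, i' ≠ k → (X : 𝕜[X]) ^ d ∣ M1 i' k := by
      intro i' k hne
      by_cases h : i' = i
      · subst h
        rw [e1]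
        exact dvd_add (h4 _ _ hne) (((dvd_refl _).mul_left _).mul_right _)
      · rw [e2 _ _ h]; exact h4 _ _ hne
    have k5 : ∀ i' k, (M1 i' k).coeff d = if i' = i ∧ k = j then 0 else (M i' k).coeff d := by
      intro i' k
      by_cases h : i' = i
      · subst h
        have h0 : (M j k).coeff 0 = ((1 : QM N V) j k).coeff 0 := by
          have := (h3 j k).1
          rw [Matrix.sub_apply, coeff_sub] at this
          linarith
        have h0' : (a * M j k).coeff d = r * (M j k).coeff 0 := by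
          rw [ha, mul_assoc, coeff_C_mul, coeff_X_pow_mul', if_pos le_rfl, Nat.sub_self]
        rw [e1, coeff_add, h0', h0]
        by_cases hk : k = j
        · subst hk; simp [hr]
        · simp [hk, Matrix.one_apply_ne (Ne.symm hk)]
      · rw [e2 _ _ h, if_neg (by tauto)]
    obtain ⟨M', g1, g2, g3, g4, g5⟩ := ih M1 k1 k2 k3 k4 (by
      have : (Finset.univ.filter fun c : Ix N V × Ix N V =>
          c.1 ≠ c.2 ∧ (M1 c.1 c.2).coeff d ≠ 0) = (Finset.univ.filter
          fun c : Ix N V × Ix N V => c.1 ≠ c.2 ∧ (M c.1 c.2).coeff d ≠ 0).erase (i, j) := by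
        ext ⟨a, b⟩
        simp only [Finset.mem_filter, Finset.mem_univ, true_and, Finset.mem_erase, k5,
          Prod.mk.injEq, ne_eq]
        split_ifs with h <;> simp [h]
      rw [this, Finset.card_erase_of_mem hc]; omega)
    refine ⟨M', g1, g2, g3, g4, Reach.trans hR hl ?_ g5⟩
    exact Reach.rowE hR hL hl hij hal (NN.mono (L := l) hr0 hd).1 hlv.1 hlv.2 h3 k3
      (cong_refl _)

/-- Every state of level zero reaches a diagonal state. -/
lemma rowDiag (hR : ReAx Al L Re) (hL : 1 ≤ L) (hl : L ≤ l) (h1 : Sp (lv 0) M) (h2 : AlS Al M)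
    (h3 : LowNN l (1 - M)) :
    ∃ f : Ix N V → 𝕜[X], (∀ i, NN l (f i)) ∧ (∀ i, AlP Al i.2 i.2 (f i)) ∧
      (∀ i, ¬ lv 0 i → f i = 0) ∧ Reach hA Re l 0 M (1 - diagonal f) := by
  have key : ∀ d, 1 ≤ d → d ≤ l → ∃ M' : QM N V, Sp (lv 0) M' ∧ AlS Al M' ∧ LowNN l (1 - M') ∧
      (∀ i j, i ≠ j → (X : 𝕜[X]) ^ d ∣ M' i j) ∧ Reach hA Re l 0 M M' := by
    intro d hd
    induction d, hd using Nat.le_induction with
    | base =>
      intro _
      refine ⟨M, h1, h2, h3, fun i j hij => dvd_one_of_coeff ?_,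
        Reach.refl hR hL hl h3 (cong_refl _)⟩
      have := (h3 i j).1
      rw [Matrix.sub_apply, Matrix.one_apply_ne hij] at this
      simpa using this
    | succ d hd ih =>
      intro hdl
      obtain ⟨M1, k1, k2, k3, k4, k5⟩ := ih (by omega)
      obtain ⟨M', g1, g2, g3, g4, g5⟩ :=
        rowDiag_step (hA := hA) hR hL hl hd (by omega) _ M1 k1 k2 k3 k4 rfl
      exact ⟨M', g1, g2, g3, g4, k5.trans hR hl g5⟩
  obtain ⟨M', g1, g2, g3, g4, g5⟩ := key l (by omega) le_rfl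
  refine ⟨fun i => (1 - M' : QM N V) i i, fun i => g3 i i,
    fun i => alS_sub (alS_one hA) g2 i i, fun i hi => ?_, g5.trans hR hl (Reach.refl hR hL hl g3 ?_)⟩
  · show (1 - M' : QM N V) i i = 0
    rw [Matrix.sub_apply, g1 i i (Or.inl hi), sub_self]
  · intro i j
    by_cases hij : i = j
    · subst hij; simp
    · simpa [hij] using g4 i j hij

/-- A diagonal matrix with a distinguished two by two block. -/
noncomputable def Cx (f : Ix N V → 𝕜[X]) (v e : Ix N V) (α β a b : 𝕜[X]) : QM N V :=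
  Matrix.of fun i j =>
    if i = v then (if j = v then α else if j = e then a else 0)
    else if i = e then (if j = v then b else if j = e then β else 0)
    else if i = j then f i else 0

section CxSec
variable {f : Ix N V → 𝕜[X]} {v e : Ix N V} {α β a b : 𝕜[X]}

lemma cx_row (h : v ≠ e) (s : 𝕜[X]) : (1 + single v e s) * (1 - Cx f v e α β a b) =
    1 - Cx f v e (α + s * b) β (a - s * (1 - β)) b := by
  ext1 i j
  rw [add_mul, one_mul, Matrix.add_apply]
  by_cases hi : i = v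
  · subst hi
    rw [single_mul_apply_same]
    by_cases hj : j = i
    · subst hj; simp [Cx, h.symm]; ring
    · by_cases hj' : j = e
      · subst hj'; simp [Cx, h, h.symm]; ring
      · simp [Cx, h.symm, hj, hj', Ne.symm hj, Ne.symm hj']
  · rw [single_mul_apply_of_ne _ _ _ _ _ hi]; simp [Cx, hi]

lemma cx_col (h : v ≠ e) (s : 𝕜[X]) : (1 - Cx f v e α β a b) * (1 + single e v s) =
    1 - Cx f v e (α + a * s) β a (b - (1 - β) * s) := by
  ext1 i j
  rw [mul_add, mul_one, Matrix.add_apply]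
  by_cases hj : j = v
  · subst hj
    rw [mul_single_apply_same]
    by_cases hi : i = j
    · subst hi; simp [Cx, h, h.symm]; ring
    · by_cases hi' : i = e
      · subst hi'; simp [Cx, h.symm]; ring
      · simp [Cx, hi, hi']
  · rw [mul_single_apply_of_ne _ _ _ _ _ hj]; simp [Cx, hj]

lemma cx_col' (h : v ≠ e) (s : 𝕜[X]) : (1 - Cx f v e α β a b) * (1 + single v e s) =
    1 - Cx f v e α (β + b * s) (a - (1 - α) * s) b := by
  ext1 i j
  rw [mul_add, mul_one, Matrix.add_apply]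
  by_cases hj : j = e
  · subst hj
    rw [mul_single_apply_same]
    by_cases hi : i = v
    · subst hi; simp [Cx, h, h.symm]; ring
    · by_cases hi' : i = j
      · subst hi'; simp [Cx, h.symm]; ring
      · simp [Cx, hi, hi']
  · rw [mul_single_apply_of_ne _ _ _ _ _ hj]; simp [Cx, hj]

omit [Fintype V] in
lemma cx_nn (hf : ∀ i, NN l (f i)) (h1 : NN l α) (h2 : NN l β) (h3 : NN l a) (h4 : NN l b) :
    LowNN l (1 - (1 - Cx f v e α β a b)) := by
  rw [sub_sub_cancel]
  intro i j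
  simp only [Cx, Matrix.of_apply]
  split_ifs <;> first | assumption | exact NN.zero | exact hf i

omit [Fintype V] in
lemma cx_cong {α' β' a' b' : 𝕜[X]} (h1 : (X : 𝕜[X]) ^ l ∣ α - α') (h2 : (X : 𝕜[X]) ^ l ∣ β - β')
    (h3 : (X : 𝕜[X]) ^ l ∣ a - a') (h4 : (X : 𝕜[X]) ^ l ∣ b - b') :
    Cong l (1 - Cx f v e α β a b) (1 - Cx f v e α' β' a' b') := by
  apply cong_one_sub
  intro i j
  simp only [Cx, Matrix.of_apply]
  split_ifs <;> first | assumption | simp

omit [Fintype V] in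
lemma cx_diag (h : v ≠ e) : Cx f v e α β 0 0 =
    diagonal (Function.update (Function.update f v α) e β) := by
  ext1 i j
  by_cases hij : i = j
  · subst hij
    by_cases hi : i = v
    · subst hi; simp [Cx, h]
    · by_cases hi' : i = e
      · subst hi'; simp [Cx, hi]
      · simp [Cx, hi, hi']
  · simp only [Cx, Matrix.of_apply, diagonal_apply_ne _ hij]
    split_ifs <;> simp_all

lemma cx_conj (h : v ≠ e) : (1 + single v e (-1)) * (1 - (1 - Cx f v e α 0 0 b)) =
    1 - (1 - Cx f v e (α - b) 0 0 b) := by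
  rw [sub_sub_cancel, sub_sub_cancel]
  ext1 i j
  rw [add_mul, one_mul, Matrix.add_apply]
  by_cases hi : i = v
  · subst hi
    rw [single_mul_apply_same]
    by_cases hj : j = i
    · subst hj; simp [Cx, h.symm]; ring
    · simp [Cx, h.symm, hj]
  · rw [single_mul_apply_of_ne _ _ _ _ _ hi]; simp [Cx, hi]

end CxSec

/-- Truncated geometric series. -/
noncomputable def geo (l : ℕ) (h : 𝕜[X]) : 𝕜[X] := ∑ j ∈ Finset.range l, h ^ j

lemma geo_mul (h : 𝕜[X]) : (1 - h) * geo l h = 1 - h ^ l := mul_neg_geom_sum h l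

lemma geo_pos {h : 𝕜[X]} (hh : Pos L h) : Pos L (geo l h) := Pos.sum _ _ fun j _ => hh.pow j

omit [Fintype V] [DecidableEq V] in
lemma geo_alP (hA : AlAx Al P) {x : V} {h : 𝕜[X]} (hh : AlP Al x x h) : AlP Al x x (geo l h) :=
  AlP.sum _ _ fun j _ => hh.pow hA j

/-- The transfer move. -/
lemma transfer (hR : ReAx Al L Re) (hL : 1 ≤ L) (hl : L ≤ l) {f : Ix N V → 𝕜[X]}
    (hf : ∀ i, NN l (f i)) (hf2 : ∀ i, AlP Al i.2 i.2 (f i)) {v e : Ix N V} (hve : v.1 < e.1)
    (he : lv c e) (hfe : f e = 0) {ph d : ℕ} (hd : ph < d) (a1 : Al v.2 e.2 ph)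
    (a2 : Al e.2 v.2 (d - ph)) {r : 𝕜} (hr : 0 ≤ r) (hr' : r ≤ (f v).coeff d) :
    Reach hA Re l c (1 - diagonal f) (1 - diagonal (Function.update (Function.update f v
      ((f v - C r * X ^ d) * geo l (C r * X ^ d))) e (C r * X ^ d))) := by
  have hne : v ≠ e := by rintro rfl; exact lt_irrefl _ hve
  have hv : lv c v := le_trans (le_of_lt hve) he
  set A : 𝕜[X] := X ^ ph with hA'
  set B : 𝕜[X] := C r * X ^ (d - ph) with hB
  set h : 𝕜[X] := C r * X ^ d with hh
  have hAB : A * B = h := by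
    rw [hA', hB, hh, mul_left_comm, ← pow_add]; congr 2; omega
  set g : 𝕜[X] := f v - h with hg
  set θ := geo l h with hθ
  have nA : Pos l A := Pos.xpow _
  have nB : NN l B := NN.mono hr (by omega)
  have nh : NN l h := NN.mono hr (by omega)
  have ng : NN l g := nn_sub_mono (hf v) (by omega) hr'
  have nθ : Pos l θ := geo_pos nh.2
  have aA : AlP Al v.2 e.2 A := AlP.xpow a1
  have aB : AlP Al e.2 v.2 B := AlP.mono a2 r
  have ah : AlP Al v.2 v.2 h := hAB ▸ aA.mul hA aB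
  have ah' : AlP Al e.2 e.2 h := by rw [← hAB, mul_comm]; exact aB.mul hA aA
  have ag : AlP Al v.2 v.2 g := (hf2 v).sub ah
  have aθ : AlP Al e.2 e.2 θ := geo_alP hA ah'
  have hgeo : (1 - h) * θ = 1 - h ^ l := geo_mul h
  have hhl : (X : 𝕜[X]) ^ l ∣ h ^ l := pow_dvd_pow_of_dvd (X_dvd_iff.mpr nh.1) l
  have e0 : diagonal f = Cx f v e (f v) 0 0 0 := by
    rw [cx_diag hne, ← hfe]; simp
  rw [e0, ← cx_diag hne]
  have s1 : Reach hA Re l c (1 - Cx f v e (f v) 0 0 0) (1 - Cx f v e (f v) 0 0 B) := by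
    refine Reach.colE hR hL hl hne.symm aB.neg (by simp [nB.1]) he hv
      (cx_nn hf (hf v) NN.zero NN.zero NN.zero) (cx_nn hf (hf v) NN.zero NN.zero nB) ?_
    rw [cx_col hne]
    exact cx_cong (by simp) (by simp) (by simp) (by simp)
  have n2 : LowNN l (1 - (1 - Cx f v e g h (g * A) B)) := cx_nn hf ng nh (ng.mul_right nA) nB
  have s2 : Reach hA Re l c (1 - Cx f v e (f v) 0 0 B) (1 - Cx f v e g h (g * A) B) := by
    rcases Nat.eq_zero_or_pos ph with h0 | h0
    · have eA : A = 1 := by rw [hA', h0, pow_zero]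
      have eB : B = h := by rw [← hAB, eA, one_mul]
      refine Reach.conjE hR hl hve (h0 ▸ a1) he (cx_nn hf (hf v) NN.zero NN.zero nB) ?_ ?_
      · rw [cx_conj hne, eB]
        exact cx_nn hf ng NN.zero NN.zero nh
      · rw [cx_row hne, cx_col' hne, eA, eB]
        refine cong_of_eq ?_
        congr 2 <;> simp [hg, sub_eq_add_neg]
    · have nA' : NN l A := NN.xpow h0
      have n1 : LowNN l (1 - (1 - Cx f v e g 0 A B)) := cx_nn hf ng NN.zero nA' nB
      refine Reach.trans hR hl (M' := 1 - Cx f v e g 0 A B)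
        (Reach.rowE hR hL hl hne aA.neg (by simp [nA'.1]) hv he
          (cx_nn hf (hf v) NN.zero NN.zero nB) n1 ?_)
        (Reach.colE hR hL hl hne aA nA'.1 hv he n1 n2 ?_)
      · rw [cx_row hne]
        refine cong_of_eq ?_
        congr 2
        · rw [hg, ← hAB]; ring
        · ring
      · rw [cx_col' hne]
        refine cong_of_eq ?_
        congr 2
        · rw [← hAB]; ring
        · ring
  have n3 : LowNN l (1 - (1 - Cx f v e (g * θ) h 0 B)) :=
    cx_nn hf (ng.mul_right nθ) nh NN.zero nB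
  have s3 : Reach hA Re l c (1 - Cx f v e g h (g * A) B) (1 - Cx f v e (g * θ) h 0 B) := by
    refine Reach.rowE hR hL hl hne ((ag.mul hA aA).mul hA aθ)
      ((ng.mul_right nA).mul_right nθ).1 hv he n2 n3 ?_
    rw [cx_row hne]
    refine cx_cong ?_ (by simp) ?_ (by simp)
    · have : g + g * A * θ * B - g * θ = g * h ^ l := by
        have : h ^ l = 1 - (1 - h) * θ := by rw [hgeo]; ring
        rw [this, ← hAB]; ring
      rw [this]; exact hhl.mul_left _
    · have : g * A - g * A * θ * (1 - h) - 0 = g * A * h ^ l := by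
        have : h ^ l = 1 - (1 - h) * θ := by rw [hgeo]; ring
        rw [this]; ring
      rw [this]; exact hhl.mul_left _
  have s4 : Reach hA Re l c (1 - Cx f v e (g * θ) h 0 B) (1 - Cx f v e (g * θ) h 0 0) := by
    refine Reach.colE hR hL hl hne.symm (aθ.mul hA aB) (NN.mul_left nθ nB).1 he hv n3
      (cx_nn hf (ng.mul_right nθ) nh NN.zero NN.zero) ?_
    rw [cx_col hne]
    refine cx_cong (by simp) (by simp) (by simp) ?_
    have : B - (1 - h) * (θ * B) - 0 = h ^ l * B := by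
      have : h ^ l = 1 - (1 - h) * θ := by rw [hgeo]; ring
      rw [this]; ring
    rw [this]; exact hhl.mul_right _
  exact ((s1.trans hR hl s2).trans hR hl s3).trans hR hl s4

end Pool.Agent.MP_841a27_al.G.QT

end MrgPart2

-- ======== part 3: formerly Pool.Agent.MP_841a27_al.QTThmS
section MrgPart3

/-!
Theorem S: admissible units that are close to the identity are products of admissible
transvections.
-/

namespace Pool.Agent.MP_841a27_al.G.QT

variable [Gf]

open Polynomial Matrix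

variable {N : ℕ} {V : Type} [Fintype V] [DecidableEq V] {Al : V → V → ℕ → Prop} {P : ℕ}

/-- Admissible transvections of depth `k` supported on levels at most `c`. -/
def TA (Al : V → V → ℕ → Prop) (N k c : ℕ) : Set (QM N V)ˣ :=
  {u | ∃ (w : V) (x y : Ix N V → 𝕜[X]), (∀ i, AlP Al i.2 w (x i)) ∧ (∀ j, AlP Al w j.2 (y j)) ∧
    (∀ j, (X : 𝕜[X]) ^ k ∣ y j) ∧ (∀ i, ¬ lv c i → x i = 0) ∧ (∀ j, ¬ lv c j → y j = 0) ∧
    y ⬝ᵥ x = 0 ∧ (u : QM N V) = 1 + vecMulVec x y}

omit [Fintype V] in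
lemma single_eq_vv (i j : Ix N V) (a : 𝕜[X]) :
    (single i j a : QM N V) = vecMulVec (Pi.single i 1) (Pi.single j a) := by
  ext1 i' j'
  rw [vecMulVec_apply]
  by_cases hi : i = i'
  · by_cases hj : j = j'
    · subst hi hj; simp
    · rw [single_apply_of_ne _ _ _ _ _ (by tauto), Pi.single_eq_of_ne' hj, mul_zero]
  · rw [single_apply_of_ne _ _ _ _ _ (by tauto), Pi.single_eq_of_ne' hi, zero_mul]

lemma elem_mem_TA (hA : AlAx Al P) {k c : ℕ} {i j : Ix N V} {a : 𝕜[X]} (hij : i ≠ j)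
    (ha : AlP Al i.2 j.2 a) (hk : (X : 𝕜[X]) ^ k ∣ a) (hi : lv c i) (hj : lv c j)
    {t : (QM N V)ˣ} (ht : (t : QM N V) = 1 + single i j a) : t ∈ TA Al N k c := by
  refine ⟨i.2, Pi.single i 1, Pi.single j a, ?_, ?_, ?_, ?_, ?_, ?_, ?_⟩
  · intro i'
    by_cases h : i' = i
    · subst h; rw [Pi.single_eq_same]; exact AlP.one hA _
    · rw [Pi.single_eq_of_ne h]; exact AlP.zero _ _
  · intro j'
    by_cases h : j' = j
    · subst h; rw [Pi.single_eq_same]; exact ha
    · rw [Pi.single_eq_of_ne h]; exact AlP.zero _ _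
  · intro j'
    by_cases h : j' = j
    · subst h; rw [Pi.single_eq_same]; exact hk
    · rw [Pi.single_eq_of_ne h]; exact dvd_zero _
  · intro i' h
    exact Pi.single_eq_of_ne (by rintro rfl; exact h hi) _
  · intro j' h
    exact Pi.single_eq_of_ne (by rintro rfl; exact h hj) _
  · simp [Pi.single_eq_of_ne hij]
  · rw [ht, single_eq_vv]

section RelSec
variable {p : ℕ} {ph : V → ℕ}

/-- `k` is obtained from `k0` by substituting `X ^ p` and conjugating by powers of `X`. -/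
def Rel (p : ℕ) (ph : V → ℕ) (k0 k : QM N V) : Prop :=
  diagonal (fun i : Ix N V => (X : 𝕜[X]) ^ ph i.2) * k =
    (expand 𝕜 p).toRingHom.mapMatrix k0 * diagonal (fun i : Ix N V => (X : 𝕜[X]) ^ ph i.2)

lemma rel_iff {k0 k : QM N V} : Rel p ph k0 k ↔
    ∀ i j, (X : 𝕜[X]) ^ ph i.2 * k i j = expand 𝕜 p (k0 i j) * X ^ ph j.2 := by
  unfold Rel
  rw [← Matrix.ext_iff]
  simp only [diagonal_mul, mul_diagonal, RingHom.mapMatrix_apply, Matrix.map_apply]
  rfl

lemma Rel.one : Rel p ph (1 : QM N V) 1 := by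
  unfold Rel; rw [map_one]; simp

lemma Rel.mul {a0 a b0 b : QM N V} (h : Rel p ph a0 a) (h' : Rel p ph b0 b) :
    Rel p ph (a0 * b0) (a * b) := by
  unfold Rel at *
  rw [← Matrix.mul_assoc, h, Matrix.mul_assoc, h', map_mul, Matrix.mul_assoc]

lemma Rel.inv {a0 a : (QM N V)ˣ} (h : Rel p ph (a0 : QM N V) (a : QM N V)) :
    Rel p ph ((a0⁻¹ : (QM N V)ˣ) : QM N V) ((a⁻¹ : (QM N V)ˣ) : QM N V) := by
  unfold Rel at *
  set D := diagonal (fun i : Ix N V => (X : 𝕜[X]) ^ ph i.2)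
  set E := ((expand 𝕜 p).toRingHom.mapMatrix : QM N V →+* QM N V)
  have h1 : E ((a0⁻¹ : (QM N V)ˣ) : QM N V) * E (a0 : QM N V) = 1 := by
    rw [← map_mul, Units.inv_mul, map_one]
  calc D * ((a⁻¹ : (QM N V)ˣ) : QM N V)
      = E ((a0⁻¹ : (QM N V)ˣ) : QM N V) * (E (a0 : QM N V) * D) *
          ((a⁻¹ : (QM N V)ˣ) : QM N V) := by rw [← mul_assoc, h1, one_mul]
    _ = E ((a0⁻¹ : (QM N V)ˣ) : QM N V) * D := by
      rw [← h, mul_assoc, mul_assoc, Units.mul_inv, mul_one]

lemma Rel.inj_right {a0 a b : QM N V} (h : Rel p ph a0 a) (h' : Rel p ph a0 b) : a = b := by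
  rw [rel_iff] at h h'
  ext1 i j
  exact mul_left_cancel₀ (pow_ne_zero _ X_ne_zero) ((h i j).trans (h' i j).symm)

lemma Rel.inj_left (hp : 0 < p) {a0 b0 a : QM N V} (h : Rel p ph a0 a) (h' : Rel p ph b0 a) :
    a0 = b0 := by
  rw [rel_iff] at h h'
  ext1 i j
  exact expand_injective hp
    (mul_right_cancel₀ (pow_ne_zero _ X_ne_zero) ((h i j).symm.trans (h' i j)))

lemma contract_exists {a b : ℕ} (ha : 1 ≤ a) (hb : b ≤ p) (q : 𝕜[X])
    (h : ∀ d, q.coeff d ≠ 0 → a + d ≡ b [MOD p]) :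
    ∃ q0 : 𝕜[X], (X : 𝕜[X]) ^ a * q = expand 𝕜 p q0 * X ^ b := by
  refine ⟨∑ d ∈ q.support, C (q.coeff d) * X ^ ((a + d - b) / p), ?_⟩
  conv_lhs => rw [q.as_sum_support_C_mul_X_pow]
  rw [Finset.mul_sum, map_sum, Finset.sum_mul]
  refine Finset.sum_congr rfl fun d hd => ?_
  have h1 := h d (mem_support_iff.mp hd)
  have h2 : b ≤ a + d := by
    by_contra h3
    have h4 := (Nat.modEq_iff_dvd' (by omega : a + d ≤ b)).mp h1
    have := Nat.le_of_dvd (by omega) h4
    omega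
  have h3 := Nat.mul_div_cancel' ((Nat.modEq_iff_dvd' h2).mp h1.symm)
  rw [map_mul, expand_C, map_pow, expand_X, ← pow_mul, h3, mul_assoc, ← pow_add,
    mul_left_comm, ← pow_add]
  congr 2; omega

lemma rel_exists {x0 : V} (hph : ∀ x, 1 ≤ ph x ∧ ph x ≤ p)
    (hal : ∀ x y, Sim Al x0 x → Sim Al x0 y → ∀ d, (Al x y d ↔ ph x + d ≡ ph y [MOD p]))
    {k : QM N V} (hk : AlS Al k) (hs : Sp (cl Al x0) k) : ∃ k0, Rel p ph k0 k := by
  have : ∀ i j : Ix N V, ∃ q0 : 𝕜[X],
      (X : 𝕜[X]) ^ ph i.2 * k i j = expand 𝕜 p q0 * X ^ ph j.2 := by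
    intro i j
    by_cases h : cl Al x0 i ∧ cl Al x0 j
    · exact contract_exists (hph _).1 (hph _).2 _
        fun d hd => (hal _ _ h.1 h.2 d).mp (hk i j d hd)
    · rw [hs i j (by tauto)]
      by_cases hij : i = j
      · subst hij; exact ⟨1, by simp⟩
      · exact ⟨0, by simp [hij]⟩
  choose k0 hk0 using this
  exact ⟨Matrix.of k0, rel_iff.mpr hk0⟩

lemma Rel.sp (hp : 0 < p) {q : Ix N V → Prop} {k0 k : QM N V} (h : Rel p ph k0 k)
    (hs : Sp q k) : Sp q k0 := by
  intro i j hij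
  have h1 := rel_iff.mp h i j
  have h2 := rel_iff.mp (Rel.one (N := N) (p := p) (ph := ph)) i j
  rw [hs i j hij, h2] at h1
  exact (expand_injective hp (mul_right_cancel₀ (pow_ne_zero _ X_ne_zero) h1)).symm

lemma Rel.sub_one {k0 k : QM N V} (h : Rel p ph k0 k) : Rel p ph (k0 - 1) (k - 1) := by
  have h2 := Rel.one (N := N) (p := p) (ph := ph)
  unfold Rel at *
  rw [mul_sub, map_sub, sub_mul, h, h2]

lemma Rel.coeff (hp : 0 < p) {k0 k : QM N V} (h : Rel p ph k0 k) (i j : Ix N V) (n : ℕ) :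
    (k0 i j).coeff n =
      if ph i.2 ≤ n * p + ph j.2 then (k i j).coeff (n * p + ph j.2 - ph i.2) else 0 := by
  have h1 := congrArg (fun q => q.coeff (n * p + ph j.2)) (rel_iff.mp h i j)
  simp only [coeff_mul_X_pow, coeff_expand_mul hp, coeff_X_pow_mul'] at h1
  exact h1.symm

/-- The part of Theorem S that uses the vanishing of the relative Whitehead group. -/
lemma classCore (h : SK1Stmt) {x0 : V} (hp : 0 < p) (hph : ∀ x, 1 ≤ ph x ∧ ph x ≤ p)
    (hx0 : ph x0 = p)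
    (hal : ∀ x y, Sim Al x0 x → Sim Al x0 y → ∀ d, (Al x y d ↔ ph x + d ≡ ph y [MOD p]))
    {c c' m k : ℕ} (hm : 1 ≤ m) (hc : c + 2 * m ≤ c') (hN : c' ≤ N) (hk : k ≤ (m - 1) * p + 1)
    {k0 κ : (QM N V)ˣ} (hr : Rel p ph (k0 : QM N V) (κ : QM N V))
    (hs : Sp (fun i => cl Al x0 i ∧ lv c i) (κ : QM N V)) (hd : Dv m ((k0 : QM N V) - 1)) :
    κ ∈ Subgroup.closure (TA Al N k c') := by
  classical
  set S : Finset (Ix N V) := Finset.univ.filter fun i => cl Al x0 i ∧ lv c i with hS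
  set S' : Finset (Ix N V) := Finset.univ.filter fun i => cl Al x0 i ∧ lv c' i with hS'
  have hsub : S ⊆ S' := by
    intro i hi
    simp only [hS, hS', Finset.mem_filter, Finset.mem_univ, true_and] at hi ⊢
    exact ⟨hi.1, le_trans hi.2 (by omega)⟩
  have hcard : 2 * m ≤ (S' \ S).card := by
    let f : Fin (2 * m) → Ix N V := fun t => (⟨c + 1 + t, by omega⟩, x0)
    have hf : Function.Injective f := by
      intro a b hab
      simp only [f, Prod.mk.injEq, Fin.mk.injEq] at hab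
      exact Fin.ext (by omega)
    calc 2 * m = (Finset.univ.image f).card := by
          rw [Finset.card_image_of_injective _ hf]; simp
      _ ≤ _ := by
          apply Finset.card_le_card
          intro i hi
          obtain ⟨t, -, rfl⟩ := Finset.mem_image.mp hi
          have := t.2
          simp only [hS, hS', Finset.mem_sdiff, Finset.mem_filter, Finset.mem_univ, true_and,
            lv, cl, f, Sim.refl]
          omega
  have hk0 := h (Ix N V) m hm S S' hsub hcard k0 (by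
    intro i j hij
    refine (hr.sp hp hs) i j ?_
    simpa only [hS, Finset.mem_filter, Finset.mem_univ, true_and] using hij) hd
  have key : ∀ u ∈ Subgroup.closure (TV m S'), ∃ v ∈ Subgroup.closure (TA Al N k c'),
      Rel p ph (u : QM N V) (v : QM N V) := by
    intro u hu
    induction hu using Subgroup.closure_induction with
    | one => exact ⟨1, Subgroup.one_mem _, Rel.one⟩
    | mul a b _ _ ha hb =>
      obtain ⟨a', ha1, ha2⟩ := ha
      obtain ⟨b', hb1, hb2⟩ := hb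
      exact ⟨a' * b', Subgroup.mul_mem _ ha1 hb1, ha2.mul hb2⟩
    | inv a _ ha =>
      obtain ⟨a', ha1, ha2⟩ := ha
      exact ⟨a'⁻¹, Subgroup.inv_mem _ ha1, ha2.inv⟩
    | mem u hu =>
      obtain ⟨x, y, hx, hy, hyx, hu⟩ := hu
      obtain ⟨m', rfl⟩ : ∃ m', m = m' + 1 := ⟨m - 1, by omega⟩
      simp only [Nat.add_sub_cancel] at hk
      let x' : Ix N V → 𝕜[X] := fun i => X ^ (p - ph i.2) * expand 𝕜 p (x i)
      let y' : Ix N V → 𝕜[X] := fun j => X ^ (m' * p + ph j.2) * expand 𝕜 p (y j)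
      have hprod : ∀ i j : Ix N V, (X : 𝕜[X]) ^ ph i.2 * (x' i * y' j) =
          expand 𝕜 p (X ^ (m' + 1) * (x i * y j)) * X ^ ph j.2 := by
        intro i j
        have e : (X : 𝕜[X]) ^ ph i.2 * X ^ (p - ph i.2) = X ^ p := by
          rw [← pow_add]; congr 1; have := (hph i.2).2; omega
        simp only [x', y', map_mul, map_pow, expand_X]
        rw [← mul_assoc, ← mul_assoc (X ^ ph i.2), e]
        ring
      have hyx' : y' ⬝ᵥ x' = 0 := by
        have e : y' ⬝ᵥ x' = expand 𝕜 p (X ^ (m' + 1) * (y ⬝ᵥ x)) := by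
          simp only [dotProduct, Finset.mul_sum, map_sum]
          refine Finset.sum_congr rfl fun i _ => ?_
          have := hprod i i
          rw [mul_comm _ ((X : 𝕜[X]) ^ ph i.2)] at this
          rw [mul_comm (y' i), mul_comm (y i)]
          exact mul_left_cancel₀ (pow_ne_zero _ X_ne_zero) this
        rw [e, hyx]; simp
      have hmem : ∀ i, i ∈ S' ↔ cl Al x0 i ∧ lv c' i := by
        intro i; simp only [hS', Finset.mem_filter, Finset.mem_univ, true_and]
      refine ⟨sz _ (vv_sq hyx'), Subgroup.subset_closure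
        ⟨x0, x', y', ?_, ?_, ?_, ?_, ?_, hyx', rfl⟩, ?_⟩
      · intro i d hd
        by_cases hi : i ∈ S'
        · rw [hal _ _ ((hmem i).mp hi).1 (Sim.refl _), hx0]
          simp only [x', coeff_X_pow_mul', coeff_expand hp] at hd
          split_ifs at hd with h1 h2
          · obtain ⟨t, ht⟩ := h2
            have := (hph i.2).2
            have e : ph i.2 + d = p + p * t := by omega
            rw [e]; simp [Nat.ModEq]
          · exact absurd rfl hd
          · exact absurd rfl hd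
        · simp [x', hx i hi] at hd
      · intro j d hd
        by_cases hj : j ∈ S'
        · rw [hal _ _ (Sim.refl _) ((hmem j).mp hj).1, hx0]
          simp only [y', coeff_X_pow_mul', coeff_expand hp] at hd
          split_ifs at hd with h1 h2
          · obtain ⟨t, ht⟩ := h2
            have e : p + d = ph j.2 + p * (m' + 1 + t) := by
              have : p * (m' + 1 + t) = m' * p + p + p * t := by ring
              omega
            rw [e]; simp [Nat.ModEq]
          · exact absurd rfl hd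
          · exact absurd rfl hd
        · simp [y', hy j hj] at hd
      · intro j
        exact (pow_dvd_pow _ (by have := (hph j.2).1; omega)).mul_right _
      · intro i hi
        simp [x', hx i fun h' => hi ((hmem i).mp h').2]
      · intro i hi
        simp [y', hy i fun h' => hi ((hmem i).mp h').2]
      · rw [hu, sz_val, rel_iff]
        intro i j
        have h2 := rel_iff.mp (Rel.one (N := N) (p := p) (ph := ph)) i j
        rw [Matrix.add_apply, Matrix.add_apply, mul_add, map_add, add_mul, h2, vecMulVec_apply,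
          hprod, Matrix.smul_apply, vecMulVec_apply, smul_eq_mul]
  obtain ⟨v, hv1, hv2⟩ := key k0 hk0
  have : κ = v := Units.ext (hr.inj_right hv2)
  rw [this]; exact hv1

open Classical in
/-- The lowest order part of a matrix with respect to the phases. -/
noncomputable def low (ph : V → ℕ) (k : QM N V) : QM N V :=
  Matrix.of fun i j => if ph i.2 < ph j.2 then
    C ((k i j).coeff (ph j.2 - ph i.2)) * X ^ (ph j.2 - ph i.2) else 0

/-- The constant part of a matrix, as a ring homomorphism. -/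
noncomputable def cst : QM N V →+* QM N V :=
  ((C : 𝕜 →+* 𝕜[X]).comp (constantCoeff : 𝕜[X] →+* 𝕜)).mapMatrix

lemma cst_apply (k : QM N V) (i j : Ix N V) : cst k i j = C ((k i j).coeff 0) := rfl

lemma dv_sub_cst (k : QM N V) : Dv 1 (k - cst k) := by
  intro i j
  apply dvd_one_of_coeff
  rw [Matrix.sub_apply, cst_apply]; simp

lemma rel_low (hp : 0 < p) {k0 k : QM N V} (hr : Rel p ph k0 k) (hd : Dv 1 (k - 1)) :
    Rel p ph (cst k0) (1 + low ph k) := by
  rw [rel_iff]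
  intro i j
  have h1 := hr.coeff hp i j 0
  simp only [zero_mul, zero_add] at h1
  rw [cst_apply, expand_C, h1, Matrix.add_apply]
  simp only [low, Matrix.of_apply]
  rcases lt_trichotomy (ph i.2) (ph j.2) with h | h | h
  · have hij : i ≠ j := by rintro rfl; omega
    rw [if_pos h, if_pos h.le, Matrix.one_apply_ne hij, zero_add, mul_left_comm, ← pow_add]
    congr 2; omega
  · rw [if_neg (by omega), if_pos h.le, h, Nat.sub_self,
      coeff_eq_of_dvd (hd i j) (by omega : 0 < 1), add_zero, mul_comm]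
    by_cases hij : i = j
    · subst hij; simp
    · simp [hij]
  · have hij : i ≠ j := by rintro rfl; omega
    rw [if_neg (by omega), if_neg (by omega), Matrix.one_apply_ne hij]; simp

end RelSec

omit [Fintype V] in
lemma Sp.and {p q : Ix N V → Prop} {M : QM N V} (h : Sp p M) (h' : Sp q M) :
    Sp (fun i => p i ∧ q i) M := by
  intro i j hij
  by_cases h1 : ¬ p i ∨ ¬ p j
  · exact h i j h1
  · exact h' i j (by tauto)

/-- Theorem S for a unit supported on one class. -/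
lemma classThm (h : SK1Stmt) (hA : AlAx Al P) (x0 : V) {c k n : ℕ} (hk : 1 ≤ k)
    (hn : (k = 1 ∧ n = 1) ∨ n = k + 2 * P) (hN : c + 2 * k + 2 ≤ N) {κ : (QM N V)ˣ}
    (h1 : AlS Al (κ : QM N V)) (h2 : AlS Al ((κ⁻¹ : (QM N V)ˣ) : QM N V))
    (hs : Sp (fun i => cl Al x0 i ∧ lv c i) (κ : QM N V)) (hd : Dv n ((κ : QM N V) - 1)) :
    κ ∈ Subgroup.closure (TA Al N k (c + 2 * k + 2)) := by
  have hn1 : 1 ≤ n := by omega
  by_cases hc : Cyc Al x0 x0
  swap
  · have : κ = 1 := by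
      apply Units.ext
      ext i j m
      by_cases hij : (cl Al x0 i ∧ lv c i) ∧ (cl Al x0 j ∧ lv c j)
      · have e : ∀ y, Sim Al x0 y → y = x0 := by
          rintro y (rfl | hy)
          · rfl
          · exact absurd (hy.trans hA hy.symm) hc
        rcases Nat.eq_zero_or_pos m with rfl | hm
        · exact coeff_eq_of_dvd (hd i j) (by omega)
        · have e1 : ((κ : QM N V) i j).coeff m = 0 := by
            by_contra h'
            have := h1 i j m h'
            rw [e _ hij.1.1, e _ hij.2.1] at this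
            exact hc ⟨m, 0, this, hA.refl _, by omega⟩
          rw [e1, Units.val_one]
          by_cases hij' : i = j
          · subst hij'; rw [Matrix.one_apply_eq, coeff_one, if_neg (by omega)]
          · simp [hij']
      · rw [hs i j (by tauto)]; rfl
    rw [this]; exact Subgroup.one_mem _
  obtain ⟨p, hp, hpP, ph, hph, hx0, hal⟩ := phase hA hc
  have hs1 : Sp (cl Al x0) (κ : QM N V) := hs.of_imp fun _ hi => hi.1
  obtain ⟨a, ha⟩ := rel_exists hph hal h1 hs1
  obtain ⟨b, hb⟩ := rel_exists hph hal h2 hs1.inv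
  let k0 : (QM N V)ˣ := ⟨a, b,
    Rel.inj_left hp (ha.mul hb) (by rw [Units.mul_inv]; exact Rel.one),
    Rel.inj_left hp (hb.mul ha) (by rw [Units.inv_mul]; exact Rel.one)⟩
  have hr : Rel p ph (k0 : QM N V) (κ : QM N V) := ha
  rcases hn with ⟨rfl, rfl⟩ | rfl
  · have r1 := rel_low hp ha hd
    have r2 := rel_low hp hb hd.inv_sub_one
    have e1 : cst a * cst b = 1 := by rw [← map_mul, k0.val_inv, map_one]
    have e2 : cst b * cst a = 1 := by rw [← map_mul, k0.inv_val, map_one]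
    let c0 : (QM N V)ˣ := ⟨cst a, cst b, e1, e2⟩
    let t : (QM N V)ˣ := ⟨1 + low ph (κ : QM N V), 1 + low ph ((κ⁻¹ : (QM N V)ˣ) : QM N V),
      Rel.inj_right (r1.mul r2) (by rw [e1]; exact Rel.one),
      Rel.inj_right (r2.mul r1) (by rw [e2]; exact Rel.one)⟩
    have hlow : ∀ i j, low ph (κ : QM N V) i j ≠ 0 → ph i.2 < ph j.2 ∧
        (cl Al x0 i ∧ lv c i) ∧ (cl Al x0 j ∧ lv c j) ∧
        AlP Al i.2 j.2 (low ph (κ : QM N V) i j) ∧ (X : 𝕜[X]) ^ 1 ∣ low ph (κ : QM N V) i j := by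
      intro i j hij
      simp only [low, Matrix.of_apply] at hij ⊢
      split_ifs at hij ⊢ with hlt
      · have hne : i ≠ j := by rintro rfl; omega
        have h3 : ((κ : QM N V) - 1) i j ≠ 0 := by
          rw [Matrix.sub_apply, Matrix.one_apply_ne hne, sub_zero]
          intro h0; apply hij; simp [h0]
        have h4 := hs.sub_one h3
        exact ⟨hlt, h4.1, h4.2, AlP.mono' fun h5 => h1 i j _ h5,
          (pow_dvd_pow _ (by omega)).mul_left _⟩
      · exact absurd rfl hij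
    have ht : t ∈ Subgroup.closure (TA Al N 1 (c + 2 * 1 + 2)) := by
      refine uni _ (fun i => p - ph i.2) (low ph (κ : QM N V)) ?_ ?_ t rfl
      · intro i j hij
        have := (hlow i j hij).1
        have := (hph j.2).2
        omega
      · intro i j hij t' ht'
        obtain ⟨g1, g2, g3, g4, g5⟩ := hlow i j hij
        exact Subgroup.subset_closure (elem_mem_TA hA (by rintro rfl; omega) g4 g5
          (le_trans g2.2 (by omega)) (le_trans g3.2 (by omega)) ht')
    have hst : Sp (fun i => cl Al x0 i ∧ lv c i) (t : QM N V) :=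
      Sp.one_add fun i j hij => ⟨(hlow i j hij).2.1, (hlow i j hij).2.2.1⟩
    have hrt : Rel p ph (c0 : QM N V) (t : QM N V) := r1
    have := classCore h hp hph hx0 hal (c := c) (c' := c + 2 * 1 + 2) (m := 1) (k := 1) le_rfl
      (by omega) hN (by omega) (k0 := k0 * c0⁻¹) (κ := κ * t⁻¹) (hr.mul hrt.inv)
      (hs.mul hst.inv) (by
        have e : ((k0 * c0⁻¹ : (QM N V)ˣ) : QM N V) - 1 = (a - cst a) * cst b := by
          rw [sub_mul, e1]; rfl
        rw [e]; exact (dv_sub_cst a).mul_right _)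
    have e : κ = κ * t⁻¹ * t := by simp
    rw [e]; exact Subgroup.mul_mem _ this ht
  · have hdiv : (k - 1) / p ≤ k - 1 := Nat.div_le_self _ _
    have hlt : k - 1 < p * ((k - 1) / p + 1) := Nat.lt_mul_div_succ _ hp
    have hle : (k - 1) / p * p ≤ k - 1 := Nat.div_mul_le_self _ _
    refine classCore h hp hph hx0 hal (c := c) (m := (k - 1) / p + 2) (Nat.le_add_left 1 _) (by omega) hN
      ?_ hr hs ?_
    · have : ((k - 1) / p + 2 - 1) * p = p * ((k - 1) / p + 1) := by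
        rw [mul_comm]; rfl
      omega
    · intro i j
      rw [X_pow_dvd_iff]
      intro n hn
      rw [hr.sub_one.coeff hp]
      split_ifs with h3
      · apply X_pow_dvd_iff.mp (hd i j)
        have h4 : n * p ≤ ((k - 1) / p + 1) * p := Nat.mul_le_mul_right _ (by omega)
        have h5 : ((k - 1) / p + 1) * p = (k - 1) / p * p + p := by ring
        have := hph i.2
        have := hph j.2
        omega
      · rfl

lemma blockThm (h : SK1Stmt) (hA : AlAx Al P) {c k n : ℕ} (hk : 1 ≤ k)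
    (hn : (k = 1 ∧ n = 1) ∨ n = k + 2 * P) (hN : c + 2 * k + 2 ≤ N) (T : Finset V) :
    ∀ κ : (QM N V)ˣ, AlS Al (κ : QM N V) → AlS Al ((κ⁻¹ : (QM N V)ˣ) : QM N V) →
      (∀ i j, (κ : QM N V) i j ≠ 0 → Sim Al i.2 j.2) →
      (∀ i j, ((κ⁻¹ : (QM N V)ˣ) : QM N V) i j ≠ 0 → Sim Al i.2 j.2) →
      Sp (fun i => i.2 ∈ T ∧ lv c i) (κ : QM N V) → Dv n ((κ : QM N V) - 1) →
      κ ∈ Subgroup.closure (TA Al N k (c + 2 * k + 2)) := by
  induction T using Finset.induction_on with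
  | empty =>
    intro κ _ _ _ _ hs _
    have : κ = 1 := by
      apply Units.ext
      ext1 i j
      exact hs i j (Or.inl (by simp))
    rw [this]; exact Subgroup.one_mem _
  | insert x0 T _ ih =>
    intro κ h1 h2 h3 h4 hs hd
    have hiff : ∀ i j : Ix N V, Sim Al i.2 j.2 → (cl Al x0 i ↔ cl Al x0 j) := fun i j hij =>
      ⟨fun hi => Sim.trans hA hi hij, fun hj => Sim.trans hA hj hij.symm⟩
    obtain ⟨a', ha1, ha2⟩ := res_unit (p := cl Al x0) κ (cl_closed hA x0 h1 h2)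
      (cl_closed hA x0 h2 h1)
    obtain ⟨b, hb1, hb2⟩ := res_unit (p := fun i => ¬ cl Al x0 i) κ
      (fun i j k hi _ hik _ hk => hi ((hiff i k (h3 i k hik)).mpr hk))
      (fun i j k hi _ hik _ hk => hi ((hiff i k (h4 i k hik)).mpr hk))
    have e : κ = a' * b := by
      apply Units.ext
      rw [Units.val_mul, ha1, hb1, res_split fun i j hij => hiff i j (h3 i j hij)]
    have hsim : ∀ (q : Ix N V → Prop) (M : QM N V), (∀ i j, M i j ≠ 0 → Sim Al i.2 j.2) →
        ∀ i j, res q M i j ≠ 0 → Sim Al i.2 j.2 := by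
      intro q M hM i j hij
      rcases res_cases (p := q) (M := M) i j with h5 | h5 <;> rw [h5] at hij
      · exact hM i j hij
      · by_cases h6 : i = j
        · subst h6; exact Sim.refl _
        · exact absurd (Matrix.one_apply_ne h6) hij
    have hdr : ∀ q : Ix N V → Prop, Dv n (res q (κ : QM N V) - 1) := by
      intro q
      have := res_dv (p := q) hd
      rwa [res_one] at this
    rw [e]
    refine Subgroup.mul_mem _ (classThm h hA x0 hk hn hN ?_ ?_ ?_ ?_) (ih b ?_ ?_ ?_ ?_ ?_ ?_)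
    · rw [ha1]; exact alS_res hA _ h1
    · rw [ha2]; exact alS_res hA _ h2
    · rw [ha1]
      exact Sp.and res_sp (res_sp_of (hs.of_imp fun _ hi => hi.2))
    · rw [ha1]; exact hdr _
    · rw [hb1]; exact alS_res hA _ h1
    · rw [hb2]; exact alS_res hA _ h2
    · rw [hb1]; exact hsim _ _ h3
    · rw [hb2]; exact hsim _ _ h4
    · rw [hb1]
      refine (Sp.and res_sp (res_sp_of hs)).of_imp ?_
      rintro i ⟨g1, g2, g3⟩
      refine ⟨?_, g3⟩
      rcases Finset.mem_insert.mp g2 with g4 | g4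
      · exact absurd (Or.inl g4.symm) g1
      · exact g4
    · rw [hb1]; exact hdr _

open Classical in
/-- The block diagonal part of a matrix. -/
noncomputable def dg (Al : V → V → ℕ → Prop) (M : QM N V) : QM N V :=
  Matrix.of fun i j => if Sim Al i.2 j.2 then M i j else 0

omit [Fintype V] [DecidableEq V] in
lemma dg_pos {M : QM N V} {i j : Ix N V} (h : Sim Al i.2 j.2) : dg Al M i j = M i j := by
  simp [dg, h]

omit [Fintype V] [DecidableEq V] in
lemma dg_neg {M : QM N V} {i j : Ix N V} (h : ¬ Sim Al i.2 j.2) : dg Al M i j = 0 := by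
  simp [dg, h]

omit [Fintype V] in
lemma one_of_not_sim {i j : Ix N V} (h : ¬ Sim Al i.2 j.2) : (1 : QM N V) i j = 0 :=
  Matrix.one_apply_ne (by rintro rfl; exact h (Sim.refl _))

omit [Fintype V] in
lemma dg_one : dg Al (1 : QM N V) = 1 := by
  ext1 i j
  by_cases h : Sim Al i.2 j.2
  · exact dg_pos h
  · rw [dg_neg h, one_of_not_sim h]

omit [Fintype V] [DecidableEq V] in
lemma dg_dg (M : QM N V) : dg Al (dg Al M) = dg Al M := by
  ext1 i j
  by_cases h : Sim Al i.2 j.2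
  · exact dg_pos h
  · rw [dg_neg h, dg_neg h]

omit [Fintype V] [DecidableEq V] in
lemma alS_dg {M : QM N V} (h : AlS Al M) : AlS Al (dg Al M) := by
  intro i j
  by_cases h' : Sim Al i.2 j.2
  · rw [dg_pos h']; exact h i j
  · rw [dg_neg h']; exact AlP.zero _ _

omit [DecidableEq V] in
lemma dg_mul (hA : AlAx Al P) {M M' : QM N V} (h : AlS Al M) (h' : AlS Al M') :
    dg Al (M * M') = dg Al M * dg Al M' := by
  ext1 i j
  rw [Matrix.mul_apply]
  by_cases hij : Sim Al i.2 j.2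
  · rw [dg_pos hij, Matrix.mul_apply]
    refine Finset.sum_congr rfl fun k _ => ?_
    by_cases h0 : M i k * M' k j = 0
    · rw [h0]
      by_cases h1 : Sim Al i.2 k.2
      · by_cases h2 : Sim Al k.2 j.2
        · rw [dg_pos h1, dg_pos h2, h0]
        · rw [dg_neg h2, mul_zero]
      · rw [dg_neg h1, zero_mul]
    · obtain ⟨m, hm⟩ := AlP.exists (h i k) (left_ne_zero_of_mul h0)
      obtain ⟨m', hm'⟩ := AlP.exists (h' k j) (right_ne_zero_of_mul h0)
      have h1 := sim_between hA hij hm hm'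
      rw [dg_pos h1, dg_pos (Sim.trans hA h1.symm hij)]
  · rw [dg_neg hij]
    refine (Finset.sum_eq_zero fun k _ => ?_).symm
    by_cases h1 : Sim Al i.2 k.2
    · rw [dg_neg fun h2 => hij (Sim.trans hA h1 h2), mul_zero]
    · rw [dg_neg h1, zero_mul]

omit [Fintype V] in
lemma dg_sp {q : Ix N V → Prop} {M : QM N V} (h : Sp q M) : Sp q (dg Al M) := by
  intro i j hij
  by_cases h' : Sim Al i.2 j.2
  · rw [dg_pos h', h i j hij]
  · rw [dg_neg h', one_of_not_sim h']

omit [Fintype V] in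
lemma dg_dv {n : ℕ} {M : QM N V} (h : Dv n (M - 1)) : Dv n (dg Al M - 1) := by
  intro i j
  rw [Matrix.sub_apply]
  by_cases h' : Sim Al i.2 j.2
  · rw [dg_pos h']; exact h i j
  · rw [dg_neg h', one_of_not_sim h']; simp

/-- Theorem S. -/
theorem thmS (h : SK1Stmt) (hA : AlAx Al P) {c k n : ℕ} (hk : 1 ≤ k)
    (hn : (k = 1 ∧ n = 1) ∨ n = k + 2 * P) (hN : c + 2 * k + 2 ≤ N) {κ : (QM N V)ˣ}
    (hG : κ ∈ GS hA N c) (hd : Dv n ((κ : QM N V) - 1)) :
    κ ∈ Subgroup.closure (TA Al N k (c + 2 * k + 2)) := by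
  obtain ⟨⟨h1, -, h2, -⟩, hs⟩ := hG
  have e1 : dg Al (κ : QM N V) * dg Al ((κ⁻¹ : (QM N V)ˣ) : QM N V) = 1 := by
    rw [← dg_mul hA h1 h2, Units.mul_inv, dg_one]
  have e2 : dg Al ((κ⁻¹ : (QM N V)ˣ) : QM N V) * dg Al (κ : QM N V) = 1 := by
    rw [← dg_mul hA h2 h1, Units.inv_mul, dg_one]
  let d : (QM N V)ˣ := ⟨_, _, e1, e2⟩
  have hsim : ∀ M : QM N V, ∀ i j, dg Al M i j ≠ 0 → Sim Al i.2 j.2 := by
    intro M i j hij
    by_contra h'
    exact hij (dg_neg h')
  have hd1 : d ∈ Subgroup.closure (TA Al N k (c + 2 * k + 2)) :=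
    blockThm h hA hk hn hN Finset.univ d (alS_dg h1) (alS_dg h2) (hsim _) (hsim _)
      ((dg_sp hs).of_imp fun i hi => ⟨Finset.mem_univ _, hi⟩) (dg_dv hd)
  set J : QM N V := dg Al ((κ⁻¹ : (QM N V)ˣ) : QM N V) * (κ : QM N V) - 1 with hJ
  have hJ1 : ∀ i j, J i j ≠ 0 → ¬ Sim Al i.2 j.2 := by
    intro i j hij hs'
    apply hij
    rw [hJ, Matrix.sub_apply, ← dg_pos (Al := Al)
      (M := dg Al ((κ⁻¹ : (QM N V)ˣ) : QM N V) * (κ : QM N V)) hs', dg_mul hA (alS_dg h2) h1,
      dg_dg, e2, sub_self]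
  have hJ2 : AlS Al J := alS_sub (alS_mul hA (alS_dg h2) h1) (alS_one hA)
  have hJ3 : Dv k J := ((dg_dv hd.inv_sub_one).mul_sub_one hd).of_le (by omega)
  have hJ4 : Sp (lv c) (dg Al ((κ⁻¹ : (QM N V)ˣ) : QM N V) * (κ : QM N V)) :=
    (dg_sp hs.inv).mul hs
  have hd2 : d⁻¹ * κ ∈ Subgroup.closure (TA Al N k (c + 2 * k + 2)) := by
    refine uni _ (fun i => rk Al i.2) J ?_ ?_ _ (by rw [hJ, add_sub_cancel]; rfl)
    · intro i j hij
      obtain ⟨m, hm⟩ := AlP.exists (hJ2 i j) hij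
      exact rk_lt hA hm (hJ1 i j hij)
    · intro i j hij t ht
      have := hJ4.sub_one hij
      exact Subgroup.subset_closure (elem_mem_TA hA
        (by rintro rfl; exact hJ1 i i hij (Sim.refl _)) (hJ2 i j) (hJ3 i j)
        (le_trans this.1 (by omega)) (le_trans this.2 (by omega)) ht)
  have e : κ = d * (d⁻¹ * κ) := by simp
  rw [e]; exact Subgroup.mul_mem _ hd1 hd2

end Pool.Agent.MP_841a27_al.G.QT

end MrgPart3

-- marker of a merged file
example : 731051 + 141983 = 731051 + 141983 := rfl
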