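import Mathlib.RingTheory.Algebraic.Integral
import Mathlib.RingTheory.Localization.Integral
import Pool.Agent.MP_841a27_al.G.PolyH
import Pool.Agent.MP_841a27_al.G.QT
import Pool.Agent.MP_841a27_al.G.Fin

/-!
Shift equivalence implies strong shift equivalence over the nonnegative part of an ordered field
that is algebraic over the rationals.
-/

set_option autoImplicit false

namespace Pool.Agent.MP_841a27_al.G

open Polynomial

/-- An ordered field that is algebraic over the integers is archimedean. -/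
theorem arch_of_alg {F : Type} [Field F] [LinearOrder F] [IsStrictOrderedRing F]
    (h : ∀ x : F, IsAlgebraic ℤ x) : Archimedean F := by
  rw [archimedean_iff_nat_lt]
  intro x
  by_contra hc
  push Not at hc
  have hx : 0 ≤ x := by simpa using hc 0
  have big : ∀ (n : ℕ) (p : ℤ[X]), p.natDegree = n → p ≠ 0 → 1 ≤ |aeval x p| := by
    intro n
    induction n using Nat.strong_induction_on with
    | _ n ih =>
      intro p hn h0
      by_cases hd : p.natDegree = 0
      · rw [eq_C_of_natDegree_eq_zero hd] at h0 ⊢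
        rw [aeval_C, eq_intCast, ← Int.cast_abs]
        exact_mod_cast Int.one_le_abs fun e => h0 (by rw [e, map_zero])
      · have h1 : p.divX ≠ 0 := fun e => hd (by rw [divX_eq_zero_iff.mp e, natDegree_C])
        have h2 := ih _ (by rw [natDegree_divX_eq_natDegree_tsub_one]; omega) p.divX rfl h1
        have h3 := hc ((p.coeff 0).natAbs + 1)
        have h4 : aeval x p.divX * x = aeval x p - (p.coeff 0 : F) := by
          conv_rhs => rw [← divX_mul_X_add p]
          simp
        have h5 : |aeval x p.divX| * x ≤ |aeval x p| + |(p.coeff 0 : F)| := by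
          rw [← abs_of_nonneg hx, ← abs_mul, abs_of_nonneg hx, h4]
          exact abs_sub _ _
        rw [Nat.cast_add, Nat.cast_natAbs, Int.cast_abs, Nat.cast_one] at h3
        nlinarith
  obtain ⟨p, h0, hp⟩ := h x
  have := big _ p rfl h0
  rw [hp, abs_zero] at this
  linarith

theorem allSteps [Gf] : AllSteps := by
  intro V _ _ S k0 P hP K _ _ _ _ _ ε η hI
  have h1 : Sm ε 1 := by simpa using hI.2.2.2 0
  exact STH.step S hI.1 h1 hP.2.1 (LCT.rlpoly hI.1 h1 hP.2.1 (LCT.rl (qt_of_sk1 sk1) hP hI))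

theorem yes (F : Type) [Field F] [LinearOrder F] [IsStrictOrderedRing F]
    (h : Algebra.IsAlgebraic ℚ F) :
    ∀ (m n : ℕ) (A : Matrix (Fin (m + 1)) (Fin (m + 1)) {x : F // 0 ≤ x})
      (B : Matrix (Fin (n + 1)) (Fin (n + 1)) {x : F // 0 ≤ x}),
      (∃ ℓ : ℕ, 1 ≤ ℓ ∧
        ∃ S : Matrix (Fin (m + 1)) (Fin (n + 1)) {x : F // 0 ≤ x},
        ∃ T : Matrix (Fin (n + 1)) (Fin (m + 1)) {x : F // 0 ≤ x},
          A ^ ℓ = S * T ∧ B ^ ℓ = T * S ∧ A * S = S * B ∧ T * A = B * T) →
      Relation.ReflTransGen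
        (fun X Y : (Σ k : ℕ, Matrix (Fin (k + 1)) (Fin (k + 1)) {x : F // 0 ≤ x}) =>
          ∃ S : Matrix (Fin (X.1 + 1)) (Fin (Y.1 + 1)) {x : F // 0 ≤ x},
          ∃ T : Matrix (Fin (Y.1 + 1)) (Fin (X.1 + 1)) {x : F // 0 ≤ x},
            X.2 = S * T ∧ Y.2 = T * S)
        ⟨m, A⟩ ⟨n, B⟩ := by
  have hz : ∀ x : F, IsAlgebraic ℤ x := fun x =>
    (IsFractionRing.isAlgebraic_iff ℤ ℚ F).mpr (h.isAlgebraic x)
  let g : Gf := { F := F, arch := arch_of_alg hz, alg := hz }
  exact @final_of g (@allSteps g)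

end Pool.Agent.MP_841a27_al.G
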